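import Pool.Agent.H63.VC6.Defs
import Pool.Agent.H63.VC4.CritNB

/-! # Location of the critical point -/

namespace Pool.Agent.H63.VC6

open Pool.Agent.H63.VC hiding ext
open Pool.Agent.H63.VC3 Pool.Agent.H63.VC4 Complex
open scoped BigOperators

theorem LocU_abs {m : ℕ} {r : Fin (m + 1) → ℤ} {y : Fin m → ℂ} {v : Fin (m + 1) → ℂ}
    (hc : CritU r y v) (i : Fin (m + 1)) : 10 ≤ |(r i : ℝ)| := by
  have h1 := hc.hr i
  have h2 := nA_pos m hc.hm i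
  linarith

theorem LocU_sq {m : ℕ} {r : Fin (m + 1) → ℤ} {y : Fin m → ℂ} {v : Fin (m + 1) → ℂ}
    (hc : CritU r y v) (i : Fin (m + 1)) : 100 * nA m i ≤ (r i : ℝ) ^ 2 := by
  have h1 := hc.hr i
  have h2 := nA_pos m hc.hm i
  have h3 := LocU_abs hc i
  rw [← sq_abs]
  nlinarith

theorem LocU_half {m : ℕ} {r : Fin (m + 1) → ℤ} {y : Fin m → ℂ} {v : Fin (m + 1) → ℂ}
    (hc : CritU r y v) (i : Fin (m + 1)) : |-(1 / (2 * (r i : ℝ)))| ≤ 1 / 20 := by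
  rw [abs_neg, abs_div, abs_one, abs_mul, abs_two]
  apply one_div_le_one_div_of_le (by norm_num)
  linarith [LocU_abs hc i]

theorem LocU_div {m : ℕ} {r : Fin (m + 1) → ℤ} {y : Fin m → ℂ} {v : Fin (m + 1) → ℂ}
    (hc : CritU r y v) (i : Fin (m + 1)) : 3 / 10 * nA m i / (r i : ℝ) ^ 2 ≤ 3 / 1000 := by
  have h1 := LocU_sq hc i
  have h2 := nA_pos m hc.hm i
  rw [div_le_iff₀ (by linarith)]
  linarith

theorem LocU_inv {m : ℕ} {r : Fin (m + 1) → ℤ} {y : Fin m → ℂ} {v : Fin (m + 1) → ℂ}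
    (hc : CritU r y v) (i : Fin (m + 1)) : 1 / (r i : ℝ) ^ 2 ≤ 1 / 100 := by
  apply one_div_le_one_div_of_le (by norm_num)
  linarith [LocU_sq hc i, nA_pos m hc.hm i]

theorem locU_hs {m : ℕ} {r : Fin (m + 1) → ℤ} {y : Fin m → ℂ} {v : Fin (m + 1) → ℂ}
    (hc : CritU r y v) (j : Fin m) :
    1 / (r j.castSucc : ℝ) ^ 2 + 1 / (r j.succ : ℝ) ^ 2 ≤ 1 / 50 := by
  linarith [LocU_inv hc j.castSucc, LocU_inv hc j.succ]

theorem locU_y {m : ℕ} {r : Fin (m + 1) → ℤ} {y : Fin m → ℂ} {v : Fin (m + 1) → ℂ}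
    (hc : CritU r y v) (j : Fin m) : yloc (y j) ∧ ‖y j - 1 / 4‖ ≤ 6 / 1000 := by
  have e : (1 / 4 : ℂ) = ((1 / 4 : ℝ) : ℂ) := by push_cast; rfl
  have hn : ‖y j - 1 / 4‖ ≤ 6 / 1000 := by
    linarith [hc.bdy j, locU_hs hc j]
  have h1 := abs_re_le_norm (y j - 1 / 4)
  have h2 := abs_im_le_norm (y j - 1 / 4)
  have hn' := hn
  rw [e] at h1 h2 hn'
  rw [sub_re, ofReal_re] at h1
  rw [sub_im, ofReal_im, sub_zero] at h2
  exact ⟨⟨h1.trans hn', h2.trans hn'⟩, hn⟩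

theorem LocU_small {m : ℕ} {r : Fin (m + 1) → ℤ} {y : Fin m → ℂ} {v : Fin (m + 1) → ℂ}
    (hc : CritU r y v) (i : Fin (m + 1)) : ‖v i‖ ≤ 55 / 1000 ∧
      ‖v i‖ ^ 2 ≤ 3025 / 10000 * (1 / (r i : ℝ) ^ 2) := by
  refine CritNB_v_small (nA_pos m hc.hm i) (hc.hr i) ((hc.bdv i).trans ?_)
  have h1 := LocU_sq hc i
  have h2 := nA_pos m hc.hm i
  rw [div_le_div_iff₀ (by linarith) (by linarith)]
  nlinarith [mul_nonneg (by linarith : (0:ℝ) ≤ nA m i) (by linarith : (0:ℝ) ≤ (r i : ℝ) ^ 2)]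

theorem locU_v {m : ℕ} {r : Fin (m + 1) → ℤ} {y : Fin m → ℂ} {v : Fin (m + 1) → ℂ}
    (hc : CritU r y v) (i : Fin (m + 1)) : vloc (v i) ∧
      (v i).im ≤ 3 / 10 * nA m i / (r i : ℝ) ^ 2 ∧ ‖v i‖ ≤ 55 / 1000 ∧
      ‖v i‖ ^ 2 ≤ 3025 / 10000 * (1 / (r i : ℝ) ^ 2) := by
  have e' : (1 / (2 * (r i : ℂ))) = ((1 / (2 * (r i : ℝ)) : ℝ) : ℂ) := by push_cast; rfl
  have h1 := abs_re_le_norm (v i + 1 / (2 * r i))
  have h2 := abs_im_le_norm (v i + 1 / (2 * r i))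
  have hv := hc.bdv i
  rw [e'] at h1 h2 hv
  rw [add_re, ofReal_re] at h1
  rw [add_im, ofReal_im, add_zero] at h2
  have h3 := LocU_half hc i
  have h4 := LocU_div hc i
  rw [abs_neg] at h3
  have h5 := abs_le.1 h3
  have h6 := abs_le.1 (h1.trans (hv.trans h4))
  refine ⟨⟨abs_le.2 ⟨by linarith [h5.1, h6.1, h5.2, h6.2],
      by linarith [h5.1, h6.1, h5.2, h6.2]⟩, hc.imv i, ?_⟩, ?_, LocU_small hc i⟩
  · exact (le_abs_self _).trans (h2.trans (hv.trans h4))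
  · exact (le_abs_self _).trans (h2.trans hv)

theorem LocU_kap {y v w : ℂ} (h0 : 4 * hh (y + 1 / 2) =
    hh (y - v) + hh (y + v) + hh (y - w) + hh (y + w))
    (hy : ‖y - 1 / 4‖ ≤ 6 / 1000) (hv : ‖v‖ ≤ 55 / 1000) (hw : ‖w‖ ≤ 55 / 1000)
    (hv2 : ‖v‖ ^ 2 ≤ 3025 / 10000 * (1 / 100)) (hw2 : ‖w‖ ^ 2 ≤ 3025 / 10000 * (1 / 100)) :
    |kap y v| ≤ 72 / 1000 := by
  have hy' : ‖y - 1 / 4‖ ≤ 16 / 1000 := hy.trans (by norm_num)
  have a1 := CritNB_G_bound hy' hv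
  have a2 := CritNB_G_bound hy' hw
  have e : 2 * hh (y + 1 / 2) - hh (y - v) - hh (y + v) =
      (CritA_G y v - CritA_G y w) / 2 := by
    unfold CritA_G
    linear_combination h0 / 2
  unfold kap
  rw [e]
  refine (abs_re_le_norm _).trans ?_
  rw [norm_div]
  have h2 : ‖(2 : ℂ)‖ = 2 := by norm_num
  rw [h2]
  have h3 := norm_sub_le (CritA_G y v) (CritA_G y w)
  linarith

theorem locU_kap {m : ℕ} {r : Fin (m + 1) → ℤ} {y : Fin m → ℂ} {v : Fin (m + 1) → ℂ}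
    (hc : CritU r y v) (j : Fin m) : |kap (y j) (v j.castSucc)| ≤ 72 / 1000 ∧
      |kap (y j) (v j.succ)| ≤ 72 / 1000 := by
  have hy := (locU_y hc j).2
  have s1 := LocU_small hc j.castSucc
  have s2 := LocU_small hc j.succ
  have i1 := LocU_inv hc j.castSucc
  have i2 := LocU_inv hc j.succ
  have q1 : ‖v j.castSucc‖ ^ 2 ≤ 3025 / 10000 * (1 / 100) :=
    s1.2.trans (mul_le_mul_of_nonneg_left i1 (by norm_num))
  have q2 : ‖v j.succ‖ ^ 2 ≤ 3025 / 10000 * (1 / 100) :=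
    s2.2.trans (mul_le_mul_of_nonneg_left i2 (by norm_num))
  refine ⟨LocU_kap (hc.ey j) hy s1.1 s2.1 q1 q2, LocU_kap ?_ hy s2.1 s1.1 q2 q1⟩
  rw [hc.ey j]
  ring

end Pool.Agent.H63.VC6
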