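import Pool.Agent.H63.VC.Tri
import Pool.Agent.H63.VC3.StepDefs
import Pool.Agent.H63.VC4.Defs

/-!
# Two-bridge knots with many twists: local estimates

Definitions for the asymptotics under a purely local condition on the numbers of twists.
-/

namespace Pool.Agent.H63.VC6

open Pool.Agent.H63.VC hiding ext
open Pool.Agent.H63.VC3 Pool.Agent.H63.VC4 Complex

/-- The critical point of the potential function, with its approximate location. -/
structure CritU {m : ℕ} (r : Fin (m + 1) → ℤ) (y : Fin m → ℂ) (v : Fin (m + 1) → ℂ) : Prop where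
  hm : 1 ≤ m
  hr : ∀ i, 10 * nA m i ≤ |(r i : ℝ)|
  ey : ∀ j : Fin m, 4 * hh (y j + 1 / 2) =
    hh (y j - v j.castSucc) + hh (y j + v j.castSucc) + hh (y j - v j.succ) + hh (y j + v j.succ)
  ev : ∀ i, 2 * Real.pi * I * (2 * r i * v i + 1) + dpo (ext y i.castSucc) (v i) +
    dpo (ext y i.succ) (v i) = 0
  bdy : ∀ j : Fin m, ‖y j - 1 / 4‖ ≤
    3 / 10 * (1 / (r j.castSucc : ℝ) ^ 2 + 1 / (r j.succ : ℝ) ^ 2)
  bdv : ∀ i, ‖v i + 1 / (2 * r i)‖ ≤ 3 / 10 * nA m i / (r i : ℝ) ^ 2
  imv : ∀ i, 0 < (v i).im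
  rev : ∀ i, |(v i).re| < 2 / (4 * |(r i : ℝ)| - 1)

/-! ### Pieces of paths -/

/-- A piece of a path with a weight. -/
structure Piece where
  /-- the beginning -/
  α : ℝ
  /-- the end -/
  β : ℝ
  /-- the weight -/
  w : ℝ → ℂ
  /-- the path -/
  z : ℝ → ℂ

/-- The integral over a piece. -/
noncomputable def Piece.int (P : Piece) (f : ℂ → ℂ) : ℂ := ∫ s in P.α..P.β, P.w s * f (P.z s)

/-- The flat piece. -/
noncomputable def flatP (M : ℕ) (y1 y2 Y : ℝ) : Piece :=
  ⟨y1, y2, fun _ => (M : ℂ), fun x => (x : ℂ) + Y * I⟩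

/-- The iterated integral over a product of pieces. -/
noncomputable def itP : {m : ℕ} → (Fin m → Piece) → ((Fin m → ℂ) → ℂ) → ℂ
  | 0, _, F => F Fin.elim0
  | _ + 1, P, F => itP (fun j => P j.succ) (fun z => (P 0).int (fun w => F (Fin.cons w z)))

/-- The three kinds of points on the paths: `0` flat, `1` sides, `2` lines. -/
def Stt (y1 y2 η Y : ℝ) (σ : Fin 3) (z : ℂ) : Prop :=
  y1 ≤ z.re ∧ z.re ≤ y2 ∧ |z.im| ≤ η ∧ (σ = 0 → z.im = Y) ∧ (σ = 1 → z.re = y1 ∨ z.re = y2) ∧
    (σ = 2 → |z.im| = η)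

/-- The damping factor. -/
noncomputable def dmp (η : ℝ) (M : ℕ) (σ : Fin 3) : ℝ :=
  if σ = 2 then Real.exp (2 * Real.pi * η * M) else 1

/-- A piece consisting of points of one kind, with a bound of the weight. -/
structure Piece.ok (P : Piece) (S : ℂ → Prop) (c : ℝ) : Prop where
  le : P.α ≤ P.β
  cw : Continuous P.w
  cz : Continuous P.z
  mem : ∀ s ∈ Set.Icc P.α P.β, S (P.z s)
  bd : ∀ s ∈ Set.Icc P.α P.β, ‖P.w s‖ * (P.β - P.α) ≤ c

/-- The kind of the nine pieces. -/
def knd (q : Fin 9) : Fin 3 := if q = 0 then 0 else if (q : ℕ) ≤ 6 then 1 else 2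

/-! ### Slots with boundary values -/

/-- The neighbours of the twist regions, with given values at both ends. -/
def extb {α : Type*} {p : ℕ} (u u' : Option α) (f : Fin p → α) : Fin (p + 2) → Option α :=
  Fin.cons (α := fun _ => Option α) u
    (Fin.snoc (α := fun _ => Option α) (fun i => some (f i)) u')

theorem ext_eq_extb {α : Type*} {p : ℕ} (f : Fin p → α) : ext f = extb none none f := rfl

theorem extb_zero {α : Type*} {p : ℕ} (u u' : Option α) (f : Fin p → α) :
    extb u u' f (0 : Fin (p + 1)).castSucc = u := rfl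

theorem extb_last {α : Type*} {p : ℕ} (u u' : Option α) (f : Fin p → α) :
    extb u u' f (Fin.last p).succ = u' := by
  rw [Fin.succ_last, ← Fin.succ_last]
  simp [extb, Fin.snoc_last]

theorem extb_mid {α : Type*} {p : ℕ} (u u' : Option α) (f : Fin p → α) (j : Fin p) :
    extb u u' f j.castSucc.succ = some (f j) := by
  unfold extb
  rw [Fin.cons_succ, Fin.snoc_castSucc]

theorem extb_mid' {α : Type*} {p : ℕ} (u u' : Option α) (f : Fin p → α) (j : Fin p) :
    extb u u' f j.succ.castSucc = some (f j) := by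
  rw [← Fin.succ_castSucc]; exact extb_mid u u' f j

theorem extb_map {α β : Type*} {p : ℕ} (u u' : Option α) (f : Fin p → α) (h : α → β)
    (i : Fin (p + 2)) :
    extb (u.map h) (u'.map h) (fun j => h (f j)) i = (extb u u' f i).map h := by
  refine Fin.cases rfl (fun i => ?_) i
  refine Fin.lastCases ?_ (fun i => ?_) i
  · rw [extb_last, extb_last]
  · rw [extb_mid, extb_mid]; rfl

/-- Sums over the slots. -/
theorem sum_slotsb {α E : Type*} [AddCommMonoid E] {p : ℕ} (u u' : Option α) (f : Fin p → α)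
    (h : Fin (p + 1) → Option α → E) :
    ∑ i : Fin (p + 1), (h i (extb u u' f i.castSucc) + h i (extb u u' f i.succ)) =
      h 0 u + (∑ j : Fin p, (h j.castSucc (some (f j)) + h j.succ (some (f j)))) +
        h (Fin.last p) u' := by
  rw [Finset.sum_add_distrib, Finset.sum_add_distrib]
  rw [Fin.sum_univ_succ (fun i : Fin (p + 1) => h i (extb u u' f i.castSucc)),
    Fin.sum_univ_castSucc (fun i : Fin (p + 1) => h i (extb u u' f i.succ))]
  simp only [extb_zero, extb_last, extb_mid, extb_mid']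
  abel

/-! ### The potential function of a slot -/

/-- The linear term of a slot. -/
noncomputable def kap (y v : ℂ) : ℝ := (2 * hh (y + 1 / 2) - hh (y - v) - hh (y + v)).re

/-- Half of the contribution of a vertex. -/
noncomputable def vs : Option ℂ → ℝ
  | none => 0
  | some y => (2 * ff (y + 1 / 2)).re

/-- The contribution of a twist region, with half of the adjacent vertices. -/
noncomputable def Lst (r : ℤ) (u u' : Option ℂ) (v : ℂ) : ℝ := (WN r u u' v).re + vs u + vs u'

/-- Location of the critical values of the vertices. -/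
def yloc (y : ℂ) : Prop := |y.re - 1 / 4| ≤ 6 / 1000 ∧ |y.im| ≤ 6 / 1000

/-- Location of the critical values of the twist regions. -/
def vloc (v : ℂ) : Prop := |v.re| ≤ 53 / 1000 ∧ 0 < v.im ∧ v.im ≤ 3 / 1000

/-- Critical values for consecutive twist regions, with boundary values `u` and `u'`. -/
structure SegC {p : ℕ} (r : Fin (p + 1) → ℤ) (u u' : Option ℂ) (y : Fin p → ℂ)
    (v : Fin (p + 1) → ℂ) : Prop where
  ey : ∀ j : Fin p, 4 * hh (y j + 1 / 2) =
    hh (y j - v j.castSucc) + hh (y j + v j.castSucc) + hh (y j - v j.succ) + hh (y j + v j.succ)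
  ev : ∀ i, 2 * Real.pi * I * (2 * r i * v i + 1) + dpo (extb u u' y i.castSucc) (v i) +
    dpo (extb u u' y i.succ) (v i) = 0
  yb : ∀ j, yloc (y j)
  vb : ∀ i, vloc (v i)
  ub : ∀ z ∈ u, yloc z ∧ |kap z (v 0)| ≤ 72 / 1000
  ub' : ∀ z ∈ u', yloc z ∧ |kap z (v (Fin.last p))| ≤ 72 / 1000

/-- The total contribution of consecutive twist regions. -/
noncomputable def Tot {p : ℕ} (r : Fin (p + 1) → ℤ) (u u' : Option ℂ) (y : Fin p → ℂ)
    (v : Fin (p + 1) → ℂ) : ℝ :=
  ∑ i, Lst (r i) (extb u u' y i.castSucc) (extb u u' y i.succ) (v i)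

/-- The integrand for consecutive twist regions. -/
noncomputable def GIb {p : ℕ} (r : Fin (p + 1) → ℤ) (n g M : ℕ) (u u' : Option ℂ) (y : Fin p → ℂ)
    (v : Fin (p + 1) → ℂ) : ℂ :=
  (∏ j, Cc n g M (y j)) *
    ∏ i, (KR (r i) n M (extb u u' y i.castSucc) (extb u u' y i.succ) (v i) * om n M (v i))

/-! ### Chains -/

/-- The sum over the vertices of consecutive regions, with boundary values. -/
noncomputable def chn (K : ℕ → Option ℕ → Option ℕ → ℂ) (c : ℕ → ℂ) (s : Finset ℕ) :
    ℕ → ℕ → Option ℕ → Option ℕ → ℂ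
  | i, 0, u, u' => K i u u'
  | i, p + 1, u, u' => ∑ t ∈ s, K i u (some t) * c t * chn K c s (i + 1) p (some t) u'

/-- The entry of a twist region replaced by the flat integral. -/
noncomputable def Gd (r : ℤ) (Y : ℝ) (n M k1 k2 l2 : ℕ) (u u' : Option ℕ) : ℂ :=
  open Classical in
  if (∀ t ∈ u, k1 ≤ t ∧ t ≤ k2) ∧ (∀ t ∈ u', k1 ≤ t ∧ t ≤ k2) then
    -(Th0 n M * c1 n M ^ r * M *
      FLo r n M (u.map fun k => ((yk n M k : ℝ) : ℂ)) (u'.map fun k => ((yk n M k : ℝ) : ℂ))
        (rho n M l2) Y)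
  else 0

/-! ### Indices -/

/-- Extension to the natural numbers. -/
def nat {α : Type*} {m : ℕ} (d : α) (f : Fin m → α) (k : ℕ) : α := if h : k < m then f ⟨k, h⟩ else d

theorem nat_lt {α : Type*} {m : ℕ} (d : α) (f : Fin m → α) (k : ℕ) (h : k < m) :
    nat d f k = f ⟨k, h⟩ := dif_pos h

/-- Admissible values of a slot. -/
def adm (m : ℕ) (s : Finset ℕ) (i : ℕ) (u : Option ℕ) : Prop :=
  ((i = 0 ∨ i = m + 1) → u = none) ∧ ((0 < i ∧ i < m + 1) → ∃ t ∈ s, u = some t)

end Pool.Agent.H63.VC6
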