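import Pool.Agent.H63.VC.Tri
import Pool.Agent.H63.VC3.Tube
import Pool.Agent.H63.VC4.Defs

/-! # Strong concavity near the vertices -/

namespace Pool.Agent.H63.VC6

open Pool.Agent.H63.VC hiding ext
open Pool.Agent.H63.VC3 Pool.Agent.H63.VC4 Complex
open scoped BigOperators

theorem Horiz_second (x e : ℝ) (h1 : 69 / 100 ≤ x) (h2 : x ≤ 81 / 100) (h4 : |e| ≤ 1 / 50) :
    Real.pi * (Real.sin (Real.pi * x) * Real.cos (Real.pi * x) /
      (Real.sin (Real.pi * x) ^ 2 + Real.sinh (Real.pi * e) ^ 2)) ≤ -2 := by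
  have hpi := Real.pi_pos
  have hpi1 : 3.1415 < Real.pi := Real.pi_gt_d4
  have hpi2 : Real.pi < 3.1416 := Real.pi_lt_d4
  set y := Real.pi * x with hy
  set u := 2 * Real.pi * (x - 3 / 4) with hu
  have k5 := Tube_sinh_sq e h4
  have hu1 : u ≤ 0.377 := by rw [hu]; nlinarith
  have hu2 : -0.377 ≤ u := by rw [hu]; nlinarith
  have e1 : 2 * y = u + 3 * Real.pi / 2 := by rw [hy, hu]; ring
  have e2 : Real.sin (2 * y) = - Real.cos u := by
    rw [e1, show u + 3 * Real.pi / 2 = (u + Real.pi) + Real.pi / 2 by ring,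
      Real.sin_add_pi_div_two, Real.cos_add_pi]
  have e3 : Real.cos (2 * y) = Real.sin u := by
    rw [e1, show u + 3 * Real.pi / 2 = (u + Real.pi) + Real.pi / 2 by ring,
      Real.cos_add_pi_div_two, Real.sin_add_pi, neg_neg]
  have e4 : Real.sin y * Real.cos y = -(Real.cos u / 2) := by
    have := Real.sin_two_mul y
    rw [e2] at this
    linarith
  have e5 : Real.sin y ^ 2 = (1 - Real.sin u) / 2 := by
    have h := Real.cos_two_mul y
    have h' := Real.sin_sq_add_cos_sq y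
    rw [e3] at h
    linarith
  have hc : 1 - u ^ 2 / 2 ≤ Real.cos u := Real.one_sub_sq_div_two_le_cos
  have hu3 : u ^ 2 ≤ 0.377 ^ 2 := by nlinarith
  have hsin : -0.377 ≤ Real.sin u := by
    rcases le_total u 0 with h | h
    · exact hu2.trans (Real.le_sin h)
    · have := Real.sin_nonneg_of_nonneg_of_le_pi h (by linarith)
      linarith
  have hsin1 : Real.sin u ≤ 0.377 := by
    rcases le_total 0 u with h | h
    · exact (Real.sin_le h).trans hu1
    · have := Real.sin_nonpos_of_nonpos_of_neg_pi_le h (by linarith)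
      linarith
  have hs2 := sq_nonneg (Real.sinh (Real.pi * e))
  rw [e4, e5, mul_div_assoc', div_le_iff₀ (by linarith)]
  nlinarith

theorem ff_horiz_vertex (z : ℂ) (t : ℝ) (h0 : 69 / 100 ≤ z.re) (h1 : z.re ≤ 81 / 100)
    (h2 : 69 / 100 ≤ z.re + t) (h3 : z.re + t ≤ 81 / 100) (h4 : |z.im| ≤ 1 / 50) :
    (ff (z + t)).re ≤ (ff z).re + t * (hh z).re - t ^ 2 := by
  have hre : ∀ s : ℝ, (z + s * (1 : ℂ)).re = z.re + s := fun s => by simp
  have him : ∀ s : ℝ, (z + s * (1 : ℂ)).im = z.im := fun s => by simp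
  have hs : ∀ s ∈ Set.uIcc 0 t, 69 / 100 ≤ z.re + s ∧ z.re + s ≤ 81 / 100 := by
    intro s hs
    rw [Set.mem_uIcc] at hs
    rcases hs with hs | hs <;> constructor <;> linarith [hs.1, hs.2]
  have hd := fun s : ℝ => fun hs' : s ∈ Set.uIcc 0 t => Tube_der z 1 s
    (by rw [hre]; linarith [(hs s hs').1]) (by rw [hre]; linarith [(hs s hs').2])
  have h := Tube_taylor' (fun s : ℝ => (ff (z + s * 1)).re)
    (fun s : ℝ => (hh (z + s * 1) * 1).re) _ t (-2)
    (fun s hs => (hd s hs).1) (fun s hs => (hd s hs).2) (fun s hs' => by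
      rw [mul_one, mul_one, Tube_cot_re', hre, him]
      obtain ⟨k1, k2⟩ := hs s hs'
      exact Horiz_second (z.re + s) z.im k1 k2 h4)
  simp only [mul_one, ofReal_zero, add_zero] at h
  linarith

end Pool.Agent.H63.VC6
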