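import Pool.Agent.H63.VC4.ConcN
import Pool.Agent.H63.VC6.Defs
import Pool.Agent.H63.VC6.Horiz

/-! # The potential function of one slot -/

namespace Pool.Agent.H63.VC6

open Pool.Agent.H63.VC hiding ext
open Pool.Agent.H63.VC3 Pool.Agent.H63.VC4 Complex
open scoped BigOperators

theorem SlotU_cot_le (u : ℝ) (h0 : 45 / 1000 ≤ u) (h1 : u ≤ 455 / 1000) :
    Real.cos (Real.pi * u) / Real.sin (Real.pi * u) ≤ 71 / 10 := by
  have hpi := Real.pi_gt_d2
  have hpi' := Real.pi_lt_d2
  have hz0 : 0 < Real.pi * u := by positivity
  have hz1 : Real.pi * u < Real.pi / 2 := by linarith only [hpi', hpi, h1,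
                                               mul_nonneg (sub_nonneg.2 h0) (sub_nonneg.2 hpi'.le)]
  have hc : 0 < Real.cos (Real.pi * u) :=
    Real.cos_pos_of_mem_Ioo ⟨by linarith only [hz0, hpi', hpi], hz1⟩
  have hs : 0 < Real.sin (Real.pi * u) :=
    Real.sin_pos_of_pos_of_lt_pi hz0 (by linarith only [hz1, hpi', hpi])
  have ht := Real.lt_tan hz0 hz1
  rw [Real.tan_eq_sin_div_cos, lt_div_iff₀ hc] at ht
  rw [div_le_iff₀ hs]
  have h2 : 1413 / 10000 ≤ Real.pi * u := by (refine le_of_not_gt fun hng => ?_; linarith only [hpi,
                                               h0,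
                                               mul_nonneg (sub_nonneg.2 h0) (sub_nonneg.2 hpi.le),
                                               mul_pos (sub_pos.2 hng) (sub_pos.2 hz0),
                                               mul_pos (sub_pos.2 hng) (sub_pos.2 hng)])
  (refine le_of_not_gt fun hng => ?_; linarith only [hng, ht, hs,
    mul_nonneg (sub_nonneg.2 hs.le) (sub_nonneg.2 h2),
    mul_nonneg (sub_nonneg.2 hng.le) (sub_nonneg.2 h2)])

/-- Horizontal displacement. -/
theorem slot_horiz (y v : ℂ) (x a : ℝ) (hy : yloc y) (hv : vloc v)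
    (hx : |x - 1 / 4| ≤ 55 / 1000) (ha : |a| ≤ 15 / 100) :
    (2 * ff ((x : ℂ) + y.im * I + 1 / 2)).re + (po (some ((x : ℂ) + y.im * I)) (a + v.im * I)).re ≤
      (2 * ff (y + 1 / 2)).re + (po (some y) v).re + (a - v.re) * (dpo (some y) v).re +
        kap y v * (x - y.re) - 2 * (x - y.re) ^ 2 := by
  obtain ⟨hy1, hy2⟩ := hy
  obtain ⟨hv1, hv2, hv3⟩ := hv
  have c1 := ConcN_slot y v x a hy1 hy2 hv1 hv3 hv2 hx ha
  obtain ⟨l1a, l1b⟩ := abs_le.1 hy1
  obtain ⟨l2a, l2b⟩ := abs_le.1 hy2
  obtain ⟨hxa, hxb⟩ := abs_le.1 hx
  have er : (y + 1 / 2).re = y.re + 1 / 2 := by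
    rw [add_re]; norm_num
  have ei : (y + 1 / 2).im = y.im := by
    rw [add_im]; norm_num
  have c2 := ff_horiz_vertex (y + 1 / 2) (x - y.re) (by rw [er]; linarith only [l1a]) (by rw [er]; linarith only [l1b,
                                                                                                     hv3,
                                                                                                     hv2])
    (by rw [er]; linarith only [hxa]) (by rw [er]; linarith only [hxb, hv3, hv2])
    (by rw [ei, abs_le]; constructor <;> linarith only [hv2, l2a, l2b])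
  have ey : y = (y.re : ℂ) + y.im * I := (re_add_im y).symm
  have e1 : y + 1 / 2 + ((x - y.re : ℝ) : ℂ) = (x : ℂ) + y.im * I + 1 / 2 := by
    push_cast
    linear_combination ey
  rw [e1] at c2
  have e2 : ∀ w : ℂ, (2 * w).re = 2 * w.re := fun w => by simp
  have hk : kap y v = 2 * (hh (y + 1 / 2)).re - (hh (y - v) + hh (y + v)).re := by
    unfold kap
    rw [sub_re, sub_re, e2, add_re]
    ring
  rw [hk, e2, e2]
  have hsq : 0 ≤ (a - v.re) ^ 2 := sq_nonneg _
  linarith only [hsq, c2, c1]

/-- Vertical displacement. -/
theorem slot_vert (x a Y η η' : ℝ) (hx : |x - 1 / 4| ≤ 55 / 1000) (ha : |a| ≤ 15 / 100) :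
    (2 * ff ((x : ℂ) + η' * I + 1 / 2)).re + (po (some ((x : ℂ) + η' * I)) (a + Y * I)).re ≤
      (2 * ff ((x : ℂ) + η * I + 1 / 2)).re + (po (some ((x : ℂ) + η * I)) (a + Y * I)).re +
        277 / 10 * η' ^ 2 + 224 / 10 * Y ^ 2 := by
  obtain ⟨hx1, hx2⟩ := abs_le.mp hx
  obtain ⟨ha1, ha2⟩ := abs_le.mp ha
  have hpi := Real.pi_gt_d2
  have hpi' := Real.pi_lt_d2
  have e1 : ∀ η : ℝ, ((x : ℂ) + η * I) - (a + Y * I) =
      ((x - a : ℝ) : ℂ) + ((η - Y : ℝ) : ℂ) * I := by
    intro η; push_cast; ring
  have e2 : ∀ η : ℝ, ((x : ℂ) + η * I) + (a + Y * I) =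
      ((x + a : ℝ) : ℂ) + ((η + Y : ℝ) : ℂ) * I := by
    intro η; push_cast; ring
  have hpo : ∀ η : ℝ, (po (some ((x : ℂ) + η * I)) (a + Y * I)).re =
      -(ff (((x - a : ℝ) : ℂ) + ((η - Y : ℝ) : ℂ) * I)).re -
        (ff (((x + a : ℝ) : ℂ) + ((η + Y : ℝ) : ℂ) * I)).re := by
    intro η
    have h : po (some ((x : ℂ) + η * I)) (a + Y * I) =
      -ff (((x : ℂ) + η * I) - (a + Y * I)) - ff (((x : ℂ) + η * I) + (a + Y * I)) := rfl
    rw [h, e1, e2, sub_re, neg_re]
  have e3 : ∀ η : ℝ, (2 * ff ((x : ℂ) + η * I + 1 / 2)).re =
      2 * (ff (((x + 1 / 2 : ℝ) : ℂ) + (η : ℂ) * I)).re := by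
    intro η
    have h : ((x + 1 / 2 : ℝ) : ℂ) + (η : ℂ) * I = (x + η * I) + 1 / 2 := by push_cast; ring
    rw [h]
    simp
  rw [hpo, hpo, e3, e3]
  have f1 := (ff_vert_left (x - a) (η' - Y) (by linarith only [ha2, hx1]) (by linarith only [ha1,
                                                                                hx2])).1
  have f2 := (ff_vert_left (x + a) (η' + Y) (by linarith only [ha1, hx1]) (by linarith only [ha2,
                                                                                hx2])).1
  have f1' := (ff_vert_left (x - a) (η - Y) (by linarith only [ha2, hx1]) (by linarith only [ha1,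
                                                                                hx2])).2
  have f2' := (ff_vert_left (x + a) (η + Y) (by linarith only [ha1, hx1]) (by linarith only [ha2,
                                                                                hx2])).2
  have c1 := SlotU_cot_le (x - a) (by linarith only [ha2, hx1]) (by linarith only [ha1, hx2])
  have c2 := SlotU_cot_le (x + a) (by linarith only [ha1, hx1]) (by linarith only [ha2, hx2])
  have f := (ff_vert_right (x + 1 / 2) η' (by linarith only [hx1]) (by linarith only [hx2])).2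
  have f' := (ff_vert_right (x + 1 / 2) η (by linarith only [hx1]) (by linarith only [hx2])).1
  have cg := cot_ge (x - 1 / 4) (by rw [abs_lt]; constructor <;> linarith only [hx1, hx2])
  rw [show (1 : ℝ) / 4 + (x - 1 / 4) = x by ring] at cg
  have hs : 0 < Real.sin (Real.pi * x) :=
    Real.sin_pos_of_pos_of_lt_pi (by linarith only [hpi, hx1,
                                       mul_nonneg (sub_nonneg.2 hx1) (sub_nonneg.2 hpi.le)]) (by linarith only [hpi,
                                                                                                   hx2,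
                                                                                                   mul_nonneg (sub_nonneg.2 hx2) (sub_nonneg.2 hpi.le)])
  have hcs : 0 < Real.cos (Real.pi * x) :=
    Real.cos_pos_of_mem_Ioo ⟨by linarith only [hpi, hx1,
                                  mul_nonneg (sub_nonneg.2 hx1) (sub_nonneg.2 hpi.le)], by linarith only [hpi,
                                                                                             hx2,
                                                                                             mul_nonneg (sub_nonneg.2 hx2) (sub_nonneg.2 hpi.le)]⟩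
  have hc6 : 6 / 10 ≤ Real.cos (Real.pi * x) / Real.sin (Real.pi * x) := by (refine le_of_not_gt fun hng => ?_; linarith only [cg,
                                                                              hpi', hpi, hx2,
                                                                              mul_nonneg (sub_nonneg.2 hx2) (sub_nonneg.2 hpi.le),
                                                                              mul_pos (sub_pos.2 hng) (sub_pos.2 hpi'),
                                                                              mul_pos (sub_pos.2 hng) (sub_pos.2 hpi)])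
  have ht : -(Real.cos (Real.pi * (x + 1 / 2)) / Real.sin (Real.pi * (x + 1 / 2))) ≤ 5 / 3 := by
    rw [show Real.pi * (x + 1 / 2) = Real.pi * x + Real.pi / 2 by ring, Real.cos_add_pi_div_two,
      Real.sin_add_pi_div_two, neg_div, neg_neg, div_le_iff₀ hcs]
    rw [le_div_iff₀ hs] at hc6
    linarith only [hc6]
  set d1 := Real.cos (Real.pi * (x - a)) / Real.sin (Real.pi * (x - a))
  set d2 := Real.cos (Real.pi * (x + a)) / Real.sin (Real.pi * (x + a))
  set d3 := Real.cos (Real.pi * (x + 1 / 2)) / Real.sin (Real.pi * (x + 1 / 2))
  have g1 : Real.pi / 2 * d1 * (η' - Y) ^ 2 ≤ 315 / 200 * (71 / 10) * (η' - Y) ^ 2 := by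
    have : Real.pi / 2 * d1 ≤ 315 / 200 * (71 / 10) := by (refine le_of_not_gt fun hng => ?_; linarith only [c1,
                                                            hpi',
                                                            mul_nonneg (sub_nonneg.2 hpi.le) (sub_nonneg.2 c1),
                                                            mul_pos (sub_pos.2 hng) (sub_pos.2 hpi'),
                                                            mul_pos (sub_pos.2 hng) (sub_pos.2 hpi)])
    exact mul_le_mul_of_nonneg_right this (sq_nonneg _)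
  have g2 : Real.pi / 2 * d2 * (η' + Y) ^ 2 ≤ 315 / 200 * (71 / 10) * (η' + Y) ^ 2 := by
    have : Real.pi / 2 * d2 ≤ 315 / 200 * (71 / 10) := by (refine le_of_not_gt fun hng => ?_; linarith only [c2,
                                                            hpi',
                                                            mul_nonneg (sub_nonneg.2 hpi.le) (sub_nonneg.2 c2),
                                                            mul_pos (sub_pos.2 hng) (sub_pos.2 hpi'),
                                                            mul_pos (sub_pos.2 hng) (sub_pos.2 hpi)])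
    exact mul_le_mul_of_nonneg_right this (sq_nonneg _)
  have g : -(Real.pi / 2 * d3 * η' ^ 2) ≤ 315 / 200 * (5 / 3) * η' ^ 2 := by
    have : -(Real.pi / 2 * d3) ≤ 315 / 200 * (5 / 3) := by (refine le_of_not_gt fun hng => ?_; linarith only [ht,
                                                             hpi',
                                                             mul_nonneg (sub_nonneg.2 hpi.le) (sub_nonneg.2 ht),
                                                             mul_pos (sub_pos.2 hng) (sub_pos.2 hpi'),
                                                             mul_pos (sub_pos.2 hng) (sub_pos.2 hpi)])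
    have := mul_le_mul_of_nonneg_right this (sq_nonneg η')
    linarith only [this]
  linarith only [sq_nonneg Y, sq_nonneg η', g, g2, g1, f, f2, f1, f', f2', f1']

/-- The excess of a slot, for each kind of points. -/
noncomputable def exc (σ : Fin 3) : ℝ := if σ = 0 then 0 else if σ = 1 then -(15 / 10000) else 3 / 1000

/-- A slot of an interior vertex. -/
theorem slot_int (y v z : ℂ) (a y1 y2 : ℝ) (σ : Fin 3) (hy : yloc y) (hv : vloc v)
    (h1 : 1 / 4 - 55 / 1000 ≤ y1) (h1' : y1 ≤ 1 / 4 - 54 / 1000) (h2 : 1 / 4 + 54 / 1000 ≤ y2)
    (h2' : y2 ≤ 1 / 4 + 55 / 1000) (ha : |a| ≤ 15 / 100) (hz : Stt y1 y2 (1 / 100) y.im σ z) :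
    (2 * ff (z + 1 / 2)).re + (po (some z) (a + v.im * I)).re ≤
      (2 * ff (y + 1 / 2)).re + (po (some y) v).re + (a - v.re) * (dpo (some y) v).re +
        kap y v * (z.re - y.re) + exc σ := by
  obtain ⟨hz1, hz2, hz3, s0, s1, s2⟩ := hz
  have hx : |z.re - 1 / 4| ≤ 55 / 1000 := by rw [abs_le]; constructor <;> linarith
  have hh1 := slot_horiz y v z.re a hy hv hx ha
  have hv1 := slot_vert z.re a v.im y.im z.im hx ha
  rw [re_add_im] at hv1
  obtain ⟨hy1, hy2⟩ := hy
  obtain ⟨hvv1, hvv2, hvv3⟩ := hv
  obtain ⟨l1a, l1b⟩ := abs_le.1 hy1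
  have hsq : 0 ≤ (z.re - y.re) ^ 2 := sq_nonneg _
  have hzi : z.im ^ 2 ≤ 1 / 10000 := by
    have h := abs_le.1 hz3
    linarith only [mul_nonneg (sub_nonneg.2 h.1) (sub_nonneg.2 h.2)]
  have hvi : v.im ^ 2 ≤ 9 / 1000000 := by (refine le_of_not_gt fun hng => ?_; linarith only [mul_nonneg (sub_nonneg.2 hvv2.le) (sub_nonneg.2 hvv3),
                                            mul_pos (sub_pos.2 hng) (sub_pos.2 hvv2),
                                            mul_nonneg (sq_nonneg (1 * v.im)) (sub_nonneg.2 hvv3)])
  have hcase : σ = 0 ∨ σ = 1 ∨ σ = 2 := by fin_cases σ <;> simp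
  rcases hcase with h | h | h
  · have e0 : exc σ = 0 := by rw [h]; simp [exc]
    have e1 : (z.re : ℂ) + y.im * I = z := by
      rw [← s0 h]; exact re_add_im z
    rw [e1] at hh1
    rw [e0]
    linarith only [hsq, hh1]
  · have e0 : exc σ = -(15 / 10000) := by rw [h]; simp [exc]
    have hd : (48 / 1000) ^ 2 ≤ (z.re - y.re) ^ 2 := by
      rcases s1 h with h' | h'
      · rw [h']; linarith only [l1a, h1', mul_nonneg (sub_nonneg.2 l1a) (sub_nonneg.2 l1a),
                   mul_nonneg (sub_nonneg.2 h1') (sub_nonneg.2 l1a),
                   mul_nonneg (sub_nonneg.2 h1') (sub_nonneg.2 h1')]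
      · rw [h']; linarith only [l1b, h2, mul_nonneg (sub_nonneg.2 l1b) (sub_nonneg.2 l1b),
                   mul_nonneg (sub_nonneg.2 h2) (sub_nonneg.2 l1b),
                   mul_nonneg (sub_nonneg.2 h2) (sub_nonneg.2 h2)]
    rw [e0]
    linarith only [hd, hvi, hzi, hv1, hh1]
  · have e0 : exc σ = 3 / 1000 := by rw [h]; simp [exc]
    rw [e0]
    linarith only [hvi, hzi, hsq, hv1, hh1]

/-- A slot of a vertex at the boundary. -/
theorem slot_bd (y v : ℂ) (x a : ℝ) (hy : yloc y) (hv : vloc v) (hk : |kap y v| ≤ 72 / 1000)
    (hx : |x - 1 / 4| ≤ 55 / 1000) (ha : |a| ≤ 15 / 100) :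
    (2 * ff ((x : ℂ) + 1 / 2)).re + (po (some (x : ℂ)) (a + v.im * I)).re ≤
      (2 * ff (y + 1 / 2)).re + (po (some y) v).re + (a - v.re) * (dpo (some y) v).re +
        1 / 1000 := by
  have hh1 := slot_horiz y v x a hy hv hx ha
  have hv1 := slot_vert x a v.im y.im 0 hx ha
  rw [ofReal_zero, zero_mul, add_zero] at hv1
  obtain ⟨hvv1, hvv2, hvv3⟩ := hv
  have hvi : v.im ^ 2 ≤ 9 / 1000000 := by (refine le_of_not_gt fun hng => ?_; linarith only [mul_nonneg (sub_nonneg.2 hvv2.le) (sub_nonneg.2 hvv3),
                                            mul_pos (sub_pos.2 hng) (sub_pos.2 hvv2),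
                                            mul_nonneg (sq_nonneg (1 * v.im)) (sub_nonneg.2 hvv3)])
  obtain ⟨k1, k2⟩ := abs_le.1 hk
  have hk2 : kap y v ^ 2 ≤ (72 / 1000) ^ 2 := by linarith only [mul_nonneg (sub_nonneg.2 k1) (sub_nonneg.2 k2)]
  have hm : kap y v * (x - y.re) - 2 * (x - y.re) ^ 2 ≤ kap y v ^ 2 / 8 := by
    linarith only [sq_nonneg (kap y v - 4 * (x - y.re))]
  linarith only [hm, hk2, hvi, hvv3, hvv2, hv1, hh1]

end Pool.Agent.H63.VC6
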