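import Mathlib

/-! # Logarithms of a sequence with an exponential asymptotics -/

namespace Pool.Agent.H63.VC6

open Complex Filter Topology

/-- If `J N ~ κ (N + a) ^ e exp ((N + a) W / 2 π)`, then there are logarithms `L N` of `J N` with
`2 π L N / (N + 1) → W`. -/
theorem log_lift (J : ℕ → ℂ) (a : ℕ) (ha : 1 ≤ a) (e : ℝ) (W κ : ℂ) (hκ : κ ≠ 0)
    (h : Tendsto (fun N : ℕ => J N / ((((N : ℝ) + a) ^ e : ℝ) *
      exp ((N + a) * W / (2 * Real.pi)))) atTop (𝓝 κ)) :
    ∃ L : ℕ → ℂ, (∀ᶠ N in atTop, exp (L N) = J N) ∧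
      Tendsto (fun N : ℕ => 2 * (Real.pi : ℂ) * L N / (N + 1)) atTop (𝓝 W) := by
  set q : ℕ → ℂ := fun N => J N / ((((N : ℝ) + a) ^ e : ℝ) * exp ((N + a) * W / (2 * Real.pi)))
    with hq
  have hπ : (Real.pi : ℂ) ≠ 0 := by exact_mod_cast Real.pi_ne_zero
  have hpos : ∀ N : ℕ, (0 : ℝ) < (N : ℝ) + a := fun N => by
    have : (1 : ℝ) ≤ a := by exact_mod_cast ha
    positivity
  have hpow : ∀ N : ℕ, (0 : ℝ) < ((N : ℝ) + a) ^ e := fun N => Real.rpow_pos_of_pos (hpos N) _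
  have h1 : Tendsto (fun N => q N / κ) atTop (𝓝 1) := by
    have := h.div_const κ
    rwa [div_self hκ] at this
  refine ⟨fun N => log (q N / κ) + log κ + e * Real.log ((N : ℝ) + a) +
    (N + a) * W / (2 * Real.pi), ?_, ?_⟩
  · have hne : ∀ᶠ N in atTop, q N / κ ≠ 0 := h1.eventually_ne one_ne_zero
    filter_upwards [hne] with N hN
    rw [exp_add, exp_add, exp_add, exp_log hN, exp_log hκ, div_mul_cancel₀ _ hκ]
    have h2 : exp ((e : ℂ) * (Real.log ((N : ℝ) + a) : ℝ)) = ((((N : ℝ) + a) ^ e : ℝ) : ℂ) := by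
      rw [← ofReal_mul, ← ofReal_exp, Real.rpow_def_of_pos (hpos N)]
      congr 2
      ring
    rw [h2]
    show J N / _ * _ * _ = J N
    have h3 : ((((N : ℝ) + a) ^ e : ℝ) : ℂ) ≠ 0 := by exact_mod_cast (hpow N).ne'
    have h4 := exp_ne_zero ((N + a) * W / (2 * Real.pi))
    field_simp
  · have hN1 : Tendsto (fun N : ℕ => 1 / ((N : ℝ) + 1)) atTop (𝓝 0) :=
      tendsto_one_div_add_atTop_nhds_zero_nat
    have hN1c : Tendsto (fun N : ℕ => 1 / ((N : ℂ) + 1)) atTop (𝓝 0) := by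
      have := (continuous_ofReal.tendsto (0 : ℝ)).comp hN1
      simp only [ofReal_zero] at this
      refine this.congr fun N => ?_
      simp
    have t1 : Tendsto (fun N : ℕ => 2 * (Real.pi : ℂ) * (log (q N / κ) + log κ) *
        (1 / ((N : ℂ) + 1))) atTop (𝓝 (2 * (Real.pi : ℂ) * (log 1 + log κ) * 0)) := by
      refine Tendsto.mul (Tendsto.const_mul _ (Tendsto.add_const _ ?_)) hN1c
      exact (continuousAt_clog (by simp)).tendsto.comp h1
    have t2 : Tendsto (fun N : ℕ => Real.log ((N : ℝ) + a) / ((N : ℝ) + 1)) atTop (𝓝 0) := by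
      have u1 : Tendsto (fun x : ℝ => Real.log x / (1 * x + (1 - a))) atTop (𝓝 0) := by
        simpa using Real.tendsto_pow_log_div_mul_add_atTop 1 (1 - (a : ℝ)) 1 one_ne_zero
      have u2 : Tendsto (fun N : ℕ => (N : ℝ) + a) atTop atTop :=
        tendsto_atTop_add_const_right _ _ tendsto_natCast_atTop_atTop
      refine (u1.comp u2).congr fun N => ?_
      simp only [Function.comp]
      congr 1
      ring
    have t2c : Tendsto (fun N : ℕ => 2 * (Real.pi : ℂ) * e *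
        ((Real.log ((N : ℝ) + a) / ((N : ℝ) + 1) : ℝ) : ℂ)) atTop
        (𝓝 (2 * (Real.pi : ℂ) * e * ((0 : ℝ) : ℂ))) :=
      Tendsto.const_mul _ ((continuous_ofReal.tendsto (0 : ℝ)).comp t2)
    have t3 : Tendsto (fun N : ℕ => W + W * (a - 1) * (1 / ((N : ℂ) + 1))) atTop
        (𝓝 (W + W * (a - 1) * 0)) := Tendsto.const_add _ (Tendsto.const_mul _ hN1c)
    have t := (t1.add t2c).add t3
    simp only [mul_zero, ofReal_zero, add_zero, zero_add] at t
    refine t.congr fun N => ?_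
    have hN : ((N : ℂ) + 1) ≠ 0 := by exact_mod_cast Nat.succ_ne_zero N
    push_cast
    field_simp
    ring

end Pool.Agent.H63.VC6
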