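import Pool.Agent.H63.VC6.Defs
import Pool.Agent.H63.VC4.CritNB

/-! # Existence of the critical point -/

namespace Pool.Agent.H63.VC6

open Pool.Agent.H63.VC hiding ext
open Pool.Agent.H63.VC4 Pool.Agent.H63.VC3 Complex
open scoped BigOperators

theorem critU_contraction {m : ℕ} (hm : 1 ≤ m) (r : Fin (m + 1) → ℤ)
    (hr : ∀ i, 10 * nA m i ≤ |(r i : ℝ)|) :
    ∃ (y : Fin m → ℂ) (v : Fin (m + 1) → ℂ),
    (∀ j : Fin m, 4 * hh (y j + 1 / 2) =
      hh (y j - v j.castSucc) + hh (y j + v j.castSucc) + hh (y j - v j.succ) +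
        hh (y j + v j.succ)) ∧
    (∀ i, 2 * Real.pi * I * (2 * r i * v i + 1) + dpo (ext y i.castSucc) (v i) +
      dpo (ext y i.succ) (v i) = 0) ∧
    (∀ j, ‖y j - 1 / 4‖ ≤ 16 / 1000) ∧
    (∀ i, ‖v i + 1 / (2 * r i)‖ ≤ nA m i / (2 * (r i : ℝ) ^ 2)) := by
  have hmaps := CritNA_maps hm r hr
  have hlip := CritNA_lip hm r hr
  have hcontr : ContractingWith (7 / 10) (hmaps.restrict (CritNA_Phi r) _ _) := by
    refine ⟨?_, hlip.mapsToRestrict hmaps⟩
    rw [div_lt_one (by norm_num)]; norm_num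
  have hmem : ((fun _ => (1 / 4 : ℂ)), fun i => -(1 / (2 * (r i : ℂ)))) ∈ CritNA_dom r := by
    refine ⟨fun j => ?_, fun i => ?_⟩
    · norm_num
    · show ‖-(1 / (2 * (r i : ℂ))) + 1 / (2 * r i)‖ ≤ _
      rw [neg_add_cancel, norm_zero]
      have := nA_nonneg m i
      positivity
  obtain ⟨p, hp, hfix, -⟩ := hcontr.exists_fixedPoint' (CritNA_closed r).isComplete hmaps hmem
    (edist_ne_top _ _)
  obtain ⟨y, v⟩ := p
  obtain ⟨hy, hv⟩ := hp
  have hr1 : ∀ i, (r i : ℂ) ≠ 0 := by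
    intro i h
    have h0 : r i = 0 := by exact_mod_cast h
    have h1 := hr i
    have h2 := nA_pos m hm i
    rw [h0] at h1
    norm_num at h1
    linarith
  have hpi : (Real.pi : ℂ) ≠ 0 := by exact_mod_cast Real.pi_ne_zero
  have hI := Complex.I_ne_zero
  have e1 : ∀ j, CritA_A (y j) + (CritA_G (y j) (v j.castSucc) + CritA_G (y j) (v j.succ)) /
      (8 * Real.pi) = y j := fun j => congrFun (congrArg Prod.fst hfix) j
  have e2 : ∀ i, -(1 / (2 * (r i : ℂ))) - (dpo (ext y i.castSucc) (v i) +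
      dpo (ext y i.succ) (v i)) / (4 * Real.pi * I * r i) = v i :=
    fun i => congrFun (congrArg Prod.snd hfix) i
  refine ⟨y, v, fun j => ?_, fun i => ?_, hy, hv⟩
  · have e := e1 j
    unfold CritA_A CritA_G at e
    generalize hh (y j + 1 / 2) = H at e ⊢
    field_simp at e
    linear_combination (1 / 2 : ℂ) * e
  · have e := e2 i
    have hri := hr1 i
    generalize dpo (ext y i.castSucc) (v i) = A at e ⊢
    generalize dpo (ext y i.succ) (v i) = B at e ⊢
    field_simp at e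
    linear_combination (-1 / 2 : ℂ) * e

theorem critU_exists {m : ℕ} (hm : 1 ≤ m) (r : Fin (m + 1) → ℤ)
    (hr : ∀ i, 10 * nA m i ≤ |(r i : ℝ)|) :
    ∃ (y : Fin m → ℂ) (v : Fin (m + 1) → ℂ), CritU r y v := by
  obtain ⟨y, v, ey, ev, hy, hv⟩ := critU_contraction hm r hr
  have hsm := fun i => CritNB_v_small (nA_pos m hm i) (hr i) (hv i)
  have hbd : ∀ j : Fin m, ‖y j - 1 / 4‖ ≤
      3 / 10 * (1 / (r j.castSucc : ℝ) ^ 2 + 1 / (r j.succ : ℝ) ^ 2) := fun j =>
    CritNB_y (ey j) (hy j) (hsm _).1 (hsm _).1 (hsm _).2 (hsm _).2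
  have hss : ∀ j : Fin m, 1 / (r j.castSucc : ℝ) ^ 2 + 1 / (r j.succ : ℝ) ^ 2 ≤ 1 / 50 := by
    have h1 : ∀ i : Fin (m + 1), 1 / (r i : ℝ) ^ 2 ≤ 1 / 100 := by
      intro i
      have h2 := hr i
      have h3 := nA_pos m hm i
      have h4 : (10 : ℝ) ≤ |(r i : ℝ)| := by linarith
      have h5 : (100 : ℝ) ≤ (r i : ℝ) ^ 2 := by
        rw [← sq_abs]; nlinarith
      exact one_div_le_one_div_of_le (by norm_num) h5
    intro j
    have h6 := h1 j.castSucc
    have h7 := h1 j.succ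
    linarith
  have hy1 : ∀ j, ‖y j - 1 / 4‖ ≤ 1 / 100 := fun j => (hbd j).trans (by linarith [hss j])
  have hext : ∀ i : Fin (m + 2), ∀ z, ext y i = some z → ‖z - 1 / 4‖ ≤ 1 / 100 := by
    intro i z hz
    have key : ∀ i : Fin (m + 2), ext y i = none ∨ ∃ j, ext y i = some (y j) := by
      intro i
      refine Fin.cases (Or.inl (ext_zero y)) (fun i => ?_) i
      refine Fin.lastCases (Or.inl (ext_last_succ y)) (fun i => ?_) i
      exact Or.inr ⟨i, ext_mid y i⟩
    rcases key i with h | ⟨j, h⟩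
    · rw [h] at hz; cases hz
    · rw [h] at hz
      cases hz
      exact hy1 j
  have hvv : ∀ i, ‖v i + 1 / (2 * r i)‖ ≤ 3 / 10 * nA m i / (r i : ℝ) ^ 2 ∧ 0 < (v i).im ∧
      |(v i).re| < 2 / (4 * |(r i : ℝ)| - 1) := by
    intro i
    obtain ⟨F, hF1, hF2⟩ := CritNB_slot (ext y i.castSucc) (hext _) (hsm i).1
    obtain ⟨F', hF1', hF2'⟩ := CritNB_slot (ext y i.succ) (hext _) (hsm i).1
    have hns := ns_ext y i
    refine CritNB_v (r i) (D := dpo (ext y i.castSucc) (v i) + dpo (ext y i.succ) (v i))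
      (F := F + F') (nA_pos m hm i) (nA_le m i) (hr i) ?_ ?_ ?_
    · rw [← hns, ofReal_add]
      have e : F + F' - ((ns (ext y i.castSucc) : ℂ) + (ns (ext y i.succ) : ℂ)) * Real.pi =
        (F - ns (ext y i.castSucc) * Real.pi) + (F' - ns (ext y i.succ) * Real.pi) := by ring
      rw [e]
      refine (norm_add_le _ _).trans ?_
      linarith
    · rw [← hns]
      have e : dpo (ext y i.castSucc) (v i) + dpo (ext y i.succ) (v i) + 2 * v i * (F + F') =
        (dpo (ext y i.castSucc) (v i) + 2 * v i * F) +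
          (dpo (ext y i.succ) (v i) + 2 * v i * F') := by ring
      rw [e]
      refine (norm_add_le _ _).trans ?_
      linarith
    · rw [← ev i]; ring
  exact ⟨y, v, ⟨hm, hr, ey, ev, hbd, fun i => (hvv i).1, fun i => (hvv i).2.1,
    fun i => (hvv i).2.2⟩⟩

end Pool.Agent.H63.VC6
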