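import Pool.Agent.H63.VC6.Defs
import Pool.Agent.H63.VC4.GeoDefs
import Pool.Agent.H63.VC3.Clausen

/-! # The twist regions at the critical point -/

namespace Pool.Agent.H63.VC6

open Pool.Agent.H63.VC hiding ext
open Pool.Agent.H63.VC4 Pool.Agent.H63.VC3 Complex
open scoped BigOperators

theorem RegCrit_mem {α : Type*} {m : ℕ} (f : Fin m → α) (k : Fin (m + 2)) (a : α)
    (h : ext f k = some a) : ∃ j, a = f j := by
  revert h
  refine Fin.cases ?_ (fun k => ?_) k
  · intro h; simp [ext_zero] at h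
  · refine Fin.lastCases ?_ (fun k => ?_) k
    · intro h; rw [ext_last_succ] at h; simp at h
    · intro h; rw [ext_mid] at h; exact ⟨k, (Option.some.inj h).symm⟩

theorem RegCrit_bdy {m : ℕ} (r : Fin (m + 1) → ℤ) (y : Fin m → ℂ) (v : Fin (m + 1) → ℂ)
    (hc : CritU r y v) (j : Fin m) : ‖y j - 1 / 4‖ ≤ 6 / 1000 := by
  have h := hc.bdy j
  have h1 : ∀ i : Fin (m + 1), 1 / (r i : ℝ) ^ 2 ≤ 1 / 100 := by
    intro i
    have h2 := hc.hr i
    have h3 := nA_pos m hc.hm i
    have h4 : (10 : ℝ) ≤ |(r i : ℝ)| := by linarith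
    have h5 : (100 : ℝ) ≤ (r i : ℝ) ^ 2 := by
      rw [← sq_abs]; nlinarith
    exact one_div_le_one_div_of_le (by norm_num) h5
  have h6 := h1 j.castSucc
  have h7 := h1 j.succ
  linarith

theorem RegCrit_slot {m : ℕ} (r : Fin (m + 1) → ℤ) (y : Fin m → ℂ) (v : Fin (m + 1) → ℂ)
    (hc : CritU r y v) (k : Fin (m + 2)) (s : ℤ) :
    ∀ z ∈ (ext y k).map (sty s), ‖z - 1 / 4‖ ≤ 6 / 1000 := by
  intro z hz
  rw [Option.mem_def, Option.map_eq_some_iff] at hz
  obtain ⟨a, ha, rfl⟩ := hz
  obtain ⟨j, rfl⟩ := RegCrit_mem y k a ha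
  have h := RegCrit_bdy r y v hc j
  unfold sty
  split_ifs with hs
  · exact h
  · have e : (starRingEnd ℂ) (y j) - 1 / 4 = (starRingEnd ℂ) (y j - 1 / 4) := by
      have h4 : (starRingEnd ℂ) (4 : ℂ) = 4 := Complex.conj_ofNat 4
      rw [map_sub, map_div₀, map_one, h4]
    rw [e, RCLike.norm_conj]
    exact h

/-- The critical equations in terms of the angles. -/
theorem RegCrit_bet (s : ℤ) (v : ℂ) (hv : |v.re| < 1 / 10) (o : Option ℂ)
    (ho : ∀ z ∈ o, ‖z - 1 / 4‖ ≤ 6 / 1000) :
    bet (stw s v) (o.map (sty s)) =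
      if s < 0 then I * dpo o v else -I * (starRingEnd ℂ) (dpo o v) := by
  cases o with
  | none => simp [bet, dpo]
  | some z =>
    have hz := ho z rfl
    have h1 : |(z - 1 / 4).re| ≤ 6 / 1000 := le_trans (abs_re_le_norm _) hz
    have h2 : (z - 1 / 4).re = z.re - 1 / 4 := by
      simp
    rw [h2, abs_le] at h1
    rw [abs_lt] at hv
    simp only [Option.map_some, bet, dpo]
    unfold stw sty
    split_ifs with hs
    · ring
    · have e1 : hh ((starRingEnd ℂ) z + -(starRingEnd ℂ) v) = (starRingEnd ℂ) (hh (z - v)) := by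
        rw [← hh_conj (z - v) (by rw [sub_re]; linarith) (by rw [sub_re]; linarith), map_sub]
        ring_nf
      have e2 : hh ((starRingEnd ℂ) z - -(starRingEnd ℂ) v) = (starRingEnd ℂ) (hh (z + v)) := by
        rw [← hh_conj (z + v) (by rw [add_re]; linarith) (by rw [add_re]; linarith), map_add]
        ring_nf
      rw [e1, e2, map_sub]

theorem reg_of_crit {m : ℕ} (r : Fin (m + 1) → ℤ) (y : Fin m → ℂ) (v : Fin (m + 1) → ℂ)
    (hc : CritU r y v) (i : Fin (m + 1)) : Reg (r i).natAbs (stw (r i) (v i))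
      ((ext y i.castSucc).map (sty (r i))) ((ext y i.succ).map (sty (r i))) := by
  have hn1 := nA_pos m hc.hm i
  have hn2 := nA_le m i
  have hr := hc.hr i
  have hpc : (((r i).natAbs : ℕ) : ℝ) = |(r i : ℝ)| := by
    rw [Nat.cast_natAbs, Int.cast_abs]
  have h10 : (10 : ℝ) ≤ |(r i : ℝ)| := by linarith
  have hsum := ns_ext y i
  have hsq : (r i : ℝ) ^ 2 = |(r i : ℝ)| ^ 2 := (sq_abs _).symm
  have hre : |(v i).re| < 1 / 10 := by
    refine lt_of_lt_of_le (hc.rev i) ?_
    rw [div_le_div_iff₀ (by linarith) (by norm_num)]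
    linarith
  have hb := hc.bdv i
  have hb' : ‖v i + 1 / (2 * r i)‖ ≤ 6 / (10 * |(r i : ℝ)| ^ 2) := by
    refine le_trans hb ?_
    rw [hsq, div_le_div_iff₀ (by positivity) (by positivity)]
    have : 0 < |(r i : ℝ)| ^ 2 := by positivity
    nlinarith
  -- the key distance
  have hkey : ‖stw (r i) (v i) - 1 / (2 * (((r i).natAbs : ℕ) : ℂ))‖ ≤
      6 / (10 * |(r i : ℝ)| ^ 2) := by
    have hpc' : (((r i).natAbs : ℕ) : ℂ) = ((|(r i : ℝ)| : ℝ) : ℂ) := by
      rw [← hpc, ofReal_natCast]
    rw [hpc']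
    unfold stw
    split_ifs with hs
    · have : |(r i : ℝ)| = -(r i : ℝ) := abs_of_neg (by exact_mod_cast hs)
      have e : v i - 1 / (2 * ((|(r i : ℝ)| : ℝ) : ℂ)) = v i + 1 / (2 * r i) := by
        rw [this]; push_cast; rw [mul_neg, div_neg]; ring
      rw [e]; exact hb'
    · have : |(r i : ℝ)| = (r i : ℝ) := abs_of_nonneg (by exact_mod_cast not_lt.1 hs)
      have e : -(starRingEnd ℂ) (v i) - 1 / (2 * ((|(r i : ℝ)| : ℝ) : ℂ)) =
          -(starRingEnd ℂ) (v i + 1 / (2 * r i)) := by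
        rw [this, map_add, map_div₀, map_mul, map_one]
        simp only [Complex.conj_ofNat, ofReal_intCast, map_intCast]
        ring
      rw [e, norm_neg, RCLike.norm_conj]; exact hb'
  have hstre : |(stw (r i) (v i)).re| = |(v i).re| := by
    unfold stw
    split_ifs with hs
    · rfl
    · rw [neg_re, conj_re, abs_neg]
  have hposre : 0 < (stw (r i) (v i)).re := by
    have h1 := le_trans (abs_re_le_norm _) hkey
    have h2 : (stw (r i) (v i) - 1 / (2 * (((r i).natAbs : ℕ) : ℂ))).re =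
        (stw (r i) (v i)).re - 1 / (2 * |(r i : ℝ)|) := by
      rw [sub_re]
      congr 1
      rw [← hpc]
      have : (1 / (2 * (((r i).natAbs : ℕ) : ℂ))) =
          ((1 / (2 * (((r i).natAbs : ℕ) : ℝ)) : ℝ) : ℂ) := by push_cast; rfl
      rw [this, ofReal_re]
    rw [h2, abs_le] at h1
    have h3 : 6 / (10 * |(r i : ℝ)| ^ 2) < 1 / (2 * |(r i : ℝ)|) := by
      rw [div_lt_div_iff₀ (by positivity) (by positivity)]
      nlinarith
    linarith [h1.1]
  refine ⟨?_, ?_, ?_, hposre, ?_, ?_, ?_, ?_, ?_, ?_⟩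
  · have : (10 : ℝ) ≤ (((r i).natAbs : ℕ) : ℝ) := by rw [hpc]; exact h10
    exact_mod_cast this
  · intro h1 h2
    have h3 : ns (ext y i.castSucc) = 1 := by
      cases h : ext y i.castSucc with
      | none => simp [h] at h1
      | some a => rfl
    have h4 : ns (ext y i.succ) = 1 := by
      cases h : ext y i.succ with
      | none => simp [h] at h2
      | some a => rfl
    have : (20 : ℝ) ≤ (((r i).natAbs : ℕ) : ℝ) := by rw [hpc]; linarith
    exact_mod_cast this
  · by_contra hcon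
    push Not at hcon
    have h3 : ns (ext y i.castSucc) = 0 := by
      cases h : ext y i.castSucc with
      | none => rfl
      | some a => simp [h] at hcon
    have h4 : ns (ext y i.succ) = 0 := by
      cases h : ext y i.succ with
      | none => rfl
      | some a => simp [h] at hcon
    linarith
  · rw [hpc]
    have := hc.rev i
    rw [← hstre, abs_of_pos hposre] at this
    exact this
  · unfold stw
    split_ifs with hs
    · exact hc.imv i
    · rw [neg_im, conj_im, neg_neg]; exact hc.imv i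
  · rw [hpc]; exact hkey
  · exact RegCrit_slot r y v hc _ _
  · exact RegCrit_slot r y v hc _ _
  · have ho : ∀ k : Fin (m + 2), ∀ z ∈ ext y k, ‖z - 1 / 4‖ ≤ 6 / 1000 := by
      intro k z hz
      obtain ⟨j, rfl⟩ := RegCrit_mem y k z hz
      exact RegCrit_bdy r y v hc j
    rw [RegCrit_bet (r i) (v i) hre _ (ho _), RegCrit_bet (r i) (v i) hre _ (ho _)]
    have hev := hc.ev i
    have hpc' : (((r i).natAbs : ℕ) : ℂ) = ((|(r i : ℝ)| : ℝ) : ℂ) := by
      rw [← hpc, ofReal_natCast]
    rw [hpc']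
    set d1 := dpo (ext y i.castSucc) (v i) with hd1
    set d2 := dpo (ext y i.succ) (v i) with hd2
    unfold stw
    split_ifs with hs
    · have : |(r i : ℝ)| = -(r i : ℝ) := abs_of_neg (by exact_mod_cast hs)
      rw [this]
      push_cast
      have h1 : d1 + d2 = -(2 * Real.pi * I * (2 * r i * v i + 1)) := by linear_combination hev
      have h2 : I * d1 + I * d2 = I * (d1 + d2) := by ring
      rw [add_assoc, h2, h1]
      linear_combination (-2 * Real.pi * (2 * r i * v i + 1)) * I_sq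
    · have : |(r i : ℝ)| = (r i : ℝ) := abs_of_nonneg (by exact_mod_cast not_lt.1 hs)
      rw [this]
      push_cast
      have h1 : (starRingEnd ℂ) d1 + (starRingEnd ℂ) d2 =
          2 * Real.pi * I * (2 * r i * (starRingEnd ℂ) (v i) + 1) := by
        have h := congrArg (starRingEnd ℂ) hev
        simp only [map_add, map_mul, map_one, map_zero, Complex.conj_ofNat, conj_ofReal, conj_I,
          map_intCast] at h
        linear_combination h
      have h2 : -I * (starRingEnd ℂ) d1 + -I * (starRingEnd ℂ) d2 =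
          -I * ((starRingEnd ℂ) d1 + (starRingEnd ℂ) d2) := by ring
      rw [add_assoc, h2, h1]
      linear_combination (-2 * Real.pi * (2 * r i * (starRingEnd ℂ) (v i) + 1)) * I_sq

theorem reg_swap (p : ℕ) (w : ℂ) (yl yr : Option ℂ) (h : Reg p w yl yr) : Reg p w yr yl := by
  refine ⟨h.hp, fun a b => h.hp2 b a, h.hne.symm, h.re_pos, h.re_lt, h.im_pos, h.bd, h.bdr, h.bdl,
    ?_⟩
  have := h.eq
  linear_combination this

end Pool.Agent.H63.VC6
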