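import Pool.Agent.H63.VC3.BWff
import Pool.Agent.H63.VC4.FanSum
import Pool.Agent.H63.VC6.RegCrit
import Pool.Agent.H63.VC6.Vertex

/-! # The critical value is the volume -/

namespace Pool.Agent.H63.VC6

open Pool.Agent.H63.VC hiding ext
open Pool.Agent.H63.VC4 Pool.Agent.H63.VC3 Complex
open scoped BigOperators

theorem VolN_r {m : ℕ} {r : Fin (m + 1) → ℤ} {y : Fin m → ℂ} {v : Fin (m + 1) → ℂ}
    (hc : CritU r y v) (i : Fin (m + 1)) : 10 ≤ |(r i : ℝ)| := by
  have h1 := hc.hr i
  have h2 := nA_pos m hc.hm i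
  linarith

theorem VolN_v {m : ℕ} {r : Fin (m + 1) → ℤ} {y : Fin m → ℂ} {v : Fin (m + 1) → ℂ}
    (hc : CritU r y v) (i : Fin (m + 1)) : |(v i).re| ≤ 6 / 100 := by
  have h1 := VolN_r hc i
  have h2 := hc.rev i
  refine h2.le.trans ?_
  rw [div_le_div_iff₀ (by linarith) (by norm_num)]
  linarith

theorem VolN_y {m : ℕ} {r : Fin (m + 1) → ℤ} {y : Fin m → ℂ} {v : Fin (m + 1) → ℂ}
    (hc : CritU r y v) (j : Fin m) : |(y j).re - 1 / 4| ≤ 1 / 100 := by
  have h1 := VolN_r hc j.castSucc
  have h2 := VolN_r hc j.succ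
  have h3 := hc.bdy j
  have e1 : (1 : ℝ) / (r j.castSucc : ℝ) ^ 2 ≤ 1 / 100 := by
    rw [← sq_abs]
    rw [div_le_div_iff₀ (by positivity) (by norm_num)]
    nlinarith
  have e2 : (1 : ℝ) / (r j.succ : ℝ) ^ 2 ≤ 1 / 100 := by
    rw [← sq_abs]
    rw [div_le_div_iff₀ (by positivity) (by norm_num)]
    nlinarith
  have h5 := (Complex.abs_re_le_norm (y j - 1 / 4)).trans h3
  have e : (y j - 1 / 4).re = (y j).re - 1 / 4 := by
    rw [Complex.sub_re]
    norm_num
  rw [e] at h5
  linarith

theorem VolN_slot {m : ℕ} {r : Fin (m + 1) → ℤ} {y : Fin m → ℂ} {v : Fin (m + 1) → ℂ}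
    (hc : CritU r y v) (j : Fin m) (i : Fin (m + 1)) :
    2 * Real.pi * (po (some (y j)) (v i)).re =
      blochWigner (exp (2 * Real.pi * I * (y j - v i))) +
        blochWigner (exp (2 * Real.pi * I * (y j + v i))) +
        2 * Real.pi * (y j).im * (hh (y j - v i) + hh (y j + v i)).im -
        2 * Real.pi * (v i).im * (dpo (some (y j)) (v i)).im := by
  have h1 := VolN_y hc j
  have h2 := VolN_v hc i
  rw [abs_le] at h1 h2
  have f1 := ff_re_bw (y j - v i) (by rw [Complex.sub_re]; linarith [h1.1, h2.2])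
    (by rw [Complex.sub_re]; linarith [h1.2, h2.1])
  have f2 := ff_re_bw (y j + v i) (by rw [Complex.add_re]; linarith [h1.1, h2.1])
    (by rw [Complex.add_re]; linarith [h1.2, h2.2])
  simp only [po, dpo, Complex.sub_re, Complex.neg_re, Complex.add_im, Complex.sub_im] at f1 f2 ⊢
  linear_combination -f1 - f2

theorem crit_valueN {m : ℕ} (r : Fin (m + 1) → ℤ) (y : Fin m → ℂ) (v : Fin (m + 1) → ℂ)
    (hc : CritU r y v) :
    2 * Real.pi * (VN r y v).re =
      ∑ j : Fin m, (blochWigner (exp (2 * Real.pi * I * (y j - v j.castSucc))) +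
        blochWigner (exp (2 * Real.pi * I * (y j + v j.castSucc))) +
        blochWigner (exp (2 * Real.pi * I * (y j - v j.succ))) +
        blochWigner (exp (2 * Real.pi * I * (y j + v j.succ))) -
        4 * blochWigner (-exp (2 * Real.pi * I * y j))) := by
  -- the linear terms
  have hlin : ∀ i : Fin (m + 1), (2 * Real.pi * I * (r i * v i ^ 2 + v i) : ℂ).re =
      (v i).im * (dpo (ext y i.castSucc) (v i) + dpo (ext y i.succ) (v i)).im := by
    intro i
    have ev := congrArg Complex.im (hc.ev i)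
    have g1 : (2 * Real.pi * I * (2 * r i * v i + 1) : ℂ).im =
        2 * Real.pi * (2 * r i * (v i).re + 1) := by
      simp [Complex.mul_im, Complex.mul_re]
    have g3 : (2 * Real.pi * I * (r i * v i ^ 2 + v i) : ℂ).re =
        -(2 * Real.pi * (2 * r i * (v i).re * (v i).im + (v i).im)) := by
      simp only [pow_two, Complex.mul_re, Complex.mul_im, Complex.add_re, Complex.add_im,
        Complex.I_re, Complex.I_im, Complex.ofReal_re, Complex.ofReal_im, Complex.re_ofNat,
        Complex.im_ofNat, Complex.intCast_re, Complex.intCast_im]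
      ring
    rw [Complex.add_im, Complex.add_im, g1, Complex.zero_im] at ev
    rw [g3, Complex.add_im]
    linear_combination (-(v i).im) * ev
  -- the sum over the slots
  have hre : (VN r y v).re = (∑ j, 4 * (ff (y j + 1 / 2)).re) +
      ∑ i : Fin (m + 1), ((v i).im * (dpo (ext y i.castSucc) (v i)).im +
        (po (ext y i.castSucc) (v i)).re + ((v i).im * (dpo (ext y i.succ) (v i)).im +
        (po (ext y i.succ) (v i)).re)) := by
    rw [VN, Complex.add_re, Complex.re_sum, Complex.re_sum]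
    congr 1
    · refine Finset.sum_congr rfl (fun j _ => ?_)
      simp [Complex.mul_re]
    · refine Finset.sum_congr rfl (fun i _ => ?_)
      rw [WN, Complex.add_re, Complex.add_re, hlin i, Complex.add_im]
      ring
  rw [sum_slots y (fun i u => (v i).im * (dpo u (v i)).im + (po u (v i)).re)
    (fun i => by simp [dpo, po])] at hre
  rw [hre, ← Finset.sum_add_distrib, Finset.mul_sum]
  refine Finset.sum_congr rfl (fun j _ => ?_)
  have h1 := VolN_y hc j
  rw [abs_le] at h1
  have c0 : (y j + 1 / 2).re = (y j).re + 1 / 2 := by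
    rw [Complex.add_re]
    norm_num
  have c1 : 0 < (y j + 1 / 2).re := by rw [c0]; linarith [h1.1]
  have c2 : (y j + 1 / 2).re < 1 := by rw [c0]; linarith [h1.2]
  have c3 : (y j + 1 / 2).im = (y j).im := by
    rw [Complex.add_im]
    norm_num
  have f0 := ff_re_bw _ c1 c2
  have e0 : exp (2 * Real.pi * I * (y j + 1 / 2)) = -exp (2 * Real.pi * I * y j) := by
    have e : (2 * Real.pi * I * (y j + 1 / 2) : ℂ) = 2 * Real.pi * I * y j + Real.pi * I := by ring
    rw [e, Complex.exp_add, Complex.exp_pi_mul_I]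
    ring
  rw [e0, c3] at f0
  have f1 := VolN_slot hc j j.castSucc
  have f2 := VolN_slot hc j j.succ
  have ey := congrArg Complex.im (hc.ey j)
  have g5 : (4 * hh (y j + 1 / 2)).im = 4 * (hh (y j + 1 / 2)).im := by
    simp [Complex.mul_im]
  simp only [Complex.add_im, g5] at ey
  simp only [Complex.add_im] at f1 f2
  linear_combination 4 * f0 + f1 + f2 - 2 * Real.pi * (y j).im * ey

theorem VolN_inv_conj (z : ℂ) : blochWigner ((starRingEnd ℂ) z)⁻¹ = blochWigner z := by
  rw [SWpath_inv, bw_conj, neg_neg]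

theorem VolN_slotD {p : ℕ} {r : ℤ} {v y : ℂ} {yr : Option ℂ}
    (h : Reg p (stw r v) (some (sty r y)) yr) :
    2 * slotD (stw r v) (some (sty r y)) = blochWigner (exp (2 * Real.pi * I * (y - v))) +
      blochWigner (exp (2 * Real.pi * I * (y + v))) -
      2 * blochWigner (-exp (2 * Real.pi * I * y)) - blochWigner (Uo (stw r v) (sty r y)) := by
  have h1 := slotD_eq p _ _ yr h
  rw [h1]
  have key : ∀ z : ℂ, exp (2 * Real.pi * I * (starRingEnd ℂ) z) =
      ((starRingEnd ℂ) (exp (2 * Real.pi * I * z)))⁻¹ := by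
    intro z
    rw [← Complex.exp_conj, ← Complex.exp_neg]
    congr 1
    simp only [map_mul, Complex.conj_ofReal, Complex.conj_I, Complex.conj_ofNat]
    ring
  by_cases hr : r < 0
  · simp only [stw, sty, hr, if_true]
  · simp only [stw, sty, hr, if_false]
    have e1 : (starRingEnd ℂ) y - -(starRingEnd ℂ) v = (starRingEnd ℂ) (y + v) := by
      rw [map_add]; ring
    have e2 : (starRingEnd ℂ) y + -(starRingEnd ℂ) v = (starRingEnd ℂ) (y - v) := by
      rw [map_sub]; ring
    have e3 : -((starRingEnd ℂ) (exp (2 * Real.pi * I * y)))⁻¹ =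
        ((starRingEnd ℂ) (-exp (2 * Real.pi * I * y)))⁻¹ := by
      rw [map_neg, inv_neg]
    rw [e1, e2, key, key, key, VolN_inv_conj, VolN_inv_conj, e3, VolN_inv_conj]
    ring

theorem vol_eqN {m : ℕ} (r : Fin (m + 1) → ℤ) (y : Fin m → ℂ) (v : Fin (m + 1) → ℂ)
    (hc : CritU r y v) :
    2 * ∑ i, ∑ k ∈ Finset.Icc 1 (2 * (r i).natAbs - 1), blochWigner (zK (stw (r i) (v i))
        (bet (stw (r i) (v i)) ((ext y i.castSucc).map (sty (r i)))) k) +
      2 * ∑ j : Fin m, (if r j.castSucc * r j.succ < 0 then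
        blochWigner (Uo (stw (r j.castSucc) (v j.castSucc)) (sty (r j.castSucc) (y j))) else 0) =
      2 * Real.pi * (VN r y v).re := by
  have h1 : ∀ i : Fin (m + 1), ∑ k ∈ Finset.Icc 1 (2 * (r i).natAbs - 1),
      blochWigner (zK (stw (r i) (v i))
        (bet (stw (r i) (v i)) ((ext y i.castSucc).map (sty (r i)))) k) =
      slotD (stw (r i) (v i)) ((ext y i.castSucc).map (sty (r i))) +
      slotD (stw (r i) (v i)) ((ext y i.succ).map (sty (r i))) := fun i =>
    fan_sum_reg _ _ _ _ (reg_of_crit r y v hc i)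
  rw [Finset.sum_congr rfl (fun i _ => h1 i)]
  rw [sum_slots y (fun i u => slotD (stw (r i) (v i)) (u.map (sty (r i)))) (fun i => rfl)]
  rw [crit_valueN r y v hc, Finset.mul_sum, Finset.mul_sum, ← Finset.sum_add_distrib]
  refine Finset.sum_congr rfl (fun j _ => ?_)
  have r1 := reg_of_crit r y v hc j.castSucc
  have r2 := reg_of_crit r y v hc j.succ
  rw [ext_mid, Option.map_some] at r1
  rw [ext_mid', Option.map_some] at r2
  have s1 := VolN_slotD (reg_swap _ _ _ _ r1)
  have s2 := VolN_slotD r2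
  have t1 := VolN_r hc j.castSucc
  have t2 := VolN_r hc j.succ
  have n1 : r j.castSucc ≠ 0 := by
    intro h; rw [h] at t1; norm_num at t1
  have n2 : r j.succ ≠ 0 := by
    intro h; rw [h] at t2; norm_num at t2
  simp only [Option.map_some]
  rcases lt_or_gt_of_ne (mul_ne_zero n1 n2) with h | h
  · rw [if_pos h]
    obtain ⟨-, u1, -⟩ := vertex_opp r y v hc j _ _ _ _ rfl rfl rfl rfl h
    have u2 : blochWigner (Uo (stw (r j.succ) (v j.succ)) (sty (r j.succ) (y j))) =
        blochWigner (Uo (stw (r j.castSucc) (v j.castSucc)) (sty (r j.castSucc) (y j))) := by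
      rw [eq_inv_of_mul_eq_one_left u1, VolN_inv_conj]
    linear_combination s1 + s2 - u2
  · rw [if_neg (by omega)]
    obtain ⟨u1, -⟩ := vertex_same r y v hc j _ _ _ _ rfl rfl rfl rfl h
    have u2 : blochWigner (Uo (stw (r j.succ) (v j.succ)) (sty (r j.succ) (y j))) =
        -blochWigner (Uo (stw (r j.castSucc) (v j.castSucc)) (sty (r j.castSucc) (y j))) := by
      rw [eq_inv_of_mul_eq_one_left u1, SWpath_inv]
    linear_combination s1 + s2 - u2

end Pool.Agent.H63.VC6
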