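import Pool.Agent.H63.VC4.ChainGeo
import Pool.Agent.H63.VC6.VolN

/-! # The volume -/

namespace Pool.Agent.H63.VC6

open Pool.Agent.H63.VC hiding ext
open Pool.Agent.H63.VC4 Pool.Agent.H63.VC3 Complex
open scoped BigOperators

theorem GeoN_left_none {m : ℕ} (y : Fin m → ℂ) (i : Fin (m + 1)) (f : ℂ → ℂ)
    (h : (ext y i.castSucc).map f = none) : i = 0 := by
  revert h
  refine Fin.cases (fun _ => rfl) (fun j h => ?_) i
  rw [ext_mid'] at h
  simp at h

theorem GeoN_right_none {m : ℕ} (y : Fin m → ℂ) (i : Fin (m + 1)) (f : ℂ → ℂ)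
    (h : (ext y i.succ).map f = none) : i = Fin.last m := by
  revert h
  refine Fin.lastCases (fun _ => rfl) (fun j h => ?_) i
  rw [ext_mid] at h
  simp at h

theorem GeoN_sin_ne (p : ℕ) (w : ℂ) (yl yr : Option ℂ) (h : Reg p w yl yr) :
    sin (Real.pi * w) ≠ 0 := by
  rcases h.hne with h1 | h1
  · obtain ⟨y, rfl⟩ := Option.ne_none_iff_exists'.1 h1
    exact (bet_sin p w y yr h).2.2.1
  · obtain ⟨y, rfl⟩ := Option.ne_none_iff_exists'.1 h1
    exact (bet_sin p w y yl (reg_swap _ _ _ _ h)).2.2.1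

theorem GeoN_top (p : ℕ) (w y : ℂ) (yl : Option ℂ) (h : Reg p w yl (some y)) :
    zK w (bet w yl) (2 * p) = Uo w y ∧ zK w (bet w yl) (2 * p - 1) = Vo w y := by
  have h1 := zK_symm p w yl (some y) h
  have h2 := zK_slot p w y yl (reg_swap _ _ _ _ h)
  have hp := h.hp
  constructor
  · rw [(h1 (2 * p) le_rfl).1, Nat.sub_self, h2.1]
  · rw [(h1 (2 * p - 1) (by omega)).1, show 2 * p - (2 * p - 1) = 1 by omega, h2.2]

theorem geoN (m : ℕ) (r : ℕ → ℤ) (y : Fin m → ℂ) (v : Fin (m + 1) → ℂ)
    (hc : CritU (fun i : Fin (m + 1) => r i) y v) :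
    IsGreatest (structureVolumes (conway ((List.range (m + 1)).map r)))
      (2 * Real.pi * (VN (fun i : Fin (m + 1) => r i) y v).re) := by
  have hreg : ∀ i : Fin (m + 1), Reg (r i).natAbs (stw (r i) (v i))
      ((ext y i.castSucc).map (sty (r i))) ((ext y i.succ).map (sty (r i))) :=
    fun i => reg_of_crit (fun i : Fin (m + 1) => r i) y v hc i
  have hp : ∀ i, i < m + 1 → 10 ≤ (r i).natAbs := fun i hi => (hreg ⟨i, hi⟩).hp
  let z : ℕ → ℕ → ℂ := fun i k => if h : i < m + 1 then
    zK (stw (r i) (v ⟨i, h⟩)) (bet (stw (r i) (v ⟨i, h⟩))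
      ((ext y (Fin.castSucc ⟨i, h⟩)).map (sty (r i)))) k else 0
  have hz : ∀ (i : Fin (m + 1)) (k : ℕ), z i k = zK (stw (r i) (v i)) (bet (stw (r i) (v i))
      ((ext y i.castSucc).map (sty (r i)))) k := by
    intro i k
    simp only [z]
    rw [dif_pos i.isLt]
  -- the slots at a vertex
  have htop : ∀ j : Fin m,
      z (j : ℕ) (2 * (r j).natAbs) = Uo (stw (r j) (v j.castSucc)) (sty (r j) (y j)) ∧
      z (j : ℕ) (2 * (r j).natAbs - 1) = Vo (stw (r j) (v j.castSucc)) (sty (r j) (y j)) := by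
    intro j
    have h1 := hreg j.castSucc
    rw [ext_mid] at h1
    have h2 := GeoN_top _ _ _ _ h1
    have h3 := hz j.castSucc
    simp only [Fin.val_castSucc] at h2 h3
    exact ⟨(h3 _).trans h2.1, (h3 _).trans h2.2⟩
  have hbot : ∀ j : Fin m,
      z ((j : ℕ) + 1) 0 = Uo (stw (r (j + 1)) (v j.succ)) (sty (r (j + 1)) (y j)) ∧
      z ((j : ℕ) + 1) 1 = Vo (stw (r (j + 1)) (v j.succ)) (sty (r (j + 1)) (y j)) := by
    intro j
    have h1 := hreg j.succ
    rw [ext_mid'] at h1
    have h2 := zK_slot _ _ _ _ h1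
    have h3 := hz j.succ
    rw [ext_mid'] at h3
    simp only [Fin.val_succ] at h2 h3
    exact ⟨(h3 _).trans h2.1, (h3 _).trans h2.2⟩
  have hmain := chain_geo r m hc.hm (fun i hi => by have := hp i hi; omega)
    (fun i hi h => by
      have h1 := hp i (by omega)
      have h2 := hp (i + 1) (by omega)
      rcases mul_eq_zero.1 h with h | h
      · rw [h] at h1; simp at h1
      · rw [h] at h2; simp at h2) z
    (fun i k hi hk1 hk2 hn1 hn2 => by
      have h1 := hz ⟨i, hi⟩ k
      simp only at h1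
      rw [h1]
      refine reg_pos _ _ _ _ (hreg ⟨i, hi⟩) k hk1 hk2 ?_ ?_
      · intro h
        have h2 := congrArg Fin.val (GeoN_left_none y ⟨i, hi⟩ _ h)
        simp only [Fin.val_zero] at h2
        by_contra hcon
        exact hn1 ⟨h2, by omega⟩
      · intro h
        have h2 := congrArg Fin.val (GeoN_right_none y ⟨i, hi⟩ _ h)
        simp only [Fin.val_last] at h2
        by_contra hcon
        exact hn2 ⟨h2, by simp only at hk2 hcon ⊢; omega⟩)
    (by
      have h1 := hz 0 1
      simp only [Fin.val_zero] at h1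
      rw [h1]
      have h2 := hreg 0
      rw [ext_castSucc_zero] at h2 ⊢
      simp only [Fin.val_zero] at h2
      exact reg_one _ _ _ h2)
    (by
      have h1 := hz (Fin.last m) (2 * (r m).natAbs - 1)
      simp only [Fin.val_last] at h1
      rw [h1]
      have h2 := hreg (Fin.last m)
      simp only [Fin.val_last] at h2
      rw [ext_last_succ] at h2
      have h3 := h2.hp
      rw [(zK_symm _ _ _ _ h2 (2 * (r m).natAbs - 1) (by omega)).1,
        show 2 * (r m).natAbs - (2 * (r m).natAbs - 1) = 1 by omega]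
      exact reg_one _ _ _ (reg_swap _ _ _ _ h2))
    (fun i k hi hk1 hk2 hn1 hn2 => by
      have h1 := hz ⟨i, hi⟩
      simp only at h1
      rw [h1, h1, h1]
      have h2 := hreg ⟨i, hi⟩
      simp only at h2
      have hl : (ext y (Fin.castSucc ⟨i, hi⟩)).map (sty (r i)) = none → 2 ≤ k := by
        intro h
        have h2 := congrArg Fin.val (GeoN_left_none y ⟨i, hi⟩ _ h)
        simp only [Fin.val_zero] at h2
        by_contra hcon
        exact hn1 ⟨h2, by omega⟩
      have hr : (ext y (Fin.succ ⟨i, hi⟩)).map (sty (r i)) = none → k ≤ 2 * (r i).natAbs - 2 := by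
        intro h
        have h2 := congrArg Fin.val (GeoN_right_none y ⟨i, hi⟩ _ h)
        simp only [Fin.val_last] at h2
        by_contra hcon
        exact hn2 ⟨h2, by omega⟩
      refine zK_fan _ _ k hk1 (GeoN_sin_ne _ _ _ _ h2) ?_ ?_ ?_
      · exact reg_ne _ _ _ _ h2 (k - 1) (by omega) (fun h => by have := hl h; omega)
          (fun h => by have := hr h; omega)
      · exact reg_ne _ _ _ _ h2 k (by omega) (fun h => by have := hl h; omega)
          (fun h => by have := hr h; omega)
      · exact reg_ne _ _ _ _ h2 (k + 1) (by omega) (fun h => by omega)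
          (fun h => by have := hr h; have := hp i hi; omega))
    (fun i hi hneg => by
      have h1 := htop ⟨i, hi⟩
      have h2 := hbot ⟨i, hi⟩
      simp only at h1 h2
      rw [h1.1, h1.2, h2.1, h2.2]
      exact vertex_opp (fun i : Fin (m + 1) => r i) y v hc ⟨i, hi⟩ _ _ _ _ rfl rfl rfl rfl hneg)
    (fun i hi hpos => by
      have h1 := htop ⟨i, hi⟩
      have h2 := hbot ⟨i, hi⟩
      simp only at h1 h2
      rw [h1.1, h1.2, h2.1, h2.2]
      exact vertex_same (fun i : Fin (m + 1) => r i) y v hc ⟨i, hi⟩ _ _ _ _ rfl rfl rfl rfl hpos)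
  have hval := vol_eqN (fun i : Fin (m + 1) => r i) y v hc
  rw [← hval]
  convert hmain using 2
  · rw [Finset.sum_range]
    congr 1
    refine Finset.sum_congr rfl (fun i _ => Finset.sum_congr rfl (fun k _ => ?_))
    rw [hz i k]
  · rw [Finset.sum_range]
    congr 1
    refine Finset.sum_congr rfl (fun j _ => ?_)
    rw [(htop j).1]
    rfl

end Pool.Agent.H63.VC6
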