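import Pool.Agent.H63.VC6.Defs

/-! # Expansion of a chain -/

namespace Pool.Agent.H63.VC6

open Pool.Agent.H63.VC hiding ext
open Pool.Agent.H63.VC3 Pool.Agent.H63.VC4 Complex
open scoped BigOperators

/-- The part of the expansion with the first region replaced by the difference. -/
noncomputable def dfr (K F : ℕ → Option ℕ → Option ℕ → ℂ) (c : ℕ → ℂ) (s : Finset ℕ) (i : ℕ) :
    ℕ → Option ℕ → Option ℕ → ℂ
  | 0, u, u' => K i u u' - F i u u'
  | p + 1, u, u' => ∑ t ∈ s, (K i u (some t) - F i u (some t)) * c t *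
      chn K c s (i + 1) p (some t) u'

theorem chn_expand (K F : ℕ → Option ℕ → Option ℕ → ℂ) (c : ℕ → ℂ) (s : Finset ℕ) (i p : ℕ)
    (u u' : Option ℕ) :
    chn K c s i p u u' - chn F c s i p u u' = dfr K F c s i p u u' +
      ∑ q ∈ Finset.range p, ∑ t ∈ s, chn F c s i q u (some t) * c t *
        dfr K F c s (i + q + 1) (p - q - 1) (some t) u' := by
  induction p generalizing i u with
  | zero =>
    rw [Finset.sum_range_zero, add_zero]
    rfl
  | succ p ih =>
    have h1 : chn K c s i (p + 1) u u' =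
        ∑ t ∈ s, K i u (some t) * c t * chn K c s (i + 1) p (some t) u' := rfl
    have h2 : chn F c s i (p + 1) u u' =
        ∑ t ∈ s, F i u (some t) * c t * chn F c s (i + 1) p (some t) u' := rfl
    have h3 : dfr K F c s i (p + 1) u u' = ∑ t ∈ s, (K i u (some t) - F i u (some t)) * c t *
        chn K c s (i + 1) p (some t) u' := rfl
    have h4 : chn K c s i (p + 1) u u' - chn F c s i (p + 1) u u' = dfr K F c s i (p + 1) u u' +
        ∑ t ∈ s, F i u (some t) * c t *
          (chn K c s (i + 1) p (some t) u' - chn F c s (i + 1) p (some t) u') := by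
      rw [h1, h2, h3, ← Finset.sum_sub_distrib, ← Finset.sum_add_distrib]
      exact Finset.sum_congr rfl fun t _ => by ring
    rw [h4]
    congr 1
    rw [Finset.sum_range_succ']
    have h5 : ∀ q ∈ Finset.range p, ∑ t' ∈ s, chn F c s i (q + 1) u (some t') * c t' *
        dfr K F c s (i + (q + 1) + 1) (p + 1 - (q + 1) - 1) (some t') u' =
        ∑ t ∈ s, F i u (some t) * c t * ∑ t' ∈ s, chn F c s (i + 1) q (some t) (some t') * c t' *
          dfr K F c s (i + 1 + q + 1) (p - q - 1) (some t') u' := by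
      intro q _
      have e1 : i + (q + 1) + 1 = i + 1 + q + 1 := by omega
      have e2 : p + 1 - (q + 1) - 1 = p - q - 1 := by omega
      have e3 : ∀ t', chn F c s i (q + 1) u (some t') =
          ∑ t ∈ s, F i u (some t) * c t * chn F c s (i + 1) q (some t) (some t') := fun _ => rfl
      rw [e1, e2]
      simp only [e3, Finset.sum_mul, Finset.mul_sum]
      rw [Finset.sum_comm]
      refine Finset.sum_congr rfl fun t _ => Finset.sum_congr rfl fun t' _ => ?_
      ring
    rw [Finset.sum_congr rfl h5, Finset.sum_comm, ← Finset.sum_add_distrib]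
    refine Finset.sum_congr rfl fun t _ => ?_
    have e0 : chn F c s i 0 u (some t) = F i u (some t) := rfl
    have e4 : i + 0 + 1 = i + 1 := by omega
    have e5 : p + 1 - 0 - 1 = p := by omega
    rw [ih (i + 1) (some t), e0, e4, e5, ← Finset.mul_sum]
    ring

theorem ExpandU_sum {c : ℕ → ℂ} {s : Finset ℕ} {w : Option ℕ → ℝ} {B : ℝ}
    (hw : ∀ u, 0 ≤ w u) (hB : 1 ≤ B) (hcard : (s.card : ℝ) ≤ B)
    (hc : ∀ t ∈ s, ‖c t‖ ≤ B * w (some t) ^ 2) {wu α β : ℝ} (hwu : 0 ≤ wu) (hα : 0 ≤ α)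
    (hβ : 0 ≤ β) (a b : ℕ → ℂ) (ha : ∀ t ∈ s, wu * w (some t) * ‖a t‖ ≤ α)
    (hb : ∀ t ∈ s, w (some t) * ‖b t‖ ≤ β) :
    wu * ‖∑ t ∈ s, a t * c t * b t‖ ≤ B ^ 2 * (α * β) := by
  have hB0 : 0 ≤ B := by linarith
  have h1 : wu * ‖∑ t ∈ s, a t * c t * b t‖ ≤ ∑ t ∈ s, wu * ‖a t * c t * b t‖ := by
    rw [← Finset.mul_sum]
    exact mul_le_mul_of_nonneg_left (norm_sum_le _ _) hwu
  have h2 : ∀ t ∈ s, wu * ‖a t * c t * b t‖ ≤ B * (α * β) := by
    intro t ht
    rw [norm_mul, norm_mul]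
    have e1 : wu * (‖a t‖ * ‖c t‖ * ‖b t‖) ≤ wu * (‖a t‖ * (B * w (some t) ^ 2) * ‖b t‖) :=
      mul_le_mul_of_nonneg_left (mul_le_mul_of_nonneg_right
        (mul_le_mul_of_nonneg_left (hc t ht) (norm_nonneg _)) (norm_nonneg _)) hwu
    have e2 : wu * (‖a t‖ * (B * w (some t) ^ 2) * ‖b t‖) =
        B * ((wu * w (some t) * ‖a t‖) * (w (some t) * ‖b t‖)) := by ring
    rw [e2] at e1
    refine e1.trans (mul_le_mul_of_nonneg_left ?_ hB0)
    exact mul_le_mul (ha t ht) (hb t ht) (mul_nonneg (hw _) (norm_nonneg _)) hα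
  refine h1.trans ((Finset.sum_le_sum h2).trans ?_)
  rw [Finset.sum_const, nsmul_eq_mul]
  have h3 : (s.card : ℝ) * (B * (α * β)) ≤ B * (B * (α * β)) :=
    mul_le_mul_of_nonneg_right hcard (by positivity)
  refine h3.trans (le_of_eq (by ring))

theorem ExpandU_adm {m : ℕ} {s : Finset ℕ} {i t : ℕ} (hi : 0 < i) (hi' : i ≤ m) (ht : t ∈ s) :
    adm m s i (some t) :=
  ⟨fun h => by omega, fun _ => ⟨t, ht, rfl⟩⟩

theorem ExpandU_adm_none (m : ℕ) (s : Finset ℕ) : adm m s (m + 1) none :=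
  ⟨fun _ => rfl, fun h => by omega⟩

theorem ExpandU_adm_zero (m : ℕ) (s : Finset ℕ) : adm m s 0 none :=
  ⟨fun _ => rfl, fun h => by omega⟩

theorem expand_bound (m : ℕ) (K F : ℕ → Option ℕ → Option ℕ → ℂ) (c : ℕ → ℂ) (s : Finset ℕ)
    (w : Option ℕ → ℝ) (X : ℕ → ℝ) (B ε μ : ℝ) (hw : ∀ u, 0 ≤ w u) (hw0 : w none = 1)
    (hB : 1 ≤ B) (hcard : (s.card : ℝ) ≤ B) (hc : ∀ t ∈ s, ‖c t‖ ≤ B * w (some t) ^ 2)
    (hX : ∀ i, 0 < X i) (hε : 0 ≤ ε) (hμ : 1 ≤ μ) (hεμ : ε * μ ≤ 1)
    (h1 : ∀ i, i ≤ m → ∀ u u', adm m s i u → adm m s (i + 1) u' →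
      w u * w u' * ‖K i u u' - F i u u'‖ ≤ ε * B * X i)
    (h2 : ∀ i p, i + p ≤ m → ∀ u u', adm m s i u → adm m s (i + p + 1) u' →
      w u * w u' * ‖chn F c s i p u u'‖ ≤ B * μ * ∏ j ∈ Finset.range (p + 1), X (i + j)) :
    ‖chn K c s 0 m none none - chn F c s 0 m none none‖ ≤
      ((m + 2) * B ^ 6) ^ (m + 2) * (ε * μ ^ 2) * ∏ j ∈ Finset.range (m + 1), X j := by
  have hB0 : 0 < B := by linarith
  have hμ0 : 0 < μ := by linarith
  set G : ℝ := ((m : ℝ) + 2) * B ^ 6 with hG
  have hB6 : 1 ≤ B ^ 6 := one_le_pow₀ hB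
  have hB3 : 1 ≤ B ^ 3 := one_le_pow₀ hB
  have hm0 : (0 : ℝ) ≤ m := Nat.cast_nonneg m
  have hG1 : 1 ≤ G := by
    rw [hG]
    nlinarith
  have hG0 : 0 < G := by linarith
  have hε1 : ε ≤ 1 := by nlinarith
  have hP0 : ∀ i p, 0 < ∏ j ∈ Finset.range p, X (i + j) := fun i p =>
    Finset.prod_pos fun j _ => hX _
  -- the differences
  have hD : ∀ p, (∀ p' < p, ∀ i u, i + p' = m → adm m s i u →
      w u * ‖chn K c s i p' u none‖ ≤ G ^ (p' + 1) * μ * ∏ j ∈ Finset.range (p' + 1), X (i + j)) →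
      ∀ p' ≤ p, ∀ i u, i + p' = m → adm m s i u →
      w u * ‖dfr K F c s i p' u none‖ ≤
        B ^ 3 * ε * μ * G ^ p' * ∏ j ∈ Finset.range (p' + 1), X (i + j) := by
    intro p ih p' hp' i u hip hu
    cases p' with
    | zero =>
      have e1 : dfr K F c s i 0 u none = K i u none - F i u none := rfl
      have him : i = m := by omega
      have e2 := h1 i (by omega) u none hu (by rw [him]; exact ExpandU_adm_none m s)
      rw [hw0, mul_one] at e2
      rw [e1]
      refine e2.trans ?_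
      rw [pow_zero, mul_one, zero_add, Finset.prod_range_one, add_zero]
      refine mul_le_mul_of_nonneg_right ?_ (hX i).le
      have e3 : B ≤ B ^ 3 := by nlinarith [mul_pos hB0 hB0]
      have e4 : B ≤ B ^ 3 * μ := by nlinarith
      calc ε * B ≤ ε * (B ^ 3 * μ) := mul_le_mul_of_nonneg_left e4 hε
        _ = B ^ 3 * ε * μ := by ring
    | succ p' =>
      have e1 : dfr K F c s i (p' + 1) u none = ∑ t ∈ s, (K i u (some t) - F i u (some t)) * c t *
          chn K c s (i + 1) p' (some t) none := rfl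
      rw [e1]
      refine (ExpandU_sum hw hB hcard hc (hw u) (α := ε * B * X i)
        (β := G ^ (p' + 1) * μ * ∏ j ∈ Finset.range (p' + 1), X (i + 1 + j))
        (by have := hX i; positivity)
        (by have := hP0 (i + 1) (p' + 1); positivity) (fun t => K i u (some t) - F i u (some t))
        (fun t => chn K c s (i + 1) p' (some t) none)
        (fun t ht => h1 i (by omega) u (some t) hu (ExpandU_adm (by omega) (by omega) ht))
        (fun t ht => ih p' (by omega) (i + 1) (some t) (by omega)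
          (ExpandU_adm (by omega) (by omega) ht))).trans (le_of_eq ?_)
      rw [Finset.prod_range_succ' (fun j => X (i + j)) (p' + 1), add_zero]
      have e2 : ∏ j ∈ Finset.range (p' + 1), X (i + (j + 1)) =
          ∏ j ∈ Finset.range (p' + 1), X (i + 1 + j) :=
        Finset.prod_congr rfl fun j _ => by congr 1; omega
      rw [e2]
      ring
  -- the sum
  have hE : ∀ p, (∀ p' < p, ∀ i u, i + p' = m → adm m s i u →
      w u * ‖chn K c s i p' u none‖ ≤ G ^ (p' + 1) * μ * ∏ j ∈ Finset.range (p' + 1), X (i + j)) →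
      ∀ i u, i + p = m → adm m s i u →
      w u * ‖∑ q ∈ Finset.range p, ∑ t ∈ s, chn F c s i q u (some t) * c t *
        dfr K F c s (i + q + 1) (p - q - 1) (some t) none‖ ≤
        p * (B ^ 6 * ε * μ ^ 2 * G ^ p * ∏ j ∈ Finset.range (p + 1), X (i + j)) := by
    intro p ih i u hip hu
    have e0 : w u * ‖∑ q ∈ Finset.range p, ∑ t ∈ s, chn F c s i q u (some t) * c t *
        dfr K F c s (i + q + 1) (p - q - 1) (some t) none‖ ≤
        ∑ q ∈ Finset.range p, w u * ‖∑ t ∈ s, chn F c s i q u (some t) * c t *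
          dfr K F c s (i + q + 1) (p - q - 1) (some t) none‖ := by
      rw [← Finset.mul_sum]
      exact mul_le_mul_of_nonneg_left (norm_sum_le _ _) (hw u)
    refine e0.trans ?_
    have e1 : ∀ q ∈ Finset.range p, w u * ‖∑ t ∈ s, chn F c s i q u (some t) * c t *
        dfr K F c s (i + q + 1) (p - q - 1) (some t) none‖ ≤
        B ^ 6 * ε * μ ^ 2 * G ^ p * ∏ j ∈ Finset.range (p + 1), X (i + j) := by
      intro q hq
      have hq' := Finset.mem_range.1 hq
      refine (ExpandU_sum hw hB hcard hc (hw u)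
        (α := B * μ * ∏ j ∈ Finset.range (q + 1), X (i + j))
        (β := B ^ 3 * ε * μ * G ^ (p - q - 1) *
          ∏ j ∈ Finset.range (p - q - 1 + 1), X (i + q + 1 + j))
        (by have := hP0 i (q + 1); positivity)
        (by have := hP0 (i + q + 1) (p - q - 1 + 1); positivity)
        (fun t => chn F c s i q u (some t))
        (fun t => dfr K F c s (i + q + 1) (p - q - 1) (some t) none)
        (fun t ht => h2 i q (by omega) u (some t) hu (ExpandU_adm (by omega) (by omega) ht))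
        (fun t ht => hD p ih (p - q - 1) (by omega) (i + q + 1) (some t) (by omega)
          (ExpandU_adm (by omega) (by omega) ht))).trans ?_
      have e2 : ∏ j ∈ Finset.range (p + 1), X (i + j) =
          (∏ j ∈ Finset.range (q + 1), X (i + j)) *
            ∏ j ∈ Finset.range (p - q - 1 + 1), X (i + q + 1 + j) := by
        have e3 : p + 1 = (q + 1) + (p - q - 1 + 1) := by omega
        rw [e3, Finset.prod_range_add]
        congr 1
        exact Finset.prod_congr rfl fun j _ => by congr 1; omega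
      rw [e2]
      have e4 : G ^ (p - q - 1) ≤ G ^ p := pow_le_pow_right₀ hG1 (by omega)
      have hp1 := hP0 i (q + 1)
      have hp2 := hP0 (i + q + 1) (p - q - 1 + 1)
      generalize ∏ j ∈ Finset.range (q + 1), X (i + j) = P1 at *
      generalize ∏ j ∈ Finset.range (p - q - 1 + 1), X (i + q + 1 + j) = P2 at *
      calc B ^ 2 * (B * μ * P1 * (B ^ 3 * ε * μ * G ^ (p - q - 1) * P2))
          = (B ^ 6 * ε * μ ^ 2 * (P1 * P2)) * G ^ (p - q - 1) := by ring
        _ ≤ (B ^ 6 * ε * μ ^ 2 * (P1 * P2)) * G ^ p :=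
            mul_le_mul_of_nonneg_left e4 (by positivity)
        _ = B ^ 6 * ε * μ ^ 2 * G ^ p * (P1 * P2) := by ring
    refine (Finset.sum_le_sum e1).trans (le_of_eq ?_)
    rw [Finset.sum_const, Finset.card_range, nsmul_eq_mul]
  -- the main induction
  have key : ∀ p, ∀ i u, i + p = m → adm m s i u →
      w u * ‖chn K c s i p u none‖ ≤ G ^ (p + 1) * μ * ∏ j ∈ Finset.range (p + 1), X (i + j) := by
    intro p
    induction p using Nat.strong_induction_on with
    | _ p ih =>
      intro i u hip hu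
      have e1 := chn_expand K F c s i p u none
      have e2 : chn K c s i p u none = chn F c s i p u none + (dfr K F c s i p u none +
          ∑ q ∈ Finset.range p, ∑ t ∈ s, chn F c s i q u (some t) * c t *
          dfr K F c s (i + q + 1) (p - q - 1) (some t) none) := by
        rw [← e1]
        ring
      have e3 := h2 i p (by omega) u none hu (by rw [hip]; exact ExpandU_adm_none m s)
      rw [hw0, mul_one] at e3
      have e4 := hD p ih p le_rfl i u hip hu
      have e5 := hE p ih i u hip hu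
      have e6 : w u * ‖chn K c s i p u none‖ ≤ w u * ‖chn F c s i p u none‖ +
          (w u * ‖dfr K F c s i p u none‖ + w u * ‖∑ q ∈ Finset.range p, ∑ t ∈ s,
            chn F c s i q u (some t) * c t *
            dfr K F c s (i + q + 1) (p - q - 1) (some t) none‖) := by
        rw [e2, ← mul_add, ← mul_add]
        refine mul_le_mul_of_nonneg_left ?_ (hw u)
        exact (norm_add_le _ _).trans (add_le_add_right (norm_add_le _ _) _)
      refine e6.trans ?_
      have hp := hP0 i (p + 1)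
      generalize ∏ j ∈ Finset.range (p + 1), X (i + j) = PP at *
      have hpm : (p : ℝ) ≤ m := by
        have : p ≤ m := by omega
        exact_mod_cast this
      have hGp : 1 ≤ G ^ p := one_le_pow₀ hG1
      have hp0 : (0 : ℝ) ≤ p := Nat.cast_nonneg p
      have t1 : B * μ * PP ≤ B ^ 6 * G ^ p * μ * PP := by
        refine mul_le_mul_of_nonneg_right (mul_le_mul_of_nonneg_right ?_ hμ0.le) hp.le
        have t2 : B ≤ B ^ 6 := le_self_pow₀ hB (by norm_num)
        nlinarith
      have t3 : B ^ 3 * ε * μ * G ^ p * PP ≤ B ^ 6 * G ^ p * μ * PP := by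
        have t4 : B ^ 3 * ε ≤ B ^ 6 := by
          have t5 : B ^ 3 ≤ B ^ 6 := pow_le_pow_right₀ hB (by norm_num)
          nlinarith
        calc B ^ 3 * ε * μ * G ^ p * PP = (B ^ 3 * ε) * (μ * G ^ p * PP) := by ring
          _ ≤ B ^ 6 * (μ * G ^ p * PP) := mul_le_mul_of_nonneg_right t4 (by positivity)
          _ = B ^ 6 * G ^ p * μ * PP := by ring
      have t6 : p * (B ^ 6 * ε * μ ^ 2 * G ^ p * PP) ≤ m * (B ^ 6 * G ^ p * μ * PP) := by
        calc p * (B ^ 6 * ε * μ ^ 2 * G ^ p * PP)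
            = (ε * μ) * (p * (B ^ 6 * G ^ p * μ * PP)) := by ring
          _ ≤ 1 * (p * (B ^ 6 * G ^ p * μ * PP)) :=
              mul_le_mul_of_nonneg_right hεμ (by positivity)
          _ ≤ m * (B ^ 6 * G ^ p * μ * PP) := by
              rw [one_mul]
              exact mul_le_mul_of_nonneg_right hpm (by positivity)
      calc w u * ‖chn F c s i p u none‖ +
          (w u * ‖dfr K F c s i p u none‖ + w u * ‖∑ q ∈ Finset.range p, ∑ t ∈ s,
            chn F c s i q u (some t) * c t *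
            dfr K F c s (i + q + 1) (p - q - 1) (some t) none‖)
          ≤ B ^ 6 * G ^ p * μ * PP + (B ^ 6 * G ^ p * μ * PP + m * (B ^ 6 * G ^ p * μ * PP)) :=
            add_le_add (e3.trans t1) (add_le_add (e4.trans t3) (e5.trans t6))
        _ = (((m : ℝ) + 2) * B ^ 6) * G ^ p * μ * PP := by ring
        _ = G ^ (p + 1) * μ * PP := by rw [← hG]; ring
  have f1 := chn_expand K F c s 0 m none none
  have f2 := hD m (fun p' _ => key p') m le_rfl 0 none (by omega) (ExpandU_adm_zero m s)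
  have f3 := hE m (fun p' _ => key p') 0 none (by omega) (ExpandU_adm_zero m s)
  rw [hw0, one_mul] at f2 f3
  have e0 : ∏ j ∈ Finset.range (m + 1), X j = ∏ j ∈ Finset.range (m + 1), X (0 + j) :=
    Finset.prod_congr rfl fun j _ => by rw [zero_add]
  rw [f1, e0]
  refine (norm_add_le _ _).trans ((add_le_add f2 f3).trans ?_)
  have hp := hP0 0 (m + 1)
  generalize ∏ j ∈ Finset.range (m + 1), X (0 + j) = PP at *
  have t1 : B ^ 3 * ε * μ * G ^ m * PP ≤ B ^ 6 * ε * μ ^ 2 * G ^ m * PP := by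
    have t2 : B ^ 3 ≤ B ^ 6 := pow_le_pow_right₀ hB (by norm_num)
    have t3 : μ ≤ μ ^ 2 := by nlinarith
    have t4 : B ^ 3 * μ ≤ B ^ 6 * μ ^ 2 := mul_le_mul t2 t3 hμ0.le (by positivity)
    calc B ^ 3 * ε * μ * G ^ m * PP = (B ^ 3 * μ) * (ε * G ^ m * PP) := by ring
      _ ≤ (B ^ 6 * μ ^ 2) * (ε * G ^ m * PP) := mul_le_mul_of_nonneg_right t4 (by positivity)
      _ = B ^ 6 * ε * μ ^ 2 * G ^ m * PP := by ring
  have t5 : B ^ 6 * ((m : ℝ) + 1) ≤ G := by
    rw [hG]
    nlinarith
  calc B ^ 3 * ε * μ * G ^ m * PP + m * (B ^ 6 * ε * μ ^ 2 * G ^ m * PP)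
      ≤ B ^ 6 * ε * μ ^ 2 * G ^ m * PP + m * (B ^ 6 * ε * μ ^ 2 * G ^ m * PP) := by linarith
    _ = (B ^ 6 * ((m : ℝ) + 1)) * (ε * μ ^ 2 * G ^ m * PP) := by ring
    _ ≤ G * (ε * μ ^ 2 * G ^ m * PP) := mul_le_mul_of_nonneg_right t5 (by positivity)
    _ = (ε * μ ^ 2 * G ^ (m + 1) * PP) * 1 := by ring
    _ ≤ (ε * μ ^ 2 * G ^ (m + 1) * PP) * G := mul_le_mul_of_nonneg_left hG1 (by positivity)
    _ = G ^ (m + 2) * (ε * μ ^ 2) * PP := by ring

end Pool.Agent.H63.VC6
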