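import Pool.Agent.H63.VC6.LocU

/-! # Consecutive regions of a chain -/

namespace Pool.Agent.H63.VC6

open Pool.Agent.H63.VC hiding ext
open Pool.Agent.H63.VC3 Pool.Agent.H63.VC4 Complex
open scoped BigOperators

theorem nat_ext_some {α : Type*} {m : ℕ} (f : Fin m → α) (i : ℕ) (h : i < m) :
    nat none (ext f) (i + 1) = some (f ⟨i, h⟩) := by
  rw [nat_lt none (ext f) (i + 1) (by omega)]
  exact ext_mid f ⟨i, h⟩

theorem SegIdx_ext_zero {α : Type*} {m : ℕ} (f : Fin m → α) :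
    nat none (ext f) 0 = none := by
  rw [nat_lt none (ext f) 0 (by omega)]
  rfl

theorem SegIdx_ext_last {α : Type*} {m : ℕ} (f : Fin m → α) (i : ℕ) (h : m + 1 ≤ i) :
    nat none (ext f) i = none := by
  rcases Nat.lt_or_ge i (m + 2) with h' | h'
  · have hi : i = m + 1 := by omega
    subst hi
    rw [nat_lt none (ext f) (m + 1) (by omega)]
    exact ext_last f
  · exact dif_neg (by omega)

theorem nat_ext_none {α : Type*} {m : ℕ} (f : Fin m → α) (i : ℕ) :
    nat none (ext f) i = none ↔ (i = 0 ∨ m + 1 ≤ i) := by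
  constructor
  · intro h
    by_contra hn
    push Not at hn
    obtain ⟨h0, h1⟩ := hn
    obtain ⟨k, rfl⟩ : ∃ k, i = k + 1 := ⟨i - 1, by omega⟩
    rw [nat_ext_some f k (by omega)] at h
    exact absurd h (by simp)
  · rintro (rfl | h)
    · exact SegIdx_ext_zero f
    · exact SegIdx_ext_last f i h

/-- The slots of the segment. -/
theorem extb_nat {α : Type*} {m : ℕ} (d : α) (f : Fin m → α) (i p : ℕ) (h : i + p ≤ m)
    (k : Fin (p + 2)) :
    extb (nat none (ext f) i) (nat none (ext f) (i + p + 1)) (fun j : Fin p => nat d f (i + j)) k =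
      nat none (ext f) (i + k) := by
  refine Fin.cases rfl (fun k => ?_) k
  refine Fin.lastCases ?_ (fun k => ?_) k
  · rw [extb_last]
    simp [add_assoc]
  · rw [extb_mid]
    have hk : i + (k : ℕ) < m := by omega
    have e : i + ((k.castSucc.succ : Fin (p + 2)) : ℕ) = i + (k : ℕ) + 1 := by
      simp [add_assoc]
    rw [e, nat_ext_some f _ hk, nat_lt d f _ hk]

theorem SegIdx_castSucc {α : Type*} {m : ℕ} (f : Fin m → α) (i : ℕ) (h : i < m + 1) :
    nat none (ext f) i = ext f (⟨i, h⟩ : Fin (m + 1)).castSucc := by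
  rw [nat_lt none (ext f) i (by omega)]
  rfl

theorem SegIdx_succ {α : Type*} {m : ℕ} (f : Fin m → α) (i : ℕ) (h : i < m + 1) :
    nat none (ext f) (i + 1) = ext f (⟨i, h⟩ : Fin (m + 1)).succ := by
  rw [nat_lt none (ext f) (i + 1) (by omega)]
  rfl

theorem SegIdx_mem {m : ℕ} (y : Fin m → ℂ) (i : ℕ) (z : ℂ) (hz : z ∈ nat none (ext y) i) :
    ∃ k, ∃ h : k < m, i = k + 1 ∧ z = y ⟨k, h⟩ := by
  have hne : nat none (ext y) i ≠ none := by
    rw [Option.mem_def] at hz
    rw [hz]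
    simp
  rw [Ne, nat_ext_none] at hne
  push Not at hne
  obtain ⟨h0, h1⟩ := hne
  obtain ⟨k, rfl⟩ : ∃ k, i = k + 1 := ⟨i - 1, by omega⟩
  refine ⟨k, by omega, rfl, ?_⟩
  rw [nat_ext_some y k (by omega), Option.mem_def] at hz
  exact (Option.some.inj hz).symm

/-- Consecutive regions of a chain. -/
theorem CritU_seg {m : ℕ} (r : Fin (m + 1) → ℤ) (y : Fin m → ℂ) (v : Fin (m + 1) → ℂ)
    (hc : CritU r y v) (i p : ℕ) (h : i + p ≤ m) :
    SegC (fun k : Fin (p + 1) => nat 0 r (i + k)) (nat none (ext y) i)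
      (nat none (ext y) (i + p + 1)) (fun j : Fin p => nat 0 y (i + j))
      (fun k : Fin (p + 1) => nat 0 v (i + k)) := by
  have hy : ∀ j : Fin p, ∃ h' : i + (j : ℕ) < m, nat 0 y (i + j) = y ⟨i + j, h'⟩ := fun j =>
    ⟨by omega, nat_lt 0 y _ (by omega)⟩
  have hv : ∀ k : ℕ, ∀ h' : i + k < m + 1, nat 0 v (i + k) = v ⟨i + k, h'⟩ := fun k h' =>
    nat_lt 0 v _ h'
  have hr : ∀ k : ℕ, ∀ h' : i + k < m + 1, nat 0 r (i + k) = r ⟨i + k, h'⟩ := fun k h' =>
    nat_lt 0 r _ h'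
  constructor
  · intro j
    obtain ⟨h', e⟩ := hy j
    have e1 : nat 0 v (i + ((j.castSucc : Fin (p + 1)) : ℕ)) =
        v (⟨i + j, h'⟩ : Fin m).castSucc := by
      rw [hv _ (by simp only [Fin.val_castSucc]; omega)]
      rfl
    have e2 : nat 0 v (i + ((j.succ : Fin (p + 1)) : ℕ)) = v (⟨i + j, h'⟩ : Fin m).succ := by
      rw [hv _ (by simp only [Fin.val_succ]; omega)]
      rfl
    simp only [e, e1, e2]
    exact hc.ey ⟨i + j, h'⟩
  · intro k
    have h' : i + (k : ℕ) < m + 1 := by omega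
    rw [extb_nat 0 y i p h, extb_nat 0 y i p h]
    have e1 : nat none (ext y) (i + ((k.castSucc : Fin (p + 2)) : ℕ)) =
        ext y (⟨i + k, h'⟩ : Fin (m + 1)).castSucc := SegIdx_castSucc y _ h'
    have e2 : nat none (ext y) (i + ((k.succ : Fin (p + 2)) : ℕ)) =
        ext y (⟨i + k, h'⟩ : Fin (m + 1)).succ := SegIdx_succ y _ h'
    simp only [e1, e2, hv _ h', hr _ h']
    exact hc.ev ⟨i + k, h'⟩
  · intro j
    obtain ⟨h', e⟩ := hy j
    simp only [e]
    exact (locU_y hc _).1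
  · intro k
    have h' : i + (k : ℕ) < m + 1 := by omega
    simp only [hv _ h']
    exact (locU_v hc _).1
  · intro z hz
    obtain ⟨k, hk, e, rfl⟩ := SegIdx_mem y i z hz
    refine ⟨(locU_y hc _).1, ?_⟩
    have e1 : nat 0 v (i + ((0 : Fin (p + 1)) : ℕ)) = v (⟨k, hk⟩ : Fin m).succ := by
      rw [hv _ (by simp only [Fin.val_zero]; omega)]
      congr 1
      ext
      simp [e]
    simp only [e1]
    exact (locU_kap hc ⟨k, hk⟩).2
  · intro z hz
    obtain ⟨k, hk, e, rfl⟩ := SegIdx_mem y _ z hz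
    refine ⟨(locU_y hc _).1, ?_⟩
    have e1 : nat 0 v (i + ((Fin.last p : Fin (p + 1)) : ℕ)) =
        v (⟨k, hk⟩ : Fin m).castSucc := by
      rw [hv _ (by simp only [Fin.val_last]; omega)]
      congr 1
      ext
      simp only [Fin.val_last, Fin.val_castSucc]
      omega
    simp only [e1]
    exact (locU_kap hc ⟨k, hk⟩).1

/-- The contribution of a region. -/
noncomputable def LL' {m : ℕ} (r : Fin (m + 1) → ℤ) (y : Fin m → ℂ) (v : Fin (m + 1) → ℂ)
    (i : ℕ) : ℝ :=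
  Lst (nat 0 r i) (nat none (ext y) i) (nat none (ext y) (i + 1)) (nat 0 v i)

theorem Tot_seg {m : ℕ} (r : Fin (m + 1) → ℤ) (y : Fin m → ℂ) (v : Fin (m + 1) → ℂ)
    (i p : ℕ) (h : i + p ≤ m) :
    Tot (fun k : Fin (p + 1) => nat 0 r (i + k)) (nat none (ext y) i)
      (nat none (ext y) (i + p + 1)) (fun j : Fin p => nat 0 y (i + j))
      (fun k : Fin (p + 1) => nat 0 v (i + k)) =
      ∑ j ∈ Finset.range (p + 1), LL' r y v (i + j) := by
  unfold Tot
  rw [← Fin.sum_univ_eq_sum_range (fun j => LL' r y v (i + j)) (p + 1)]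
  refine Finset.sum_congr rfl (fun k _ => ?_)
  rw [extb_nat 0 y i p h, extb_nat 0 y i p h]
  rfl

theorem SegIdx_Tot_none {m : ℕ} (r : Fin (m + 1) → ℤ) (y : Fin m → ℂ) (v : Fin (m + 1) → ℂ) :
    Tot r none none y v = (VN r y v).re := by
  unfold Tot VN Lst
  rw [← ext_eq_extb, Complex.add_re, Complex.re_sum, Complex.re_sum]
  have e := sum_slots y (fun (_ : Fin (m + 1)) u => vs u) (fun _ => rfl)
  have e2 : ∀ i : Fin (m + 1), (WN (r i) (ext y i.castSucc) (ext y i.succ) (v i)).re +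
      vs (ext y i.castSucc) + vs (ext y i.succ) =
      (WN (r i) (ext y i.castSucc) (ext y i.succ) (v i)).re +
        (vs (ext y i.castSucc) + vs (ext y i.succ)) := fun i => by ring
  rw [Finset.sum_congr rfl (fun i _ => e2 i), Finset.sum_add_distrib, e, add_comm]
  congr 1
  refine Finset.sum_congr rfl (fun j _ => ?_)
  unfold vs
  rw [← Complex.add_re]
  congr 1
  ring

theorem Tot_all {m : ℕ} (r : Fin (m + 1) → ℤ) (y : Fin m → ℂ) (v : Fin (m + 1) → ℂ) :
    Tot r none none y v = (VN r y v).re ∧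
      ∑ j ∈ Finset.range (m + 1), LL' r y v j = (VN r y v).re := by
  refine ⟨SegIdx_Tot_none r y v, ?_⟩
  rw [← SegIdx_Tot_none r y v, ← Fin.sum_univ_eq_sum_range (fun j => LL' r y v j) (m + 1)]
  unfold Tot
  rw [← ext_eq_extb]
  refine Finset.sum_congr rfl (fun k _ => ?_)
  unfold LL'
  rw [nat_lt 0 r _ k.isLt, nat_lt 0 v _ k.isLt, SegIdx_castSucc y _ k.isLt,
    SegIdx_succ y _ k.isLt]

theorem CritU_all {m : ℕ} (r : Fin (m + 1) → ℤ) (y : Fin m → ℂ) (v : Fin (m + 1) → ℂ)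
    (hc : CritU r y v) : SegC r none none y v := by
  constructor
  · exact hc.ey
  · intro i
    rw [← ext_eq_extb]
    exact hc.ev i
  · exact fun j => (locU_y hc j).1
  · exact fun i => (locU_v hc i).1
  · intro z hz
    exact absurd hz (by simp)
  · intro z hz
    exact absurd hz (by simp)

end Pool.Agent.H63.VC6
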