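import Pool.Agent.H63.VC6.LstLow
import Pool.Agent.H63.VC6.SegIdx
import Pool.Agent.H63.VC4.ReduceN

/-! # The difference of an entry and of the flat integral -/

namespace Pool.Agent.H63.VC6

open Pool.Agent.H63.VC hiding ext
open Pool.Agent.H63.VC3 Pool.Agent.H63.VC4 Complex
open scoped BigOperators

theorem RegU_eo_out (M : ℕ) (u : Option ℕ) (t : ℕ) (ht : t ∈ u)
    (h : 53 / 1000 ≤ |(t : ℝ) / M - 3 / 4|) : eo M u ≤ 4 * ns u * Fr (3 / 4) - 17 / 1000 := by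
  cases u with
  | none => simp at ht
  | some k =>
    have e : k = t := by simpa using ht
    subst e
    show 4 * Fr (3 / 4) - (if 53 / 1000 ≤ |(k : ℝ) / M - 3 / 4| then 17 / 1000 else 0) ≤
      4 * 1 * Fr (3 / 4) - 17 / 1000
    rw [if_pos h]
    linarith

theorem reg_diff (r : ℤ) (c : ℝ) (hc : c = 1 ∨ c = 2) (hr : 10 * c ≤ |(r : ℝ)|) (n : ℕ)
    (hn : 2 ≤ n) (Y : ℝ) (hY : 0 < Y) (hY' : Y ≤ 3 / 10 * c / (r : ℝ) ^ 2) :
    ∃ C : ℝ, 0 < C ∧ ∃ D : ℕ, ∀ M k1 k2 l1 l2 : ℕ, Win n M k1 k2 l1 l2 → ∀ u u' : Option ℕ,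
    (u ≠ none ∨ u' ≠ none) → ns u + ns u' = c → (∀ t ∈ u, t + n ≤ M + 1) →
    (∀ t ∈ u', t + n ≤ M + 1) →
    es M u * es M u' * ‖RSo r n M u u' - Gd r Y n M k1 k2 l2 u u'‖ ≤
      C * (M : ℝ) ^ D * Real.exp (M * (4 * c * Fr (3 / 4) - 17 / 1000)) := by
  have hc1 : 1 ≤ c := by rcases hc with h | h <;> rw [h] <;> norm_num
  have hr0 : r ≠ 0 := by
    rintro rfl
    rw [Int.cast_zero, abs_zero] at hr
    linarith
  obtain ⟨C1, hC1, D1, h1⟩ := ReduceN_region r c hc hr n hn Y hY hY'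
  obtain ⟨C2, hC2, D2, h2⟩ := RSo_bound r hr0 n hn
  refine ⟨C1 + C2, by positivity, D1 + D2, ?_⟩
  intro M k1 k2 l1 l2 hwin u u' huu hns hu hu'
  obtain ⟨f1, f2, f3, f4, f5, f6, f7⟩ := win_facts n M k1 k2 l1 l2 hn hwin
  have hM : 2 ≤ M := by have := hwin.big; omega
  have hM0 : (0 : ℝ) ≤ M := Nat.cast_nonneg _
  by_cases hin : (∀ t ∈ u, k1 ≤ t ∧ t ≤ k2) ∧ (∀ t ∈ u', k1 ≤ t ∧ t ≤ k2)
  · obtain ⟨-, -, e3⟩ := h1 M k1 k2 l1 l2 hwin u u' huu hns hin.1 hin.2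
    have eG : Gd r Y n M k1 k2 l2 u u' = -(Th0 n M * c1 n M ^ r * M *
        FLo r n M (u.map fun k => ((yk n M k : ℝ) : ℂ)) (u'.map fun k => ((yk n M k : ℝ) : ℂ))
        (rho n M l2) Y) := if_pos hin
    rw [eG]
    have e4 : Real.exp (-(M * (20 / 1000))) *
        (C1 * (M : ℝ) ^ D1 * Real.exp (M * (4 * c * Fr (3 / 4)))) =
        C1 * (M : ℝ) ^ D1 * Real.exp (M * (4 * c * Fr (3 / 4) - 20 / 1000)) := by
      have : Real.exp (M * (4 * c * Fr (3 / 4) - 20 / 1000)) =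
          Real.exp (-(M * (20 / 1000))) * Real.exp (M * (4 * c * Fr (3 / 4))) := by
        rw [← Real.exp_add]
        congr 1
        ring
      rw [this]
      ring
    rw [e4] at e3
    refine ReduceN_mono (by omega : 1 ≤ M) hC1.le (by linarith) (by omega)
      (Real.exp_pos _).le ?_ e3
    apply Real.exp_le_exp.2
    apply mul_le_mul_of_nonneg_left _ hM0
    linarith
  · have eG : Gd r Y n M k1 k2 l2 u u' = 0 := if_neg hin
    rw [eG, sub_zero]
    have e3 := h2 M hM u u' huu hu hu'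
    refine ReduceN_mono (by omega : 1 ≤ M) hC2.le (by linarith) (by omega)
      (Real.exp_pos _).le ?_ e3
    apply Real.exp_le_exp.2
    apply mul_le_mul_of_nonneg_left _ hM0
    have key : 4 * c * Fr (3 / 4) = 4 * ns u * Fr (3 / 4) + 4 * ns u' * Fr (3 / 4) := by
      rw [← hns]; ring
    rw [not_and_or] at hin
    rcases hin with hin | hin
    · push Not at hin
      obtain ⟨t, ht, ht'⟩ := hin
      have e1 := RegU_eo_out M u t ht (f4 t (by omega))
      have e2 := ReduceN_eo_le M u'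
      linarith
    · push Not at hin
      obtain ⟨t, ht, ht'⟩ := hin
      have e1 := RegU_eo_out M u' t ht (f4 t (by omega))
      have e2 := ReduceN_eo_le M u
      linarith

theorem RegU_ns_adm (m : ℕ) (s : Finset ℕ) (i : ℕ) (u : Option ℕ) (h : adm m s i u)
    (hi : i ≤ m + 1) : ns u = if i = 0 ∨ i = m + 1 then 0 else 1 := by
  by_cases h0 : i = 0 ∨ i = m + 1
  · rw [if_pos h0, h.1 h0, ns_none]
  · rw [if_neg h0]
    obtain ⟨t, -, ht⟩ := h.2 (by omega)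
    rw [ht, ns_some]

theorem RegU_ns_ext {m : ℕ} (y : Fin m → ℂ) (i : ℕ) (hi : i ≤ m + 1) :
    ns (nat none (ext y) i) = if i = 0 ∨ i = m + 1 then 0 else 1 := by
  by_cases h0 : i = 0 ∨ i = m + 1
  · rw [if_pos h0, (nat_ext_none y i).2 (by omega), ns_none]
  · rw [if_neg h0]
    obtain ⟨k, rfl⟩ : ∃ k, i = k + 1 := ⟨i - 1, by omega⟩
    rw [nat_ext_some y k (by omega), ns_some]

theorem RegU_nA (m : ℕ) (i : ℕ) (hi : i < m + 1) : nA m ⟨i, hi⟩ =
    (if i = 0 ∨ i = m + 1 then 0 else 1) + (if i + 1 = 0 ∨ i + 1 = m + 1 then 0 else 1) := by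
  unfold nA
  have e1 : ((⟨i, hi⟩ : Fin (m + 1)) = 0) = (i = 0 ∨ i = m + 1) := by
    apply propext
    rw [Fin.ext_iff]
    constructor
    · intro h; left; simpa using h
    · rintro (h | h)
      · simpa using h
      · omega
  have e2 : ((⟨i, hi⟩ : Fin (m + 1)) = Fin.last m) = (i + 1 = 0 ∨ i + 1 = m + 1) := by
    apply propext
    rw [Fin.ext_iff]
    constructor
    · intro h; right
      have : i = m := by simpa using h
      omega
    · rintro (h | h)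
      · omega
      · have : i = m := by omega
        simpa using this
  simp only [e1, e2]

theorem RegU_low {m : ℕ} (r : Fin (m + 1) → ℤ) (y : Fin m → ℂ) (v : Fin (m + 1) → ℂ)
    (hc : CritU r y v) (i : ℕ) (hi : i < m + 1) :
    4 * nA m ⟨i, hi⟩ * Fr (3 / 4) - 88 / 10000 ≤ LL' r y v i := by
  have hs := CritU_seg r y v hc i 0 (by omega)
  have hr := hc.hr ⟨i, hi⟩
  have er : nat 0 r i = r ⟨i, hi⟩ := nat_lt 0 r i hi
  unfold LL'
  refine lst_low (nat 0 r i) (nat none (ext y) i) (nat none (ext y) (i + 1)) (nat 0 v i)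
    (nA m ⟨i, hi⟩) (ReduceN_nA hc.hm _) ?_ ?_ ?_ ?_ ?_ ?_
  · rw [RegU_ns_ext y i (by omega), RegU_ns_ext y (i + 1) (by omega), RegU_nA]
  · rw [er]; exact hr
  · exact hs.vb 0
  · exact hs.ub
  · exact hs.ub'
  · exact hs.ev 0

theorem reg_diffU {m : ℕ} (r : Fin (m + 1) → ℤ) (y : Fin m → ℂ) (v : Fin (m + 1) → ℂ)
    (hc : CritU r y v) (n : ℕ) (hn : 2 ≤ n) :
    ∃ C : ℝ, 0 < C ∧ ∃ D : ℕ, ∀ M k1 k2 l1 l2 : ℕ, Win n M k1 k2 l1 l2 →
    ∀ i, i ≤ m → ∀ u u' : Option ℕ, adm m (Finset.range (M + 2 - n)) i u →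
      adm m (Finset.range (M + 2 - n)) (i + 1) u' →
    es M u * es M u' * ‖RSo (nat 0 r i) n M u u' - Gd (nat 0 r i) (nat 0 v i).im n M k1 k2 l2 u u'‖ ≤
      Real.exp (M * (-(82 / 10000))) * (C * (M : ℝ) ^ D) * Real.exp (M * LL' r y v i) := by
  have hm := hc.hm
  choose C1 hC1 D1 h1 using fun i : Fin (m + 1) => reg_diff (r i) (nA m i) (ReduceN_nA hm i)
    (hc.hr i) n hn (v i).im (hc.imv i) (locU_v hc i).2.1
  have hCi : ∀ i, C1 i ≤ ∑ i, C1 i := fun i =>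
    Finset.single_le_sum (f := fun i => C1 i) (fun j _ => (hC1 j).le) (Finset.mem_univ i)
  have hDi : ∀ i, D1 i ≤ ∑ i, D1 i := fun i =>
    Finset.single_le_sum (f := fun i => D1 i) (fun j _ => Nat.zero_le _) (Finset.mem_univ i)
  refine ⟨∑ i, C1 i, (hC1 0).trans_le (hCi 0), ∑ i, D1 i, ?_⟩
  intro M k1 k2 l1 l2 hwin i hi u u' hu hu'
  have hi1 : i < m + 1 := by omega
  have hM : 2 ≤ M := by have := hwin.big; omega
  have hM0 : (0 : ℝ) ≤ M := Nat.cast_nonneg _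
  have er : nat 0 r i = r ⟨i, hi1⟩ := nat_lt 0 r i hi1
  have ev : nat 0 v i = v ⟨i, hi1⟩ := nat_lt 0 v i hi1
  have hns : ns u + ns u' = nA m ⟨i, hi1⟩ := by
    rw [RegU_ns_adm m _ i u hu (by omega), RegU_ns_adm m _ (i + 1) u' hu' (by omega), RegU_nA]
  have hne : u ≠ none ∨ u' ≠ none := by
    by_contra hcon
    push Not at hcon
    have h2 := nA_pos m hm ⟨i, hi1⟩
    rw [hcon.1, hcon.2, ns_none] at hns
    linarith
  have hmem : ∀ (k : ℕ) (w : Option ℕ), adm m (Finset.range (M + 2 - n)) k w → k ≤ m + 1 →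
      ∀ t ∈ w, t + n ≤ M + 1 := by
    intro k w hw hk t ht
    by_cases h0 : k = 0 ∨ k = m + 1
    · rw [hw.1 h0] at ht
      simp at ht
    · obtain ⟨t', ht', hwt⟩ := hw.2 (by omega)
      rw [hwt] at ht
      have e : t' = t := by simpa using ht
      rw [Finset.mem_range] at ht'
      omega
  have h3 := h1 ⟨i, hi1⟩ M k1 k2 l1 l2 hwin u u' hne hns (hmem i u hu (by omega))
    (hmem (i + 1) u' hu' (by omega))
  rw [er, ev]
  have h4 := ReduceN_mono (E' := Real.exp (M * (LL' r y v i - 82 / 10000)))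
    (by omega : 1 ≤ M) (hC1 ⟨i, hi1⟩).le (hCi ⟨i, hi1⟩) (hDi ⟨i, hi1⟩) (Real.exp_pos _).le ?_ h3
  · refine h4.trans_eq ?_
    have : Real.exp (M * (LL' r y v i - 82 / 10000)) =
        Real.exp (M * (-(82 / 10000))) * Real.exp (M * LL' r y v i) := by
      rw [← Real.exp_add]
      congr 1
      ring
    rw [this]
    ring
  · apply Real.exp_le_exp.2
    apply mul_le_mul_of_nonneg_left _ hM0
    have := RegU_low r y v hc i hi1
    linarith

end Pool.Agent.H63.VC6
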