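import Pool.Agent.H63.VC3.StepPP
import Pool.Agent.H63.VC6.Defs

/-! # The weight of a real vertex -/

namespace Pool.Agent.H63.VC6

open Pool.Agent.H63.VC hiding ext
open Pool.Agent.H63.VC3 Pool.Agent.H63.VC4 Complex
open scoped BigOperators

theorem es_bound (n : ℕ) (hn : 2 ≤ n) : ∃ C : ℝ, 0 < C ∧ ∃ D : ℕ, ∀ M k : ℕ,
    1000 * (n + 1) ≤ M → |yk n M k - 1 / 4| ≤ 55 / 1000 →
    es M (some k) ≤ C * (M : ℝ) ^ D * Real.exp (M * vs (some ((yk n M k : ℝ) : ℂ))) := by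
  obtain ⟨C2, hC2, hS⟩ := log_S_bound
  refine ⟨Real.exp n, Real.exp_pos _, ⌈2 * C2⌉₊, fun M k hMbig f8 => ?_⟩
  rw [abs_le] at f8
  have hMpos : 0 < M := by omega
  have hM0 : (0 : ℝ) < M := by exact_mod_cast hMpos
  have hM1 : (1 : ℝ) ≤ M := by exact_mod_cast hMpos
  have hMr : (1000 * (n + 1) : ℝ) ≤ M := by exact_mod_cast hMbig
  have hnr : (2 : ℝ) ≤ n := by exact_mod_cast hn
  set y : ℝ := yk n M k with hy
  have hyk : y + 1 / 2 = (k : ℝ) / M + (n / 2) / M := by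
    rw [hy]; unfold yk bt; field_simp; ring
  have hnM : (n : ℝ) / 2 / M ≤ 1 / 1000 := by
    rw [div_div, div_le_div_iff₀ (by positivity) (by norm_num)]
    linarith
  have hnM0 : 0 ≤ (n : ℝ) / 2 / M := by positivity
  have hk1 : (k : ℝ) / M ≤ 82 / 100 := by linarith [f8.2]
  have hk0 : 69 / 100 ≤ (k : ℝ) / M := by linarith [f8.1]
  have hkM : k < M := by
    have h1 : (k : ℝ) < M := by
      rw [div_le_iff₀ hM0] at hk1
      linarith
    exact_mod_cast h1
  have hSpos := S_pos hkM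
  have hlog := hS M k (by omega) hkM
  rw [abs_le] at hlog
  have hlogM : 0 ≤ Real.log M := Real.log_nonneg hM1
  have hFr : M * Fr (k / M) ≤ M * Fr (y + 1 / 2) + n / 2 := by
    have h1 := StepPP_Fr ((k : ℝ) / M) (y + 1 / 2) hk0 hk1 (by linarith [f8.1])
      (by linarith [f8.2])
    have h2 : |(k : ℝ) / M - (y + 1 / 2)| = (n / 2) / M := by
      rw [hyk, show (k : ℝ) / M - ((k : ℝ) / M + (n / 2) / M) = -((n / 2) / M) by ring, abs_neg,
        abs_of_nonneg hnM0]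
    rw [h2] at h1
    have h3 : Fr ((k : ℝ) / M) ≤ Fr (y + 1 / 2) + (n / 2) / M := by
      have := (abs_le.mp h1).2
      linarith
    calc (M : ℝ) * Fr (k / M) ≤ M * (Fr (y + 1 / 2) + (n / 2) / M) := by gcongr
      _ = M * Fr (y + 1 / 2) + n / 2 := by field_simp
  have h1 : Real.log (S M k) ≤ M * Fr (y + 1 / 2) + n / 2 + C2 * Real.log M := by linarith
  have h2 : S M k ^ 2 = Real.exp (2 * Real.log (S M k)) := by
    rw [two_mul, Real.exp_add, Real.exp_log hSpos]; ring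
  have hvs : vs (some ((y : ℝ) : ℂ)) = 2 * Fr (y + 1 / 2) := by
    show (2 * ff ((y : ℂ) + 1 / 2)).re = _
    have e : ((y : ℂ) + 1 / 2) = ((y + 1 / 2 : ℝ) : ℂ) := by push_cast; rfl
    rw [e, ff_real (y + 1 / 2) (by linarith [f8.1]) (by linarith [f8.2])]
    simp
  rw [hvs]
  show S M k ^ 2 ≤ _
  rw [h2]
  calc Real.exp (2 * Real.log (S M k))
      ≤ Real.exp (Real.log M * ⌈2 * C2⌉₊ + (n + M * (2 * Fr (y + 1 / 2)))) := by
        apply Real.exp_le_exp.mpr
        have h3 : 2 * C2 ≤ ⌈2 * C2⌉₊ := Nat.le_ceil _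
        have h4 : Real.log M * (2 * C2) ≤ Real.log M * ⌈2 * C2⌉₊ :=
          mul_le_mul_of_nonneg_left h3 hlogM
        linarith
    _ = _ := by
        rw [Real.exp_add, Real.exp_add, Real.exp_mul, Real.exp_log hM0, Real.rpow_natCast]
        ring

end Pool.Agent.H63.VC6
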