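import Pool.Agent.H63.VC6.SegCore
import Pool.Agent.H63.VC6.EsB
import Pool.Agent.H63.VC4.FLmainN

/-! # The sum over the vertices of consecutive regions -/

namespace Pool.Agent.H63.VC6

open Pool.Agent.H63.VC hiding ext
open Pool.Agent.H63.VC3 Pool.Agent.H63.VC4 Complex
open scoped BigOperators

theorem SegBound_mem {α : Type*} {p : ℕ} (u u' : Option α) (f : Fin p → α) (i : Fin (p + 2))
    (x : α) (h : x ∈ extb u u' f i) : x ∈ u ∨ x ∈ u' ∨ ∃ j, x = f j := by
  revert h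
  refine Fin.cases (fun h => Or.inl h) (fun i => ?_) i
  refine Fin.lastCases ?_ (fun i => ?_) i
  · rw [extb_last]
    exact fun h => Or.inr (Or.inl h)
  · rw [extb_mid]
    intro h
    exact Or.inr (Or.inr ⟨i, (Option.some.inj h).symm⟩)

/-- The weight of a slot. -/
theorem SegBound_es (n : ℕ) (hn : 2 ≤ n) : ∃ C : ℝ, 1 ≤ C ∧ ∃ D : ℕ, ∀ (M : ℕ) (w : Option ℕ),
    1000 * (n + 1) ≤ M → (∀ k ∈ w, |yk n M k - 1 / 4| ≤ 55 / 1000) →
    es M w ≤ C * (M : ℝ) ^ D *
      Real.exp (M * vs (w.map fun k => ((yk n M k : ℝ) : ℂ))) := by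
  obtain ⟨C, hC, D, h⟩ := es_bound n hn
  refine ⟨C + 1, by linarith, D, ?_⟩
  intro M w hM hw
  have hM1 : (1 : ℝ) ≤ M := by
    have : 1 ≤ M := by omega
    exact_mod_cast this
  have hMD : (1 : ℝ) ≤ (M : ℝ) ^ D := one_le_pow₀ hM1
  cases w with
  | none =>
    simp only [es, Option.map_none, vs, mul_zero, Real.exp_zero, mul_one]
    nlinarith
  | some k =>
    refine (h M k hM (hw k rfl)).trans ?_
    rw [Option.map_some]
    have h0 : 0 ≤ (M : ℝ) ^ D * Real.exp (M * vs (some ((yk n M k : ℝ) : ℂ))) := by positivity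
    nlinarith

theorem SegBound_es_nonneg (M : ℕ) (w : Option ℕ) : 0 ≤ es M w := by
  cases w with
  | none => exact zero_le_one
  | some k => exact sq_nonneg _

theorem seg_bound {p : ℕ} (r : Fin (p + 1) → ℤ) (u u' : Option ℂ) (y : Fin p → ℂ)
    (v : Fin (p + 1) → ℂ) (hc : SegC r u u' y v) (n g : ℕ) (hn : 2 ≤ n) (hg : 1 ≤ g)
    (hgn : g ≤ n - 1) :
    ∃ C : ℝ, 0 < C ∧ ∃ D M0 : ℕ, ∀ M k1 k2 l1 l2 : ℕ, M0 ≤ M → Win n M k1 k2 l1 l2 →
    ∀ w w' : Option ℕ, (w = none ↔ u = none) → (w' = none ↔ u' = none) →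
    (∀ t ∈ w, k1 ≤ t ∧ t ≤ k2) → (∀ t ∈ w', k1 ≤ t ∧ t ≤ k2) →
    es M w * es M w' *
      ‖∑ t ∈ Fintype.piFinset (fun _ : Fin p => Finset.Icc k1 k2),
        (∏ j, Cc n g M (yk n M (t j))) *
        ∏ i, FLo (r i) n M ((extb w w' t i.castSucc).map fun k => ((yk n M k : ℝ) : ℂ))
          ((extb w w' t i.succ).map fun k => ((yk n M k : ℝ) : ℂ)) (rho n M l2) (v i).im‖ ≤
      C * (M : ℝ) ^ D * Real.exp (M * (Tot r u u' y v + 1 / 1000 * (ns u + ns u'))) := by
  obtain ⟨C1, hC1, M1, hcore⟩ := seg_core r u u' y v hc n g hn hg hgn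
  obtain ⟨C2, hC2, D2, hes⟩ := SegBound_es n hn
  refine ⟨C2 ^ 2 * C1, by positivity, 2 * D2 + 3 * p, M1, ?_⟩
  intro M k1 k2 l1 l2 hM hw w w' hwu hwu' hwk hwk'
  have hbig := hw.big
  have hMpos : 0 < M := by omega
  have hMr0 : (0 : ℝ) < M := by exact_mod_cast hMpos
  obtain ⟨-, -, hkk, -, -, hρ1, hρ2⟩ := win_facts n M k1 k2 l1 l2 hn hw
  obtain ⟨ρ, hρ⟩ : ∃ ρ, ρ = rho n M l2 := ⟨_, rfl⟩
  rw [← hρ] at hρ1 hρ2 ⊢
  have hwy : ∀ k ∈ w, |yk n M k - 1 / 4| ≤ 55 / 1000 := fun k hk =>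
    (hkk k (hwk k hk).1 (hwk k hk).2).1
  have hwy' : ∀ k ∈ w', |yk n M k - 1 / 4| ≤ 55 / 1000 := fun k hk =>
    (hkk k (hwk' k hk).1 (hwk' k hk).2).1
  -- the real boundary values
  have hmap : ∀ w : Option ℕ, (w.map fun k => yk n M k).map (fun x => (x : ℂ)) =
      w.map fun k => ((yk n M k : ℝ) : ℂ) := by
    intro w
    cases w <;> rfl
  have hb : bdr u (w.map fun k => yk n M k) := by
    constructor
    · rw [Option.map_eq_none_iff]
      exact hwu.symm
    · intro x hx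
      obtain ⟨k, hk, rfl⟩ := Option.mem_map.1 hx
      exact hwy k hk
  have hb' : bdr u' (w'.map fun k => yk n M k) := by
    constructor
    · rw [Option.map_eq_none_iff]
      exact hwu'.symm
    · intro x hx
      obtain ⟨k, hk, rfl⟩ := Option.mem_map.1 hx
      exact hwy' k hk
  have hcore' := hcore M k1 k2 l1 l2 hM hw _ _ hb hb'
  simp only [hmap] at hcore'
  obtain ⟨W, hW⟩ : ∃ W : ℝ, W = vs (w.map fun k => ((yk n M k : ℝ) : ℂ)) := ⟨_, rfl⟩
  obtain ⟨W', hW'⟩ : ∃ W' : ℝ, W' = vs (w'.map fun k => ((yk n M k : ℝ) : ℂ)) := ⟨_, rfl⟩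
  obtain ⟨T, hT⟩ : ∃ T : ℝ, T = Tot r u u' y v + 1 / 1000 * (ns u + ns u') := ⟨_, rfl⟩
  have hes1 := hes M w hbig hwy
  have hes2 := hes M w' hbig hwy'
  rw [← hW] at hes1
  rw [← hW'] at hes2
  rw [← hW, ← hW', ← hT] at hcore'
  rw [← hT]
  -- the membership of the slots
  have hslot : ∀ t ∈ Fintype.piFinset (fun _ : Fin p => Finset.Icc k1 k2), ∀ (i : Fin (p + 2))
      (z : ℂ), |z.re| ≤ 15 / 100 →
      okS z ((extb w w' t i).map fun k => ((yk n M k : ℝ) : ℂ)) := by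
    intro t ht i z hz y' hy'
    obtain ⟨k, hk, rfl⟩ := Option.mem_map.1 hy'
    have hk' : |yk n M k - 1 / 4| ≤ 55 / 1000 := by
      rcases SegBound_mem w w' t i k hk with h | h | ⟨j, rfl⟩
      · exact hwy k h
      · exact hwy' k h
      · have h0 := Fintype.mem_piFinset.1 ht j
        rw [Finset.mem_Icc] at h0
        exact (hkk (t j) h0.1 h0.2).1
    rw [abs_le] at hk'
    refine FLmainN_okS1 _ _ ?_ hz
    rw [ofReal_re]
    constructor <;> linarith [hk'.1, hk'.2]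
  -- the estimate of the sum
  have hE : ‖∑ t ∈ Fintype.piFinset (fun _ : Fin p => Finset.Icc k1 k2),
      (∏ j, Cc n g M (yk n M (t j))) *
        ∏ i, FLo (r i) n M ((extb w w' t i.castSucc).map fun k => ((yk n M k : ℝ) : ℂ))
          ((extb w w' t i.succ).map fun k => ((yk n M k : ℝ) : ℂ)) ρ (v i).im‖ ≤
      (Real.exp (M * (W + W')))⁻¹ * (C1 * (M : ℝ) ^ (3 * p) * Real.exp (M * T)) := by
    have h := FLmainN_diff (m := p) (p := p + 1) 0 0 ρ (by linarith) (by linarith)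
      (Fintype.piFinset (fun _ : Fin p => Finset.Icc k1 k2))
      (fun t => ∏ j, Cc n g M (yk n M (t j)))
      (fun t i a => KR (r i) n M ((extb w w' t i.castSucc).map fun k => ((yk n M k : ℝ) : ℂ))
        ((extb w w' t i.succ).map fun k => ((yk n M k : ℝ) : ℂ)) (a + (v i).im * I) *
        om n M (a + (v i).im * I)) ?_ (fun _ => 0) continuousOn_const 0
      ((Real.exp (M * (W + W')))⁻¹ * (C1 * (M : ℝ) ^ (3 * p) * Real.exp (M * T)))
      (by positivity) ?_
    · rw [zero_mul, sub_zero] at h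
      exact h
    · intro t ht i a ha
      have hare : |((a : ℂ) + (v i).im * I).re| ≤ 15 / 100 := by
        rw [FLmainN_re, abs_le]
        constructor <;> linarith [ha.1, ha.2]
      have h1 := KR_continuousAt (r i) n M hMpos
        ((extb w w' t i.castSucc).map fun k => ((yk n M k : ℝ) : ℂ))
        ((extb w w' t i.succ).map fun k => ((yk n M k : ℝ) : ℂ)) (a + (v i).im * I)
        (hslot t ht _ _ hare) (hslot t ht _ _ hare)
      have h2 := om_continuousAt n M (a + (v i).im * I) (FLmainN_ww_ne n M hMpos _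
        (by rw [FLmainN_im]; exact (hc.vb i).2.1))
      have h3 : ContinuousAt (fun a : ℝ => (a : ℂ) + (v i).im * I) a := by fun_prop
      exact ((ContinuousAt.comp (f := fun a : ℝ => (a : ℂ) + (v i).im * I) h1 h3).mul
        (ContinuousAt.comp (f := fun a : ℝ => (a : ℂ) + (v i).im * I) h2 h3)).continuousWithinAt
    · intro a ha
      rw [zero_mul, sub_zero]
      have h1 := (hcore' a (fun i => by
        have := ha i
        rw [abs_le]
        constructor <;> linarith [this.1, this.2])).1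
      have h2 : 0 < Real.exp (M * (W + W')) := Real.exp_pos _
      rw [← div_eq_inv_mul, le_div_iff₀' h2]
      refine le_trans (le_of_eq ?_) h1
      congr 2
      refine Finset.sum_congr rfl fun t _ => ?_
      unfold GIb
      congr 1
      refine Finset.prod_congr rfl fun i _ => ?_
      rw [← extb_map w w' t (fun k => ((yk n M k : ℝ) : ℂ)) i.castSucc,
        ← extb_map w w' t (fun k => ((yk n M k : ℝ) : ℂ)) i.succ]
  calc es M w * es M w' * _ ≤ (C2 * (M : ℝ) ^ D2 * Real.exp (M * W)) *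
        (C2 * (M : ℝ) ^ D2 * Real.exp (M * W')) *
        ((Real.exp (M * (W + W')))⁻¹ * (C1 * (M : ℝ) ^ (3 * p) * Real.exp (M * T))) := by
        have e1 := SegBound_es_nonneg M w
        have e2 := SegBound_es_nonneg M w'
        have e3 : 0 < (Real.exp (M * (W + W')))⁻¹ *
          (C1 * (M : ℝ) ^ (3 * p) * Real.exp (M * T)) := by positivity
        gcongr
    _ = C2 ^ 2 * C1 * (M : ℝ) ^ (2 * D2 + 3 * p) * Real.exp (M * T) *
        ((Real.exp (M * (W + W')))⁻¹ * (Real.exp (M * W) * Real.exp (M * W'))) := by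
        rw [pow_add, mul_comm 2 D2, pow_mul]
        ring
    _ = C2 ^ 2 * C1 * (M : ℝ) ^ (2 * D2 + 3 * p) * Real.exp (M * T) := by
        rw [← Real.exp_add, ← mul_add, inv_mul_cancel₀ (Real.exp_pos _).ne', mul_one]

end Pool.Agent.H63.VC6
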