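import Pool.Agent.H63.VC6.ChainRec
import Pool.Agent.H63.VC6.SegBound
import Pool.Agent.H63.VC6.SegIdx

/-! # The chains with the flat integrals -/

namespace Pool.Agent.H63.VC6

open Pool.Agent.H63.VC hiding ext
open Pool.Agent.H63.VC3 Pool.Agent.H63.VC4 Complex
open scoped BigOperators

theorem SegChain_zpow_sum {ι : Type*} [DecidableEq ι] (s : Finset ι) (c : ℂ) (hc : c ≠ 0)
    (f : ι → ℤ) : ∏ i ∈ s, c ^ (f i) = c ^ (∑ i ∈ s, f i) := by
  induction s using Finset.induction_on with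
  | empty => simp
  | insert k s hk ih => rw [Finset.prod_insert hk, Finset.sum_insert hk, ih, zpow_add₀ hc]

theorem SegChain_norm_Th0 (n M : ℕ) : ‖Th0 n M‖ = 1 := by
  unfold Th0
  rw [norm_mul, norm_pow, norm_neg, norm_neg, norm_one, one_pow, Complex.norm_I, one_mul]

theorem SegChain_c1_ne (n M : ℕ) : c1 n M ≠ 0 := by
  intro h
  have := norm_c1 n M
  rw [h, norm_zero] at this
  norm_num at this

theorem SegChain_Gd_zero (r : ℤ) (Y : ℝ) (n M k1 k2 l2 : ℕ) (u u' : Option ℕ)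
    (h : ¬ ((∀ t ∈ u, k1 ≤ t ∧ t ≤ k2) ∧ (∀ t ∈ u', k1 ≤ t ∧ t ≤ k2))) :
    Gd r Y n M k1 k2 l2 u u' = 0 := by
  unfold Gd
  rw [if_neg h]

theorem SegChain_Gd_pos (r : ℤ) (Y : ℝ) (n M k1 k2 l2 : ℕ) (u u' : Option ℕ)
    (h : (∀ t ∈ u, k1 ≤ t ∧ t ≤ k2) ∧ (∀ t ∈ u', k1 ≤ t ∧ t ≤ k2)) :
    Gd r Y n M k1 k2 l2 u u' = -(Th0 n M * c1 n M ^ r * M *
      FLo r n M (u.map fun k => ((yk n M k : ℝ) : ℂ)) (u'.map fun k => ((yk n M k : ℝ) : ℂ))
        (rho n M l2) Y) := by
  unfold Gd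
  rw [if_pos h]

theorem SegChain_extb_win {p : ℕ} (P : ℕ → Prop) (w w' : Option ℕ) (t : Fin p → ℕ)
    (hw : ∀ x ∈ w, P x) (hw' : ∀ x ∈ w', P x) (ht : ∀ j, P (t j)) (k : Fin (p + 2)) :
    ∀ x ∈ extb w w' t k, P x := by
  refine Fin.cases ?_ (fun i => ?_) k
  · intro x hx
    rw [← Fin.castSucc_zero, extb_zero] at hx
    exact hw x hx
  · refine Fin.lastCases ?_ (fun i => ?_) i
    · intro x hx
      rw [extb_last] at hx
      exact hw' x hx
    · intro x hx
      rw [extb_mid] at hx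
      rw [Option.mem_some_iff] at hx
      rw [← hx]
      exact ht i

/-- The sum over all vertices is a sum over the window. -/
theorem chn_Gd (ρ : ℕ → ℤ) (Y : ℕ → ℝ) (n g M k1 k2 l2 i p : ℕ) (hk : k2 + n ≤ M)
    (w w' : Option ℕ) :
    chn (fun i => Gd (ρ i) (Y i) n M k1 k2 l2) (fun t => Cc n g M (yk n M t))
      (Finset.range (M + 2 - n)) i p w w' =
    (if (∀ t ∈ w, k1 ≤ t ∧ t ≤ k2) ∧ (∀ t ∈ w', k1 ≤ t ∧ t ≤ k2) then
      (-(Th0 n M * M)) ^ (p + 1) * c1 n M ^ (∑ k : Fin (p + 1), ρ (i + k)) *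
        ∑ t ∈ Fintype.piFinset (fun _ : Fin p => Finset.Icc k1 k2),
        (∏ j, Cc n g M (yk n M (t j))) *
        ∏ k : Fin (p + 1), FLo (ρ (i + k)) n M
          ((extb w w' t k.castSucc).map fun k => ((yk n M k : ℝ) : ℂ))
          ((extb w w' t k.succ).map fun k => ((yk n M k : ℝ) : ℂ)) (rho n M l2) (Y (i + k))
      else 0) := by
  rw [chn_eq]
  by_cases hww : (∀ t ∈ w, k1 ≤ t ∧ t ≤ k2) ∧ (∀ t ∈ w', k1 ≤ t ∧ t ≤ k2)
  · rw [if_pos hww]
    have hsub : Fintype.piFinset (fun _ : Fin p => Finset.Icc k1 k2) ⊆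
        Fintype.piFinset (fun _ : Fin p => Finset.range (M + 2 - n)) := by
      intro t ht
      rw [Fintype.mem_piFinset] at ht ⊢
      intro j
      have h1 := ht j
      rw [Finset.mem_Icc] at h1
      rw [Finset.mem_range]
      omega
    rw [← Finset.sum_subset hsub]
    · rw [Finset.mul_sum]
      refine Finset.sum_congr rfl (fun t ht => ?_)
      rw [Fintype.mem_piFinset] at ht
      have htk : ∀ j, k1 ≤ t j ∧ t j ≤ k2 := fun j => by
        have := ht j
        rwa [Finset.mem_Icc] at this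
      have hwin := SegChain_extb_win (fun x => k1 ≤ x ∧ x ≤ k2) w w' t hww.1 hww.2 htk
      have e : (-(Th0 n M * (M : ℂ))) ^ (p + 1) = ∏ _i : Fin (p + 1), (-(Th0 n M * (M : ℂ))) := by
        rw [Finset.prod_const, Finset.card_univ, Fintype.card_fin]
      have e2 : ∏ k : Fin (p + 1), Gd (ρ (i + k)) (Y (i + k)) n M k1 k2 l2
          (extb w w' t k.castSucc) (extb w w' t k.succ) =
          (-(Th0 n M * (M : ℂ))) ^ (p + 1) * c1 n M ^ (∑ k : Fin (p + 1), ρ (i + k)) *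
          ∏ k : Fin (p + 1), FLo (ρ (i + k)) n M
          ((extb w w' t k.castSucc).map fun k => ((yk n M k : ℝ) : ℂ))
          ((extb w w' t k.succ).map fun k => ((yk n M k : ℝ) : ℂ)) (rho n M l2) (Y (i + k)) := by
        rw [e, ← SegChain_zpow_sum Finset.univ (c1 n M) (SegChain_c1_ne n M),
          ← Finset.prod_mul_distrib, ← Finset.prod_mul_distrib]
        refine Finset.prod_congr rfl (fun k _ => ?_)
        rw [SegChain_Gd_pos _ _ _ _ _ _ _ _ _ ⟨hwin k.castSucc, hwin k.succ⟩]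
        ring
      rw [e2]
      ring
    · intro t _ ht
      have h1 : ∃ j, ¬ (k1 ≤ t j ∧ t j ≤ k2) := by
        by_contra h2
        push Not at h2
        apply ht
        rw [Fintype.mem_piFinset]
        intro j
        rw [Finset.mem_Icc]
        exact h2 j
      obtain ⟨j, hj⟩ := h1
      have h3 : ∏ k : Fin (p + 1), Gd (ρ (i + k)) (Y (i + k)) n M k1 k2 l2
          (extb w w' t k.castSucc) (extb w w' t k.succ) = 0 := by
        apply Finset.prod_eq_zero (Finset.mem_univ j.castSucc)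
        apply SegChain_Gd_zero
        rintro ⟨-, h4⟩
        apply hj
        apply h4
        rw [extb_mid]
        rfl
      rw [h3, mul_zero]
  · rw [if_neg hww]
    refine Finset.sum_eq_zero (fun t _ => ?_)
    have h3 : ∏ k : Fin (p + 1), Gd (ρ (i + k)) (Y (i + k)) n M k1 k2 l2
        (extb w w' t k.castSucc) (extb w w' t k.succ) = 0 := by
      rw [not_and_or] at hww
      rcases hww with h | h
      · apply Finset.prod_eq_zero (Finset.mem_univ (0 : Fin (p + 1)))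
        apply SegChain_Gd_zero
        rintro ⟨h4, -⟩
        apply h
        rw [extb_zero] at h4
        exact h4
      · apply Finset.prod_eq_zero (Finset.mem_univ (Fin.last p))
        apply SegChain_Gd_zero
        rintro ⟨-, h4⟩
        apply h
        rw [extb_last] at h4
        exact h4
    rw [h3, mul_zero]

theorem SegChain_es_nonneg (M : ℕ) (u : Option ℕ) : 0 ≤ es M u := by
  cases u with
  | none => exact zero_le_one
  | some k => exact sq_nonneg _

theorem SegChain_ns_le {α : Type*} (u : Option α) : ns u ≤ 1 := by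
  cases u with
  | none => exact zero_le_one
  | some k => exact le_rfl

/-- Uniform constants. -/
theorem SegChain_unif (m : ℕ) (P : ℕ → ℕ → ℝ → ℕ → ℕ → Prop)
    (hmono : ∀ i p C D M0 C' D' M0', P i p C D M0 → C ≤ C' → D ≤ D' → M0 ≤ M0' → 0 < C →
      P i p C' D' M0')
    (h : ∀ i p, i + p ≤ m → ∃ C : ℝ, 0 < C ∧ ∃ D M0 : ℕ, P i p C D M0) :
    ∃ C : ℝ, 0 < C ∧ ∃ D M0 : ℕ, ∀ i p, i + p ≤ m → P i p C D M0 := by
  have h' : ∀ i p, ∃ C : ℝ, 0 < C ∧ ∃ D M0 : ℕ, (i + p ≤ m → P i p C D M0) := by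
    intro i p
    by_cases hip : i + p ≤ m
    · obtain ⟨C, hC, D, M0, h1⟩ := h i p hip
      exact ⟨C, hC, D, M0, fun _ => h1⟩
    · exact ⟨1, one_pos, 0, 0, fun h2 => absurd h2 hip⟩
  choose C hC D M0 hP using h'
  set s : Finset (ℕ × ℕ) := Finset.range (m + 1) ×ˢ Finset.range (m + 1) with hs
  have hmem : ∀ i p, i + p ≤ m → (i, p) ∈ s := by
    intro i p hip
    rw [hs, Finset.mem_product, Finset.mem_range, Finset.mem_range]
    constructor <;> omega
  refine ⟨∑ x ∈ s, C x.1 x.2, ?_, ∑ x ∈ s, D x.1 x.2, ∑ x ∈ s, M0 x.1 x.2, ?_⟩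
  · exact Finset.sum_pos (fun x _ => hC x.1 x.2) ⟨(0, 0), hmem 0 0 (by omega)⟩
  · intro i p hip
    refine hmono i p (C i p) (D i p) (M0 i p) _ _ _ (hP i p hip) ?_ ?_ ?_ (hC i p)
    · exact Finset.single_le_sum (f := fun x : ℕ × ℕ => C x.1 x.2)
        (fun x _ => (hC x.1 x.2).le) (hmem i p hip)
    · exact Finset.single_le_sum (f := fun x : ℕ × ℕ => D x.1 x.2)
        (fun x _ => Nat.zero_le _) (hmem i p hip)
    · exact Finset.single_le_sum (f := fun x : ℕ × ℕ => M0 x.1 x.2)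
        (fun x _ => Nat.zero_le _) (hmem i p hip)

theorem SegChain_adm_iff {m : ℕ} (s : Finset ℕ) (i : ℕ) (hi : i ≤ m + 1) (u : Option ℕ)
    (hu : adm m s i u) {α : Type*} (f : Fin m → α) : u = none ↔ nat none (ext f) i = none := by
  rw [nat_ext_none]
  constructor
  · intro h
    by_contra h2
    push Not at h2
    obtain ⟨t, _, ht⟩ := hu.2 ⟨by omega, by omega⟩
    rw [h] at ht
    exact absurd ht (by simp)
  · intro h
    apply hu.1
    omega

theorem seg_chain {m : ℕ} (r : Fin (m + 1) → ℤ) (y : Fin m → ℂ) (v : Fin (m + 1) → ℂ)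
    (hc : CritU r y v) (n g : ℕ) (hn : 2 ≤ n) (hg : 1 ≤ g) (hgn : g ≤ n - 1) :
    ∃ C : ℝ, 0 < C ∧ ∃ D M0 : ℕ, ∀ M k1 k2 l1 l2 : ℕ, M0 ≤ M → Win n M k1 k2 l1 l2 →
    ∀ i p, i + p ≤ m → ∀ u u' : Option ℕ, adm m (Finset.range (M + 2 - n)) i u →
      adm m (Finset.range (M + 2 - n)) (i + p + 1) u' →
      es M u * es M u' *
        ‖chn (fun i => Gd (nat 0 r i) (nat 0 v i).im n M k1 k2 l2) (fun t => Cc n g M (yk n M t))
          (Finset.range (M + 2 - n)) i p u u'‖ ≤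
      C * (M : ℝ) ^ D * Real.exp (M * (2 / 1000)) *
        ∏ j ∈ Finset.range (p + 1), Real.exp (M * LL' r y v (i + j)) := by
  have key := SegChain_unif m (fun i p C D M0 =>
    ∀ M k1 k2 l1 l2 : ℕ, M0 ≤ M → Win n M k1 k2 l1 l2 →
    ∀ u u' : Option ℕ, adm m (Finset.range (M + 2 - n)) i u →
      adm m (Finset.range (M + 2 - n)) (i + p + 1) u' →
      es M u * es M u' *
        ‖chn (fun i => Gd (nat 0 r i) (nat 0 v i).im n M k1 k2 l2) (fun t => Cc n g M (yk n M t))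
          (Finset.range (M + 2 - n)) i p u u'‖ ≤
      C * (M : ℝ) ^ D * Real.exp (M * (2 / 1000)) *
        ∏ j ∈ Finset.range (p + 1), Real.exp (M * LL' r y v (i + j)))
  refine Exists.elim (key ?_ ?_) ?_
  · intro i p C D M0 C' D' M0' hP hCC hDD hMM hC0 M k1 k2 l1 l2 hM hw u u' hu hu'
    have h1 := hP M k1 k2 l1 l2 (hMM.trans hM) hw u u' hu hu'
    refine h1.trans ?_
    have hM1 : (1 : ℝ) ≤ M := by
      have := hw.big
      have h2 : 1 ≤ M := by nlinarith
      exact_mod_cast h2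
    have h3 : (M : ℝ) ^ D ≤ (M : ℝ) ^ D' := pow_le_pow_right₀ hM1 hDD
    have h4 : 0 ≤ ∏ j ∈ Finset.range (p + 1), Real.exp (M * LL' r y v (i + j)) :=
      Finset.prod_nonneg (fun _ _ => (Real.exp_pos _).le)
    have h5 : 0 ≤ C' := hC0.le.trans hCC
    gcongr
  · intro i p hip
    obtain ⟨C, hC, D, M0, hB⟩ := seg_bound _ _ _ _ _ (CritU_seg r y v hc i p hip) n g hn hg hgn
    refine ⟨C, hC, D + (p + 1), M0, ?_⟩
    intro M k1 k2 l1 l2 hM hw u u' hu hu'
    have hM1 : (1 : ℝ) ≤ M := by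
      have := hw.big
      have h2 : 1 ≤ M := by nlinarith
      exact_mod_cast h2
    have hkM : k2 + n ≤ M := (win_facts n M k1 k2 l1 l2 hn hw).1
    have hprod : 0 ≤ ∏ j ∈ Finset.range (p + 1), Real.exp (M * LL' r y v (i + j)) :=
      Finset.prod_nonneg (fun _ _ => (Real.exp_pos _).le)
    rw [chn_Gd (fun i => nat 0 r i) (fun i => (nat 0 v i).im) n g M k1 k2 l2 i p hkM u u']
    by_cases hww : (∀ t ∈ u, k1 ≤ t ∧ t ≤ k2) ∧ (∀ t ∈ u', k1 ≤ t ∧ t ≤ k2)
    · rw [if_pos hww, norm_mul, norm_mul, norm_pow, norm_neg, norm_mul, SegChain_norm_Th0,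
        norm_zpow, norm_c1, one_zpow, one_mul, mul_one, Complex.norm_natCast]
      have h1 := hB M k1 k2 l1 l2 hM hw u u'
        (SegChain_adm_iff _ i (by omega) u hu y) (SegChain_adm_iff _ (i + p + 1) (by omega) u' hu' y)
        hww.1 hww.2
      rw [Tot_seg r y v i p hip] at h1
      have h2 : Real.exp (M * (∑ j ∈ Finset.range (p + 1), LL' r y v (i + j) +
          1 / 1000 * (ns (nat none (ext y) i) + ns (nat none (ext y) (i + p + 1))))) ≤
          Real.exp (M * (2 / 1000)) *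
            ∏ j ∈ Finset.range (p + 1), Real.exp (M * LL' r y v (i + j)) := by
        rw [← Real.exp_sum, ← Finset.mul_sum, ← Real.exp_add]
        apply Real.exp_le_exp.2
        have h3 := SegChain_ns_le (nat none (ext y) i)
        have h4 := SegChain_ns_le (nat none (ext y) (i + p + 1))
        nlinarith
      calc _ = (M : ℝ) ^ (p + 1) * (es M u * es M u' * ‖_‖) := by
            rw [mul_left_comm]
        _ ≤ (M : ℝ) ^ (p + 1) * (C * (M : ℝ) ^ D * _) :=
            mul_le_mul_of_nonneg_left h1 (by positivity)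
        _ ≤ (M : ℝ) ^ (p + 1) * (C * (M : ℝ) ^ D * (Real.exp (M * (2 / 1000)) *
            ∏ j ∈ Finset.range (p + 1), Real.exp (M * LL' r y v (i + j)))) := by
            gcongr
        _ = _ := by rw [pow_add]; ring
    · rw [if_neg hww, norm_zero, mul_zero]
      positivity
  · rintro C ⟨hC, D, M0, h⟩
    exact ⟨C, hC, D, M0, fun M k1 k2 l1 l2 hM hw i p hip u u' hu hu' =>
      h i p hip M k1 k2 l1 l2 hM hw u u' hu hu'⟩

end Pool.Agent.H63.VC6
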