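import Pool.Agent.H63.VC6.FLmainU
import Pool.Agent.H63.VC6.SegChain
import Pool.Agent.H63.VC6.RegU
import Pool.Agent.H63.VC6.ExpandU

/-! # Reduction to the main integral -/

namespace Pool.Agent.H63.VC6

open Pool.Agent.H63.VC hiding ext
open Pool.Agent.H63.VC3 Pool.Agent.H63.VC4 Complex
open scoped BigOperators

theorem JCmainU_JC {m : ℕ} (r : Fin (m + 1) → ℤ) (n g M : ℕ) :
    JC r n g M = chn (fun i => RSo (nat 0 r i) n M) (fun t => Cc n g M (yk n M t))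
      (Finset.range (M + 2 - n)) 0 m none none := by
  rw [chn_eq]
  unfold JC
  refine Finset.sum_congr rfl (fun t _ => ?_)
  refine congrArg₂ (fun a b : ℂ => a * b) rfl ?_
  refine Finset.prod_congr rfl (fun k _ => ?_)
  rw [ext_eq_extb, nat_lt 0 r (0 + k) (by have := k.2; omega)]
  have hk : (⟨0 + (k : ℕ), by have := k.2; omega⟩ : Fin (m + 1)) = k := Fin.ext (by simp)
  rw [hk]

theorem JCmainU_F {m : ℕ} (r : Fin (m + 1) → ℤ) (v : Fin (m + 1) → ℂ)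
    (n g M k1 k2 l2 : ℕ) (hk : k2 + n ≤ M) :
    chn (fun i => Gd (nat 0 r i) (nat 0 v i).im n M k1 k2 l2) (fun t => Cc n g M (yk n M t))
      (Finset.range (M + 2 - n)) 0 m none none =
    (-(Th0 n M * M)) ^ (m + 1) * c1 n M ^ (∑ i, r i) *
      ∑ t ∈ Fintype.piFinset (fun _ : Fin m => Finset.Icc k1 k2),
        (∏ j, Cc n g M (yk n M (t j))) *
        ∏ i, FLo (r i) n M (ext (fun j => ((yk n M (t j) : ℝ) : ℂ)) i.castSucc)
          (ext (fun j => ((yk n M (t j) : ℝ) : ℂ)) i.succ) (rho n M l2) (v i).im := by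
  have e := chn_Gd (nat 0 r) (fun i => (nat 0 v i).im) n g M k1 k2 l2 0 m hk none none
  rw [e, if_pos (by constructor <;> intro t ht <;> simp at ht)]
  have en : ∀ k : Fin (m + 1), nat 0 r (0 + k) = r k := fun k => by
    rw [nat_lt 0 r (0 + k) (by have := k.2; omega)]
    congr 1
    exact Fin.ext (by simp)
  have env : ∀ k : Fin (m + 1), nat 0 v (0 + k) = v k := fun k => by
    rw [nat_lt 0 v (0 + k) (by have := k.2; omega)]
    congr 1
    exact Fin.ext (by simp)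
  have es : ∑ k : Fin (m + 1), nat 0 r (0 + k) = ∑ k, r k :=
    Finset.sum_congr rfl (fun k _ => en k)
  rw [es]
  refine congrArg₂ (fun a b : ℂ => a * b) rfl ?_
  refine Finset.sum_congr rfl (fun t _ => ?_)
  refine congrArg₂ (fun a b : ℂ => a * b) rfl ?_
  refine Finset.prod_congr rfl (fun k _ => ?_)
  rw [en k, env k, ext_map t (fun k => ((yk n M k : ℝ) : ℂ)) k.castSucc,
    ext_map t (fun k => ((yk n M k : ℝ) : ℂ)) k.succ, ext_eq_extb]

theorem JC_mainU {m : ℕ} (r : Fin (m + 1) → ℤ) (y : Fin m → ℂ) (v : Fin (m + 1) → ℂ)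
    (hc : CritU r y v) (n g : ℕ) (hn : 2 ≤ n) (hg : 1 ≤ g) (hgn : g ≤ n - 1) :
    ∃ C : ℝ, 0 < C ∧ ∃ D M0 : ℕ, ∀ M k1 k2 l1 l2 : ℕ, M0 ≤ M → Win n M k1 k2 l1 l2 →
    ‖JC r n g M - (-(Th0 n M * M)) ^ (m + 1) * c1 n M ^ (∑ i, r i) *
      ((M : ℂ) ^ m * MI r n g M (fun j => (y j).im) (fun i => (v i).im)
      ((k1 + bt n) / M - 1 / 2) ((k2 + 1 + bt n) / M - 1 / 2) (rho n M l2))‖ ≤
      C * (M : ℝ) ^ D * Real.exp (M * ((VN r y v).re - 1 / 500)) := by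
  obtain ⟨C1, hC1, D1, h1⟩ := reg_diffU r y v hc n hn
  obtain ⟨C2, hC2, D2, M2, h2⟩ := seg_chain r y v hc n g hn hg hgn
  obtain ⟨C3, hC3, D3, M3, h3⟩ := FL_mainU r y v hc n g hn hg hgn
  obtain ⟨A, hA⟩ : ∃ A : ℝ, A = C1 + C2 + 2 ^ (2 * n - 4) + 1 := ⟨_, rfl⟩
  have h2p : (0 : ℝ) < 2 ^ (2 * n - 4) := by positivity
  have hA1 : 1 ≤ A := by rw [hA]; linarith
  have hA0 : 0 < A := by linarith
  obtain ⟨D, hD⟩ : ∃ D, D = D1 + D2 + 1 := ⟨_, rfl⟩
  obtain ⟨P, hP⟩ : ∃ P : ℝ, P = ((m + 2) * A ^ 6) ^ (m + 2) := ⟨_, rfl⟩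
  have hP0 : 0 < P := by rw [hP]; positivity
  refine ⟨P + C3, by positivity, 6 * D * (m + 2) + (m + 1 + D3), M2 + M3,
    fun M k1 k2 l1 l2 hM0 hwin => ?_⟩
  obtain ⟨f1, f2, f3, f4, f5, f6, f7⟩ := win_facts n M k1 k2 l1 l2 hn hwin
  have hM : 2 ≤ M := by have := hwin.big; omega
  have hM1 : (1 : ℝ) ≤ M := by exact_mod_cast (by omega : 1 ≤ M)
  have hM00 : (0 : ℝ) < M := by linarith
  obtain ⟨H, hHd⟩ : ∃ H, H = (VN r y v).re := ⟨_, rfl⟩
  obtain ⟨E, hE⟩ : ∃ E, E = Real.exp (M * (H - 1 / 500)) := ⟨_, rfl⟩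
  have hE0 : 0 < E := by rw [hE]; exact Real.exp_pos _
  obtain ⟨B, hB⟩ : ∃ B : ℝ, B = A * (M : ℝ) ^ D := ⟨_, rfl⟩
  have hB1 : ∀ (a : ℝ) (d : ℕ), 0 ≤ a → a ≤ A → d ≤ D → a * (M : ℝ) ^ d ≤ B :=
      fun a d ha haA hd => by
    rw [hB]
    calc a * (M : ℝ) ^ d ≤ A * (M : ℝ) ^ d := mul_le_mul_of_nonneg_right haA (by positivity)
      _ ≤ _ := mul_le_mul_of_nonneg_left (pow_le_pow_right₀ hM1 hd) hA0.le
  have hBone : 1 ≤ B := by
    have := hB1 1 0 zero_le_one hA1 (Nat.zero_le _)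
    simpa using this
  have hcard : (((Finset.range (M + 2 - n)).card : ℕ) : ℝ) ≤ B := by
    rw [Finset.card_range]
    calc ((M + 2 - n : ℕ) : ℝ) ≤ M := by exact_mod_cast (by omega : M + 2 - n ≤ M)
      _ = 1 * (M : ℝ) ^ 1 := by ring
      _ ≤ B := hB1 1 1 zero_le_one hA1 (by omega)
  have hcB : ∀ t ∈ Finset.range (M + 2 - n), ‖(fun t => Cc n g M (yk n M t)) t‖ ≤
      B * es M (some t) ^ 2 := fun t ht => by
    rw [Finset.mem_range] at ht
    have e1 := ReduceN_Cc n g M t hn hg hgn (by omega)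
    refine e1.trans ?_
    show _ ≤ B * (S M t ^ 2) ^ 2
    refine mul_le_mul_of_nonneg_right ?_ (by positivity)
    have := hB1 (2 ^ (2 * n - 4)) 0 h2p.le (by rw [hA]; linarith) (Nat.zero_le _)
    simpa using this
  have hεμ : Real.exp (M * (-(82 / 10000))) * Real.exp (M * (2 / 1000)) ≤ 1 := by
    rw [← Real.exp_add, Real.exp_le_one_iff]
    nlinarith
  have key := expand_bound m (fun i => RSo (nat 0 r i) n M)
    (fun i => Gd (nat 0 r i) (nat 0 v i).im n M k1 k2 l2) (fun t => Cc n g M (yk n M t))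
    (Finset.range (M + 2 - n)) (es M) (fun i => Real.exp (M * LL' r y v i)) B
    (Real.exp (M * (-(82 / 10000)))) (Real.exp (M * (2 / 1000)))
    (ReduceN_es_nonneg M) rfl hBone hcard hcB (fun i => Real.exp_pos _) (Real.exp_pos _).le
    (by rw [Real.one_le_exp_iff]; positivity) hεμ
    (fun i hi u u' hu hu' => by
      refine (h1 M k1 k2 l1 l2 hwin i hi u u' hu hu').trans ?_
      refine mul_le_mul_of_nonneg_right ?_ (Real.exp_pos _).le
      refine mul_le_mul_of_nonneg_left ?_ (Real.exp_pos _).le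
      exact hB1 C1 D1 hC1.le (by rw [hA]; linarith) (by omega))
    (fun i p hip u u' hu hu' => by
      refine (h2 M k1 k2 l1 l2 (by omega) hwin i p hip u u' hu hu').trans ?_
      refine mul_le_mul_of_nonneg_right ?_ (Finset.prod_nonneg (fun j _ => (Real.exp_pos _).le))
      refine mul_le_mul_of_nonneg_right ?_ (Real.exp_pos _).le
      exact hB1 C2 D2 hC2.le (by rw [hA]; linarith) (by omega))
  have hX : ∏ j ∈ Finset.range (m + 1), Real.exp (M * LL' r y v j) = Real.exp (M * H) := by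
    rw [← Real.exp_sum, ← Finset.mul_sum, (Tot_all r y v).2, hHd]
  beta_reduce at key
  rw [hX] at key
  have hBP : ((m + 2) * B ^ 6) ^ (m + 2) = P * (M : ℝ) ^ (6 * D * (m + 2)) := by
    have e1 : ((m : ℝ) + 2) * (A * (M : ℝ) ^ D) ^ 6 = ((m + 2) * A ^ 6) * (M : ℝ) ^ (6 * D) := by
      rw [mul_pow, ← pow_mul, mul_comm D 6]
      ring
    rw [hB, hP, e1, mul_pow, ← pow_mul]
  have hEE : Real.exp (M * (-(82 / 10000))) * Real.exp (M * (2 / 1000)) ^ 2 *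
      Real.exp (M * H) ≤ E := by
    rw [hE, ← Real.exp_nat_mul, ← Real.exp_add, ← Real.exp_add]
    apply Real.exp_le_exp.2
    push_cast
    nlinarith
  have t1 : ‖chn (fun i => RSo (nat 0 r i) n M) (fun t => Cc n g M (yk n M t))
        (Finset.range (M + 2 - n)) 0 m none none -
      chn (fun i => Gd (nat 0 r i) (nat 0 v i).im n M k1 k2 l2) (fun t => Cc n g M (yk n M t))
      (Finset.range (M + 2 - n)) 0 m none none‖ ≤ P * (M : ℝ) ^ (6 * D * (m + 2)) * E := by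
    refine key.trans ?_
    rw [hBP, mul_assoc]
    exact mul_le_mul_of_nonneg_left hEE (by positivity)
  obtain ⟨T, hT⟩ : ∃ T, T = ∑ t ∈ Fintype.piFinset (fun _ : Fin m => Finset.Icc k1 k2),
        (∏ j, Cc n g M (yk n M (t j))) *
        ∏ i, FLo (r i) n M (ext (fun j => ((yk n M (t j) : ℝ) : ℂ)) i.castSucc)
          (ext (fun j => ((yk n M (t j) : ℝ) : ℂ)) i.succ) (rho n M l2) (v i).im := ⟨_, rfl⟩
  obtain ⟨Q, hQ⟩ : ∃ Q, Q = (M : ℂ) ^ m * MI r n g M (fun j => (y j).im) (fun i => (v i).im)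
      ((k1 + bt n) / M - 1 / 2) ((k2 + 1 + bt n) / M - 1 / 2) (rho n M l2) := ⟨_, rfl⟩
  obtain ⟨pref, hpref⟩ : ∃ pref, pref = (-(Th0 n M * M)) ^ (m + 1) * c1 n M ^ (∑ i, r i) :=
    ⟨_, rfl⟩
  have hFm := h3 M k1 k2 l1 l2 (by omega) hwin
  rw [← hT, ← hQ, ← hHd, ← hE] at hFm
  rw [JCmainU_F r v n g M k1 k2 l2 f1, ← JCmainU_JC, ← hT, ← hpref] at t1
  rw [← hQ, ← hpref, ← hHd, ← hE]
  have hprefn : ‖pref‖ = (M : ℝ) ^ (m + 1) := by
    rw [hpref, norm_mul, norm_pow, norm_neg, norm_mul, ReduceN_norm_Th0, norm_zpow, norm_c1,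
      one_zpow, one_mul, mul_one, Complex.norm_natCast]
  have t2 : ‖pref * (T - Q)‖ ≤ C3 * (M : ℝ) ^ (m + 1 + D3) * E := by
    rw [norm_mul, hprefn]
    calc _ ≤ (M : ℝ) ^ (m + 1) * (C3 * (M : ℝ) ^ D3 * E) :=
          mul_le_mul_of_nonneg_left hFm (by positivity)
      _ = C3 * (M : ℝ) ^ (m + 1 + D3) * E := by rw [pow_add _ (m + 1) D3]; ring
  have hsplit : JC r n g M - pref * Q = (JC r n g M - pref * T) + pref * (T - Q) := by ring
  rw [hsplit]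
  have hpow : ∀ a : ℕ, a ≤ 6 * D * (m + 2) + (m + 1 + D3) →
      (M : ℝ) ^ a ≤ (M : ℝ) ^ (6 * D * (m + 2) + (m + 1 + D3)) := fun a h =>
    pow_le_pow_right₀ hM1 h
  calc ‖(JC r n g M - pref * T) + pref * (T - Q)‖
      ≤ P * (M : ℝ) ^ (6 * D * (m + 2)) * E + C3 * (M : ℝ) ^ (m + 1 + D3) * E :=
        (norm_add_le _ _).trans (add_le_add t1 t2)
    _ ≤ P * (M : ℝ) ^ (6 * D * (m + 2) + (m + 1 + D3)) * E +
        C3 * (M : ℝ) ^ (6 * D * (m + 2) + (m + 1 + D3)) * E := by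
        have e1 := hpow (6 * D * (m + 2)) (by omega)
        have e2 := hpow (m + 1 + D3) (by omega)
        gcongr
    _ = _ := by ring

end Pool.Agent.H63.VC6
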