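import Pool.Agent.H63.VC3.JNlimC
import Pool.Agent.H63.VC6.JCmainU
import Pool.Agent.H63.VC6.MainN

/-! # The asymptotics of the invariants -/

namespace Pool.Agent.H63.VC6

open Pool.Agent.H63.VC hiding ext
open Pool.Agent.H63.VC4 Pool.Agent.H63.VC3 Complex Filter Topology
open scoped BigOperators

theorem JNlimN_Th0 (n M G : ℕ) :
    (-(Th0 n M * M)) ^ (2 * G + 1 + 1) = (-1) ^ (G + 1) * (M : ℂ) ^ (2 * G + 2) := by
  have h1 : Th0 n M ^ 2 = -1 := by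
    unfold Th0
    rw [mul_pow, ← pow_mul, mul_comm (n + M) 2, pow_mul, neg_one_sq, one_pow, one_mul, neg_sq,
      Complex.I_sq]
  have e : 2 * G + 1 + 1 = 2 * (G + 1) := by ring
  rw [e, pow_mul, neg_sq, mul_pow, h1, mul_pow, ← pow_mul]

theorem JNlimN_pow (G M : ℕ) (hM : 0 < M) :
    (((M : ℝ) ^ (((2 * G + 1 : ℕ) : ℝ) + 1 / 2 : ℝ) : ℝ) : ℂ) *
      ((M : ℂ) ^ (2 * G + 1 + 1) / (M : ℂ) ^ (2 * (2 * G + 1))) =
    (M : ℂ) ^ (2 * G + 2) * (M : ℂ) ^ (2 * G + 1) *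
      (((M : ℝ) ^ (-(3 / 2) - 4 * (G : ℝ) : ℝ) : ℝ) : ℂ) := by
  have hMp : (0 : ℝ) < M := by exact_mod_cast hM
  have h : (M : ℝ) ^ (((2 * G + 1 : ℕ) : ℝ) + 1 / 2 : ℝ) *
      ((M : ℝ) ^ (2 * G + 1 + 1) / (M : ℝ) ^ (2 * (2 * G + 1))) =
      (M : ℝ) ^ (2 * G + 2) * (M : ℝ) ^ (2 * G + 1) *
      (M : ℝ) ^ (-(3 / 2) - 4 * (G : ℝ) : ℝ) := by
    have a1 : (M : ℝ) ^ (2 * G + 1 + 1) = (M : ℝ) ^ (((2 * G + 1 + 1 : ℕ) : ℝ) : ℝ) :=
      (Real.rpow_natCast _ _).symm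
    have a2 : (M : ℝ) ^ (2 * (2 * G + 1)) = (M : ℝ) ^ (((2 * (2 * G + 1) : ℕ) : ℝ) : ℝ) :=
      (Real.rpow_natCast _ _).symm
    have a4 : (M : ℝ) ^ (2 * G + 1) = (M : ℝ) ^ (((2 * G + 1 : ℕ) : ℝ) : ℝ) :=
      (Real.rpow_natCast _ _).symm
    rw [a1, a2, a4, ← Real.rpow_sub hMp, ← Real.rpow_add hMp, ← Real.rpow_add hMp,
      ← Real.rpow_add hMp]
    congr 1
    push_cast
    ring
  have h' := congrArg (fun x : ℝ => (x : ℂ)) h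
  push_cast at h' ⊢
  exact h'

theorem JNlimN_alg (X E P D Q F W : ℂ) (h : P * Q⁻¹ = F⁻¹ * W⁻¹) :
    X * (E⁻¹ * P) * (D⁻¹ * Q⁻¹) = X / (F * D) / (W * E) := by
  calc X * (E⁻¹ * P) * (D⁻¹ * Q⁻¹) = X * E⁻¹ * D⁻¹ * (P * Q⁻¹) := by ring
    _ = X / (F * D) / (W * E) := by
      rw [h, div_div, div_eq_mul_inv, mul_inv, mul_inv, mul_inv]
      ring

theorem JC_lim (G : ℕ) (r : Fin (2 * G + 1 + 1) → ℤ) (y : Fin (2 * G + 1) → ℂ)
    (v : Fin (2 * G + 1 + 1) → ℂ) (hc : CritU r y v) (n g : ℕ) (hn : 2 ≤ n)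
    (hg : 1 ≤ g) (hgn : g ≤ n - 1) :
    ∃ κ : ℂ, κ ≠ 0 ∧ Tendsto (fun M : ℕ => JC r n g M / ((M : ℂ) ^ (4 * G) * Dg n g M) /
      (((M : ℝ) ^ (2 * (n : ℝ) - 5 / 2) : ℝ) *
        exp (M * (VN r y v - Real.pi * I * (∑ i, (r i : ℂ)) / 2)))) atTop (𝓝 κ) := by
  obtain ⟨k1, k2, l1, l2, hwin⟩ := win_exists n hn
  have hev : Even (2 * G + 1 + 1) := ⟨G + 1, by ring⟩
  obtain ⟨K, hK, hKlim⟩ := main_limN hev r y v hc n g hn hg hgn k1 k2 l1 l2 hwin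
  obtain ⟨C, hC, D, M0, hmain⟩ := JC_mainU r y v hc n g hn hg hgn
  obtain ⟨mi, hmi⟩ : ∃ mi : ℕ → ℂ, ∀ M, mi M = MI r n g M (fun j => (y j).im)
      (fun i => (v i).im) ((k1 M + bt n) / M - 1 / 2) ((k2 M + 1 + bt n) / M - 1 / 2)
      (rho n M (l2 M)) := ⟨_, fun _ => rfl⟩
  simp only [← hmi] at hKlim
  obtain ⟨R, hR⟩ : ∃ R : ℤ, R = ∑ i, r i := ⟨_, rfl⟩
  have hRC : ∑ i, (r i : ℂ) = (R : ℂ) := by rw [hR]; push_cast; rfl
  rw [← hR] at hmain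
  rw [hRC]
  obtain ⟨V, hV⟩ : ∃ V, V = VN r y v := ⟨_, rfl⟩
  rw [← hV] at hmain hKlim ⊢
  -- the denominators
  have hDlim : Tendsto (fun M : ℕ => Dg n g M * (M : ℝ) ^ (2 * n - 4)) atTop
      (𝓝 (((2 * Real.pi) ^ (g - 1) * (Nat.factorial (g - 1) : ℝ)) *
        ((2 * Real.pi) ^ (n - g - 1) * (Nat.factorial (n - g - 1) : ℝ)) *
        ((2 * Real.pi) ^ (n - 2) * (Nat.factorial (n - 2) : ℝ)))) := by
    refine (((S_lim (g - 1)).mul (S_lim (n - g - 1))).mul (S_lim (n - 2))).congr fun M => ?_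
    unfold Dg
    have e : 2 * n - 4 = (g - 1) + (n - g - 1) + (n - 2) := by omega
    rw [e, pow_add, pow_add]
    ring
  obtain ⟨c, hcd⟩ : ∃ c, c = ((2 * Real.pi) ^ (g - 1) * (Nat.factorial (g - 1) : ℝ)) *
        ((2 * Real.pi) ^ (n - g - 1) * (Nat.factorial (n - g - 1) : ℝ)) *
        ((2 * Real.pi) ^ (n - 2) * (Nat.factorial (n - 2) : ℝ)) := ⟨_, rfl⟩
  rw [← hcd] at hDlim
  have hc0 : 0 < c := by
    rw [hcd]
    positivity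
  have hDlimC : Tendsto (fun M : ℕ => (((Dg n g M * (M : ℝ) ^ (2 * n - 4))⁻¹ : ℝ) : ℂ)) atTop
      (𝓝 ((c⁻¹ : ℝ) : ℂ)) :=
    (Complex.continuous_ofReal.tendsto _).comp (hDlim.inv₀ hc0.ne')
  have hsgn : (((-1 : ℂ) ^ (n + 1)) ^ R) ≠ 0 :=
    zpow_ne_zero _ (pow_ne_zero _ (by norm_num))
  refine ⟨(-1) ^ (G + 1) * (((-1) ^ (n + 1)) ^ R * K) * ((c⁻¹ : ℝ) : ℂ),
    mul_ne_zero (mul_ne_zero (pow_ne_zero _ (by norm_num)) (mul_ne_zero hsgn hK))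
      (by exact_mod_cast (inv_pos.2 hc0).ne'), ?_⟩
  -- the main term
  have hmainlim := ((JNlimC_c1 n R).mul hKlim).const_mul ((-1 : ℂ) ^ (G + 1))
  -- the error
  have hcomp : ∀ᶠ M : ℕ in atTop, ‖JC r n g M * (exp (-(M * (V - Real.pi * I * R / 2))) *
      (((M : ℝ) ^ (-(3 / 2) - 4 * (G : ℝ) : ℝ) : ℝ) : ℂ)) -
      (-1) ^ (G + 1) * (c1 n M ^ R * exp (M * (Real.pi * I * R / 2)) *
        ((((M : ℝ) ^ (((2 * G + 1 : ℕ) : ℝ) + 1 / 2 : ℝ) : ℝ) : ℂ) *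
      ((M : ℂ) ^ (2 * G + 1 + 1) / (M : ℂ) ^ (2 * (2 * G + 1))) *
      exp (-M * V) * mi M))‖ ≤ C * (M : ℝ) ^ D * Real.exp (-(M / 500)) := by
    filter_upwards [hwin, eventually_ge_atTop M0, eventually_gt_atTop 0] with M hw hM0 hM
    have hMr : (1 : ℝ) ≤ M := by exact_mod_cast hM
    have hMp : (0 : ℝ) < M := by linarith
    have h1 := hmain M (k1 M) (k2 M) (l1 M) (l2 M) hM0 hw
    rw [← hmi, JNlimN_Th0] at h1
    have hsplit : exp (-(M * (V - Real.pi * I * R / 2))) =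
        exp (M * (Real.pi * I * R / 2)) * exp (-M * V) := by
      rw [← exp_add]
      congr 1
      ring
    have hEn : ‖exp (-(M * (V - Real.pi * I * R / 2))) *
        (((M : ℝ) ^ (-(3 / 2) - 4 * (G : ℝ) : ℝ) : ℝ) : ℂ)‖ ≤ Real.exp (-(M * V.re)) := by
      rw [norm_mul, Complex.norm_real, Real.norm_of_nonneg (by positivity), Complex.norm_exp]
      have e1 : (-((M : ℂ) * (V - Real.pi * I * R / 2))).re = -(M * V.re) := by
        have e2 : (V - Real.pi * I * R / 2 : ℂ) = V - ((Real.pi * R / 2 : ℝ) : ℂ) * I := by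
          push_cast
          ring
        rw [e2, Complex.neg_re, Complex.mul_re]
        simp
      rw [e1]
      have e3 : (M : ℝ) ^ (-(3 / 2) - 4 * (G : ℝ) : ℝ) ≤ 1 := by
        apply Real.rpow_le_one_of_one_le_of_nonpos hMr
        have : (0 : ℝ) ≤ G := Nat.cast_nonneg G
        linarith
      calc _ ≤ Real.exp (-(M * V.re)) * 1 :=
            mul_le_mul_of_nonneg_left e3 (Real.exp_pos _).le
        _ = _ := mul_one _
    have hrew : (-1) ^ (G + 1) * (c1 n M ^ R * exp (M * (Real.pi * I * R / 2)) *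
        ((((M : ℝ) ^ (((2 * G + 1 : ℕ) : ℝ) + 1 / 2 : ℝ) : ℝ) : ℂ) *
      ((M : ℂ) ^ (2 * G + 1 + 1) / (M : ℂ) ^ (2 * (2 * G + 1))) *
      exp (-M * V) * mi M)) =
      ((-1) ^ (G + 1) * (M : ℂ) ^ (2 * G + 2) * c1 n M ^ R * ((M : ℂ) ^ (2 * G + 1) * mi M)) *
      (exp (-(M * (V - Real.pi * I * R / 2))) *
        (((M : ℝ) ^ (-(3 / 2) - 4 * (G : ℝ) : ℝ) : ℝ) : ℂ)) := by
      rw [JNlimN_pow G M hM, hsplit]
      ring
    rw [hrew, ← sub_mul, norm_mul]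
    calc _ ≤ C * (M : ℝ) ^ D * Real.exp (M * (V.re - 1 / 500)) * Real.exp (-(M * V.re)) :=
          mul_le_mul h1 hEn (norm_nonneg _) (by positivity)
      _ = C * (M : ℝ) ^ D * Real.exp (-(M / 500)) := by
          rw [mul_assoc, ← Real.exp_add]
          congr 2
          ring
  have hdiff := squeeze_zero_norm' hcomp (JNlim_err C D)
  have hsum := hdiff.add hmainlim
  rw [zero_add] at hsum
  have hfin := (hsum.mul hDlimC)
  refine hfin.congr' ?_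
  filter_upwards [hwin, eventually_gt_atTop 0] with M hw hM
  have hMn : n ≤ M := by have := hw.big; omega
  have hMp : (0 : ℝ) < M := by exact_mod_cast hM
  obtain ⟨hDg, -⟩ := Reduce_Dg n g M hn hg hgn hMn
  have hDC : ((Dg n g M : ℝ) : ℂ) ≠ 0 := by exact_mod_cast hDg.ne'
  have hMC : (M : ℂ) ≠ 0 := by exact_mod_cast hM.ne'
  have hpow : (M : ℝ) ^ (-(3 / 2) - 4 * (G : ℝ) : ℝ) * ((M : ℝ) ^ (2 * n - 4))⁻¹ =
      ((M : ℝ) ^ (4 * G))⁻¹ * ((M : ℝ) ^ (2 * (n : ℝ) - 5 / 2))⁻¹ := by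
    rw [← Real.rpow_natCast (M : ℝ) (2 * n - 4), ← Real.rpow_natCast (M : ℝ) (4 * G),
      ← Real.rpow_neg hMp.le, ← Real.rpow_neg hMp.le, ← Real.rpow_neg hMp.le,
      ← Real.rpow_add hMp, ← Real.rpow_add hMp]
    congr 1
    rw [Nat.cast_sub (by omega)]
    push_cast
    ring
  have hpowC := congrArg (fun x : ℝ => (x : ℂ)) hpow
  simp only [ofReal_mul, ofReal_inv] at hpowC
  have e1 : exp (-(M * (V - Real.pi * I * R / 2))) =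
      (exp (M * (V - Real.pi * I * R / 2)))⁻¹ := exp_neg _
  rw [e1]
  have e2 : (((M : ℝ) ^ (4 * G) : ℝ) : ℂ) = (M : ℂ) ^ (4 * G) := by push_cast; rfl
  rw [e2] at hpowC
  rw [sub_add_cancel, mul_inv, ofReal_mul, ofReal_inv, ofReal_inv]
  exact JNlimN_alg _ _ _ _ _ _ _ hpowC

end Pool.Agent.H63.VC6
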