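import Pool.Agent.H63.VC5.Final5
import Pool.Agent.H63.VC6.CritI
import Pool.Agent.H63.VC6.CritE
import Pool.Agent.H63.VC6.JNlimN

/-! # Two-bridge knots with many twists in each twist region -/

namespace Pool.Agent.H63.VC6

open Pool.Agent.H63.VC hiding ext
open Pool.Agent.H63.VC3 Pool.Agent.H63.VC4 Pool.Agent.H63.VC5 Complex Filter Topology
open scoped BigOperators

theorem cv_critU (G : ℕ) (r : ℕ → ℤ) (y : Fin (2 * G + 1) → ℂ) (v : Fin (2 * G + 1 + 1) → ℂ)
    (hc : CritU (fun i : Fin (2 * G + 1 + 1) => r i) y v) :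
    ∃ Z : ℂ, IsComplexVolume (conway ((List.range (2 * G + 2)).map r)) (decide (r 0 < 0)) Z ∧
      Cg Z (2 * Real.pi * I * VN (fun i : Fin (2 * G + 1 + 1) => r i) y v) := by
  obtain ⟨Z, hZ, hZ'⟩ := cv_critI G r _ _ (critI_of_critN (2 * G + 1) r y v hc)
  rw [VI_eq] at hZ'
  exact ⟨Z, hZ, hZ'⟩

theorem final_chain6 (G : ℕ) (r : ℕ → ℤ) (h1 : ∀ i, i < 2 * G + 2 → 10 ≤ |r i|)
    (h2 : ∀ i, 1 ≤ i → i ≤ 2 * G → 20 ≤ |r i|) :
    ∃ V C : ℝ,
      IsGreatest (structureVolumes (conway ((List.range (2 * G + 2)).map r))) V ∧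
      (∃ Z : ℂ, IsComplexVolume (conway ((List.range (2 * G + 2)).map r)) (decide (r 0 < 0)) Z ∧
        ∃ k : ℤ, Z = I * (V + C * I) + k * (Real.pi : ℂ) ^ 2) ∧
    ∀ n a : ℕ, 2 ≤ n → 1 ≤ a → a ≤ n - 1 →
      Tendsto (fun N : ℕ => 2 * (Real.pi : ℂ) *
        Complex.log (suChain ((List.range (2 * G + 2)).map r) n N
          (exp (Real.pi * I / (N + a)))) / (N + 1)) atTop (𝓝 (V : ℂ)) ∧
      ∃ κ : ℂ, κ ≠ 0 ∧ Tendsto (fun N : ℕ => suChain ((List.range (2 * G + 2)).map r) n N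
          (exp (Real.pi * I / (N + a))) /
        ((((N : ℝ) + a) ^ (2 * (n : ℝ) - 5 / 2) : ℝ) *
          exp ((N + a) * (V + C * I) / (2 * Real.pi)))) atTop (𝓝 κ) := by
  obtain ⟨y, v, hc⟩ := critU_exists (m := 2 * G + 1) (by omega) (fun i => r i)
    (Final_hr G r h1 h2)
  have hgeo := geoN (2 * G + 1) r y v hc
  obtain ⟨Z, hZ, nZ, hnZ⟩ := cv_critU G r y v hc
  set W : ℂ := VN (fun i : Fin (2 * G + 1 + 1) => r i) y v with hW
  set σ : ℝ := ∑ i : Fin (2 * G + 1 + 1), (r i : ℝ) with hσ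
  refine ⟨2 * Real.pi * W.re, 2 * Real.pi * W.im - Real.pi ^ 2 * σ, hgeo,
    ⟨Z, hZ, nZ - ∑ i : Fin (2 * G + 1 + 1), r i, ?_⟩, fun n a hn ha han => ?_⟩
  · rw [hnZ]
    have e : W = (W.re : ℂ) + (W.im : ℂ) * I := (Complex.re_add_im _).symm
    have e2 : ((∑ i : Fin (2 * G + 1 + 1), r i : ℤ) : ℂ) = (σ : ℂ) := by
      rw [hσ]; push_cast; rfl
    rw [Int.cast_sub, e2]
    conv_lhs => rw [e]
    push_cast
    linear_combination (-2 * Real.pi * W.im + 2 * Real.pi * W.im +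
      (Real.pi : ℂ) ^ 2 * σ) * Complex.I_sq
  have hpi : (Real.pi : ℂ) ≠ 0 := by exact_mod_cast Real.pi_ne_zero
  obtain ⟨κ, hκ, hlim⟩ := JC_lim G (fun i => r i) y v hc n a hn ha han
  rw [← hW] at hlim
  -- the asymptotics
  have hasy : Tendsto (fun N : ℕ => suChain ((List.range (2 * G + 2)).map r) n N
      (exp (Real.pi * I / (N + a))) /
        ((((N : ℝ) + a) ^ (2 * (n : ℝ) - 5 / 2) : ℝ) *
          exp ((N + a) * ((2 * Real.pi * W.re : ℝ) +
            (2 * Real.pi * W.im - Real.pi ^ 2 * σ : ℝ) * I) / (2 * Real.pi)))) atTop (𝓝 κ) := by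
    have h2 := hlim.comp (tendsto_add_atTop_nat a)
    refine h2.congr' ?_
    filter_upwards [eventually_ge_atTop n] with N hN
    simp only [Function.comp]
    have hJ := chain_eq G r n a N hn ha han hN
    push_cast at hJ
    rw [hJ]
    congr 2
    · push_cast
      rfl
    · push_cast
      rfl
    · congr 1
      have e : W = (W.re : ℂ) + (W.im : ℂ) * I := (Complex.re_add_im _).symm
      have e2 : (∑ i : Fin (2 * G + 1 + 1), ((r i : ℤ) : ℂ)) = (σ : ℂ) := by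
        rw [hσ]; push_cast; rfl
      rw [e2]
      push_cast
      conv_lhs => rw [e]
      field_simp
      ring
  refine ⟨?_, κ, hκ, hasy⟩
  -- the limit of the logarithm
  have hnorm : Tendsto (fun N : ℕ => ‖suChain ((List.range (2 * G + 2)).map r) n N
      (exp (Real.pi * I / (N + a)))‖ / (((N + a : ℕ) : ℝ) ^ (2 * (n : ℝ) - 5 / 2) *
        Real.exp ((N + a : ℕ) * W.re))) atTop (𝓝 ‖κ‖) := by
    refine (hasy.norm).congr fun N => ?_
    rw [norm_div, norm_mul, Complex.norm_exp, Complex.norm_real, Real.norm_eq_abs,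
      abs_of_nonneg (by positivity)]
    congr 2
    · push_cast
      rfl
    · congr 1
      have e : ((N : ℂ) + a) * ((2 * Real.pi * W.re : ℝ) +
            (2 * Real.pi * W.im - Real.pi ^ 2 * σ : ℝ) * I) / (2 * Real.pi) =
          (((N : ℝ) + a) * W.re : ℝ) + (((N : ℝ) + a) * (W.im - Real.pi * σ / 2) : ℝ) * I := by
        push_cast
        field_simp
      rw [e]
      simp
  exact final_log _ a ha _ _ ‖κ‖ (norm_pos_iff.2 hκ) hnorm

end Pool.Agent.H63.VC6
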