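import Pool.Agent.H63.VC6.Defs
import Pool.Agent.H63.VC4.Hybrid

/-! # Iterated integrals over products of pieces -/

namespace Pool.Agent.H63.VC6

open Pool.Agent.H63.VC hiding ext
open Pool.Agent.H63.VC3 Pool.Agent.H63.VC4 Complex
open scoped BigOperators

theorem ItP_cons_continuous {m : ℕ} (w : ℂ) :
    Continuous (fun z : Fin m → ℂ => (Fin.cons w z : Fin (m + 1) → ℂ)) := by
  refine continuous_pi fun i => ?_
  refine Fin.cases ?_ (fun j => ?_) i
  · simpa using continuous_const
  · simp only [Fin.cons_succ]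
    exact continuous_apply j

theorem ItP_cons_continuous' {m : ℕ} :
    Continuous (fun q : (Fin m → ℂ) × ℂ => (Fin.cons q.2 q.1 : Fin (m + 1) → ℂ)) := by
  refine continuous_pi fun i => ?_
  refine Fin.cases ?_ (fun j => ?_) i
  · simpa using continuous_snd
  · simp only [Fin.cons_succ]
    exact (continuous_apply j).comp continuous_fst

theorem Piece_int_continuous {X : Type*} [TopologicalSpace X] (P : Piece) (hw : Continuous P.w)
    (hz : Continuous P.z) (F : X → ℂ → ℂ) (hF : Continuous (fun q : X × ℂ => F q.1 q.2)) :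
    Continuous (fun x => P.int (F x)) := by
  unfold Piece.int
  refine intervalIntegral.continuous_parametric_intervalIntegral_of_continuous' ?_ _ _
  show Continuous (fun q : X × ℝ => P.w q.2 * F q.1 (P.z q.2))
  exact (hw.comp continuous_snd).mul
    (hF.comp (continuous_fst.prodMk (hz.comp continuous_snd)))

theorem ItP_inner_continuous {m : ℕ} (P : Piece) (hw : Continuous P.w) (hz : Continuous P.z)
    (F : (Fin (m + 1) → ℂ) → ℂ) (hF : Continuous F) :
    Continuous (fun z : Fin m → ℂ => P.int (fun w => F (Fin.cons w z))) :=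
  Piece_int_continuous P hw hz (fun z w => F (Fin.cons w z)) (hF.comp ItP_cons_continuous')

theorem itP_sum {m : ℕ} {ι : Type*} (s : Finset ι) (P : Fin m → Piece)
    (hP : ∀ j, Continuous (P j).w ∧ Continuous (P j).z) (F : ι → (Fin m → ℂ) → ℂ)
    (hF : ∀ i ∈ s, Continuous (F i)) :
    itP P (fun z => ∑ i ∈ s, F i z) = ∑ i ∈ s, itP P (F i) := by
  induction m with
  | zero => rfl
  | succ m ih =>
    show itP (fun j => P j.succ)
      (fun z => (P 0).int (fun w => ∑ i ∈ s, F i (Fin.cons w z))) =
      ∑ i ∈ s, itP (fun j => P j.succ) (fun z => (P 0).int (fun w => F i (Fin.cons w z)))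
    rw [← ih (fun j => P j.succ) (fun j => hP j.succ)
      (fun i z => (P 0).int (fun w => F i (Fin.cons w z)))
      (fun i hi => ItP_inner_continuous (P 0) (hP 0).1 (hP 0).2 (F i) (hF i hi))]
    congr 1
    funext z
    unfold Piece.int
    simp only [Finset.mul_sum]
    refine intervalIntegral.integral_finsetSum fun i hi => ?_
    refine Continuous.intervalIntegrable ?_ _ _
    exact (hP 0).1.mul ((hF i hi).comp (ItP_cons_continuous'.comp
      (continuous_const.prodMk (hP 0).2)))

theorem itP_congr {m : ℕ} (P : Fin m → Piece) (S : Fin m → ℂ → Prop) (c : Fin m → ℝ)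
    (hP : ∀ j, (P j).ok (S j) (c j)) (F G : (Fin m → ℂ) → ℂ)
    (h : ∀ z : Fin m → ℂ, (∀ j, S j (z j)) → F z = G z) : itP P F = itP P G := by
  induction m with
  | zero => exact h _ fun j => j.elim0
  | succ m ih =>
    refine ih (fun j => P j.succ) (fun j => S j.succ) (fun j => c j.succ) (fun j => hP j.succ)
      _ _ fun z hz => ?_
    unfold Piece.int
    refine intervalIntegral.integral_congr fun s hs => ?_
    rw [Set.uIcc_of_le (hP 0).le] at hs
    simp only
    rw [h (Fin.cons ((P 0).z s) z) fun j => ?_]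
    refine Fin.cases ?_ (fun j => ?_) j
    · rw [Fin.cons_zero]
      exact (hP 0).mem s hs
    · rw [Fin.cons_succ]
      exact hz j

theorem ItP_int_bound (P : Piece) (S : ℂ → Prop) (c : ℝ) (hP : P.ok S c) (f : ℂ → ℂ) (A : ℝ)
    (hA0 : 0 ≤ A) (h : ∀ z, S z → ‖f z‖ ≤ A) : ‖P.int f‖ ≤ c * A := by
  unfold Piece.int
  rcases hP.le.eq_or_lt with he | hlt
  · rw [he, intervalIntegral.integral_same, norm_zero]
    have h1 := hP.bd P.β ⟨hP.le, le_rfl⟩
    rw [he, sub_self, mul_zero] at h1
    exact mul_nonneg h1 hA0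
  · have hd : 0 < P.β - P.α := by linarith
    have h1 : ∀ s ∈ Set.uIoc P.α P.β, ‖P.w s * f (P.z s)‖ ≤ c / (P.β - P.α) * A := by
      intro s hs
      rw [Set.uIoc_of_le hP.le] at hs
      have hs' : s ∈ Set.Icc P.α P.β := Set.Ioc_subset_Icc_self hs
      rw [norm_mul]
      have h2 : ‖P.w s‖ ≤ c / (P.β - P.α) := by
        rw [le_div_iff₀ hd]
        exact hP.bd s hs'
      exact mul_le_mul h2 (h _ (hP.mem s hs')) (norm_nonneg _)
        ((norm_nonneg _).trans h2)
    have h3 := intervalIntegral.norm_integral_le_of_norm_le_const h1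
    rw [abs_of_pos hd] at h3
    refine h3.trans (le_of_eq ?_)
    field_simp

theorem itP_bound {m : ℕ} (P : Fin m → Piece) (S : Fin m → ℂ → Prop) (c : Fin m → ℝ)
    (hP : ∀ j, (P j).ok (S j) (c j)) (F : (Fin m → ℂ) → ℂ) (A : ℝ) (hA0 : 0 ≤ A)
    (h : ∀ z : Fin m → ℂ, (∀ j, S j (z j)) → ‖F z‖ ≤ A) : ‖itP P F‖ ≤ (∏ j, c j) * A := by
  induction m generalizing A with
  | zero =>
    rw [Finset.univ_eq_empty, Finset.prod_empty, one_mul]
    exact h _ fun j => j.elim0
  | succ m ih =>
    have hc0 : 0 ≤ c 0 := by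
      have h1 := (hP 0).bd (P 0).α ⟨le_rfl, (hP 0).le⟩
      exact (mul_nonneg (norm_nonneg _) (by linarith [(hP 0).le])).trans h1
    have h1 := ih (fun j => P j.succ) (fun j => S j.succ) (fun j => c j.succ)
      (fun j => hP j.succ) (fun z => (P 0).int (fun w => F (Fin.cons w z))) (c 0 * A)
      (mul_nonneg hc0 hA0) (fun z hz => by
        refine ItP_int_bound (P 0) (S 0) (c 0) (hP 0) _ A hA0 fun w hw => ?_
        refine h _ fun j => ?_
        refine Fin.cases ?_ (fun j => ?_) j
        · rw [Fin.cons_zero]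
          exact hw
        · rw [Fin.cons_succ]
          exact hz j)
    refine h1.trans (le_of_eq ?_)
    rw [Fin.prod_univ_succ]
    ring

theorem itP_flat {m : ℕ} (M : ℕ) (y1 y2 : ℝ) (h12 : y1 ≤ y2) (Y : Fin m → ℝ)
    (F : (Fin m → ℂ) → ℂ) (hF : Continuous F) :
    itP (fun j => flatP M y1 y2 (Y j)) F =
      (M : ℂ) ^ m * ∫ x in Set.pi Set.univ (fun _ : Fin m => Set.Ioc y1 y2),
        F (fun j => x j + Y j * I) := by
  induction m with
  | zero =>
    have h2 : Set.pi Set.univ (fun _ : Fin 0 => Set.Ioc y1 y2) = Set.univ := by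
      ext t
      simp
    rw [h2]
    have h3 : ∀ z : Fin 0 → ℂ, F z = F Fin.elim0 := fun z => congrArg F (Subsingleton.elim _ _)
    simp only [h3]
    have h4 : MeasureTheory.volume.real (Set.univ : Set (Fin 0 → ℝ)) = 1 := by
      simp [MeasureTheory.Measure.real, MeasureTheory.volume_pi]
    simp [h4, itP]
  | succ m ih =>
    have hcw : Continuous (flatP M y1 y2 (Y 0)).w := continuous_const
    have hcz : Continuous (flatP M y1 y2 (Y 0)).z :=
      Complex.continuous_ofReal.add continuous_const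
    have h1 := ih (fun j => Y j.succ)
      (fun z => (flatP M y1 y2 (Y 0)).int (fun w => F (Fin.cons w z)))
      (ItP_inner_continuous _ hcw hcz F hF)
    have h2 := (Hybrid_int (fun x : Fin (m + 1) → ℝ => F (fun j => x j + Y j * I)) y1 y2
      (Hybrid_integrable F y1 y2 Y fun x _ => hF.continuousAt)).2
    show itP (fun j : Fin m => flatP M y1 y2 (Y j.succ))
      (fun z => (flatP M y1 y2 (Y 0)).int (fun w => F (Fin.cons w z))) = _
    rw [h1, h2, pow_succ, mul_assoc]
    congr 1
    rw [← MeasureTheory.integral_const_mul]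
    congr 1
    funext x'
    unfold Piece.int flatP
    rw [intervalIntegral.integral_of_le h12, ← MeasureTheory.integral_const_mul]
    congr 1
    funext x0
    have e : (Fin.cons ((x0 : ℂ) + Y 0 * I) (fun j => (x' j : ℂ) + Y j.succ * I) :
        Fin (m + 1) → ℂ) =
        fun j => (((Fin.cons x0 x' : Fin (m + 1) → ℝ) j : ℝ) : ℂ) + Y j * I := by
      funext j
      refine Fin.cases ?_ (fun j => ?_) j
      · rw [Fin.cons_zero, Fin.cons_zero]
      · rw [Fin.cons_succ, Fin.cons_succ]
    rw [← e]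

end Pool.Agent.H63.VC6
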