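import Pool.Agent.H63.VC6.Piece1D
import Pool.Agent.H63.VC6.ItP

/-! # Multiple sums as multiple integrals over product paths -/

namespace Pool.Agent.H63.VC6

open Pool.Agent.H63.VC hiding ext
open Pool.Agent.H63.VC3 Pool.Agent.H63.VC4 Complex
open scoped BigOperators

/-- Retraction onto a rectangle. -/
noncomputable def clp (y1 y2 η : ℝ) (z : ℂ) : ℂ :=
  ((max y1 (min y2 z.re) : ℝ) : ℂ) + ((max (-η) (min η z.im) : ℝ) : ℂ) * I

theorem clp_continuous (y1 y2 η : ℝ) : Continuous (clp y1 y2 η) := by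
  unfold clp
  refine Continuous.add ?_ (Continuous.mul ?_ continuous_const)
  · exact Complex.continuous_ofReal.comp
      (continuous_const.max (continuous_const.min Complex.continuous_re))
  · exact Complex.continuous_ofReal.comp
      (continuous_const.max (continuous_const.min Complex.continuous_im))

theorem Multi_clp_re (y1 y2 η : ℝ) (z : ℂ) : (clp y1 y2 η z).re = max y1 (min y2 z.re) := by
  unfold clp
  simp

theorem Multi_clp_im (y1 y2 η : ℝ) (z : ℂ) : (clp y1 y2 η z).im = max (-η) (min η z.im) := by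
  unfold clp
  simp

theorem clp_mem (y1 y2 η : ℝ) (h12 : y1 ≤ y2) (hη : 0 ≤ η) (z : ℂ) :
    y1 ≤ (clp y1 y2 η z).re ∧ (clp y1 y2 η z).re ≤ y2 ∧ |(clp y1 y2 η z).im| ≤ η := by
  rw [Multi_clp_re, Multi_clp_im]
  refine ⟨le_max_left _ _, max_le h12 (min_le_left _ _), ?_⟩
  rw [abs_le]
  exact ⟨le_max_left _ _, max_le (by linarith) (min_le_left _ _)⟩

theorem clp_eq (y1 y2 η : ℝ) (z : ℂ) (h1 : y1 ≤ z.re) (h2 : z.re ≤ y2) (h3 : |z.im| ≤ η) :
    clp y1 y2 η z = z := by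
  rw [abs_le] at h3
  apply Complex.ext
  · rw [Multi_clp_re, min_eq_right h2, max_eq_right h1]
  · rw [Multi_clp_im, min_eq_right h3.2, max_eq_right h3.1]

/-- Being in the rectangle. -/
def Multi_R (y1 y2 η : ℝ) (z : ℂ) : Prop := y1 ≤ z.re ∧ z.re ≤ y2 ∧ |z.im| ≤ η

theorem Multi_R_clp (y1 y2 η : ℝ) (h12 : y1 ≤ y2) (hη : 0 ≤ η) (z : ℂ) :
    Multi_R y1 y2 η (clp y1 y2 η z) := clp_mem y1 y2 η h12 hη z

theorem Multi_R_real (y1 y2 η : ℝ) (hη : 0 ≤ η) (x : ℝ) (h1 : y1 ≤ x) (h2 : x ≤ y2) :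
    Multi_R y1 y2 η (x : ℂ) := by
  refine ⟨by simpa using h1, by simpa using h2, by simpa using hη⟩

theorem Multi_R_cons {m : ℕ} (y1 y2 η : ℝ) (a : ℂ) (z : Fin m → ℂ) (ha : Multi_R y1 y2 η a)
    (hz : ∀ i, Multi_R y1 y2 η (z i)) (i : Fin (m + 1)) :
    Multi_R y1 y2 η ((Fin.cons a z : Fin (m + 1) → ℂ) i) := by
  refine Fin.cases ?_ (fun j => ?_) i
  · simpa using ha
  · simpa using hz j

theorem Multi_cont {m : ℕ} (F : (Fin m → ℂ) → ℂ) (y1 y2 η : ℝ) (h12 : y1 ≤ y2) (hη : 0 ≤ η)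
    (hF : ∀ z : Fin m → ℂ, (∀ i, Multi_R y1 y2 η (z i)) → ContinuousAt F z) :
    Continuous (fun z : Fin m → ℂ => F (fun j => clp y1 y2 η (z j))) := by
  rw [continuous_iff_continuousAt]
  intro z
  have hg : Continuous (fun z : Fin m → ℂ => (fun j => clp y1 y2 η (z j))) :=
    continuous_pi fun j => (clp_continuous y1 y2 η).comp (continuous_apply j)
  exact ContinuousAt.comp (f := fun z : Fin m → ℂ => (fun j => clp y1 y2 η (z j)))
    (hF _ (fun i => Multi_R_clp y1 y2 η h12 hη (z i))) hg.continuousAt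

theorem Multi_int_congr (P : Piece) (S : ℂ → Prop) (c : ℝ) (hP : P.ok S c) (f g : ℂ → ℂ)
    (h : ∀ z, S z → f z = g z) : P.int f = P.int g := by
  unfold Piece.int
  apply intervalIntegral.integral_congr
  intro s hs
  rw [Set.uIcc_of_le hP.le] at hs
  show P.w s * f (P.z s) = P.w s * g (P.z s)
  rw [h _ (hP.mem s hs)]

theorem Multi_cons_clp {m : ℕ} (y1 y2 η : ℝ) (a : ℂ) (z : Fin m → ℂ)
    (ha : Multi_R y1 y2 η a) :
    (Fin.cons a (fun j => clp y1 y2 η (z j)) : Fin (m + 1) → ℂ) =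
      fun j => clp y1 y2 η ((Fin.cons a z : Fin (m + 1) → ℂ) j) := by
  funext i
  refine Fin.cases ?_ (fun j => ?_) i
  · simp only [Fin.cons_zero]
    exact (clp_eq y1 y2 η a ha.1 ha.2.1 ha.2.2).symm
  · simp only [Fin.cons_succ]

theorem Multi_cons_cont {m : ℕ} :
    Continuous (fun p : (Fin m → ℂ) × ℂ => (Fin.cons p.2 p.1 : Fin (m + 1) → ℂ)) := by
  refine continuous_pi fun i => ?_
  refine Fin.cases ?_ (fun j => ?_) i
  · simpa using continuous_snd
  · simp only [Fin.cons_succ]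
    exact (continuous_apply j).comp continuous_fst

theorem Multi_sum_cons {m : ℕ} (G : (Fin (m + 1) → Fin 9) → ℂ) :
    ∑ q : Fin (m + 1) → Fin 9, G q =
      ∑ q' : Fin m → Fin 9, ∑ q0 : Fin 9, G (Fin.cons q0 q') := by
  rw [← (Fin.consEquiv (fun _ : Fin (m + 1) => Fin 9)).sum_comp, Fintype.sum_prod_type,
    Finset.sum_comm]
  rfl

/-- The multiple sum as a sum of iterated integrals. -/
theorem sum_multi {m : ℕ} (F : (Fin m → ℂ) → ℂ) (n M k1 k2 : ℕ) (η : ℝ) (y1 y2 : ℝ)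
    (h12 : y1 ≤ y2) (hη : 0 ≤ η) (P : Fin m → Fin 9 → Piece) (S : Fin m → Fin 9 → ℂ → Prop)
    (c : Fin m → Fin 9 → ℝ) (hP : ∀ j q, (P j q).ok (S j q) (c j q))
    (hS : ∀ j q z, S j q z → y1 ≤ z.re ∧ z.re ≤ y2 ∧ |z.im| ≤ η)
    (hk : ∀ k ∈ Finset.Icc k1 k2, y1 ≤ yk n M k ∧ yk n M k ≤ y2)
    (hsum : ∀ j, ∀ f : ℂ → ℂ, (∀ z : ℂ, y1 ≤ z.re → z.re ≤ y2 → |z.im| ≤ η →
      DifferentiableAt ℂ f z) → ∑ k ∈ Finset.Icc k1 k2, f (yk n M k) = ∑ q, (P j q).int f)
    (hF : ∀ z : Fin m → ℂ, (∀ i, y1 ≤ (z i).re ∧ (z i).re ≤ y2 ∧ |(z i).im| ≤ η) →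
      ContinuousAt F z ∧ ∀ j, DifferentiableAt ℂ (fun w => F (Function.update z j w)) (z j)) :
    ∑ t ∈ Fintype.piFinset (fun _ : Fin m => Finset.Icc k1 k2), F (fun j => yk n M (t j)) =
      ∑ q : Fin m → Fin 9, itP (fun j => P j (q j)) (fun z => F (fun j => clp y1 y2 η (z j))) := by
  induction m with
  | zero =>
    rw [Fintype.sum_unique]
    have h0 : Fintype.piFinset (fun _ : Fin 0 => Finset.Icc k1 k2) = {Fin.elim0} := by
      ext t
      rw [Fintype.mem_piFinset, Finset.mem_singleton]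
      exact ⟨fun _ => Subsingleton.elim _ _, fun _ a => a.elim0⟩
    rw [h0, Finset.sum_singleton]
    show _ = F (fun j => clp y1 y2 η ((Fin.elim0 : Fin 0 → ℂ) j))
    congr 1
    exact Subsingleton.elim _ _
  | succ m ih =>
    have hdiff : ∀ (a : ℂ) (z : Fin m → ℂ), Multi_R y1 y2 η a → (∀ i, Multi_R y1 y2 η (z i)) →
        ContinuousAt F (Fin.cons a z) ∧ ∀ j, DifferentiableAt ℂ
          (fun w => F (Function.update (Fin.cons a z : Fin (m + 1) → ℂ) j w))
          ((Fin.cons a z : Fin (m + 1) → ℂ) j) :=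
      fun a z ha hz => hF _ (Multi_R_cons y1 y2 η a z ha hz)
    have hyk : ∀ k ∈ Finset.Icc k1 k2, Multi_R y1 y2 η ((yk n M k : ℝ) : ℂ) :=
      fun k hk' => Multi_R_real y1 y2 η hη _ (hk k hk').1 (hk k hk').2
    rw [Hybrid_sum, Finset.sum_comm]
    have e1 : ∀ (t0 : ℕ) (t' : Fin m → ℕ),
        (fun j => ((yk n M ((Fin.cons t0 t' : Fin (m + 1) → ℕ) j) : ℝ) : ℂ)) =
          (Fin.cons ((yk n M t0 : ℝ) : ℂ) (fun j => ((yk n M (t' j) : ℝ) : ℂ)) :
            Fin (m + 1) → ℂ) := by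
      intro t0 t'
      funext i
      refine Fin.cases ?_ (fun j => ?_) i <;> rfl
    simp only [e1]
    have ih' := ih (fun z' => ∑ t0 ∈ Finset.Icc k1 k2, F (Fin.cons ((yk n M t0 : ℝ) : ℂ) z'))
      (fun j => P j.succ) (fun j => S j.succ) (fun j => c j.succ) (fun j => hP j.succ)
      (fun j => hS j.succ) (fun j => hsum j.succ) (by
        intro z hz
        refine ⟨?_, fun j => ?_⟩
        · refine tendsto_finsetSum _ fun t0 ht0 => ?_
          exact Hybrid_continuousAt F _ z (hdiff _ z (hyk t0 ht0) hz).1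
        · refine DifferentiableAt.fun_sum fun t0 ht0 => ?_
          have h1 := (hdiff _ z (hyk t0 ht0) hz).2 j.succ
          simp only [Hybrid_update, Fin.cons_succ] at h1
          exact h1)
    rw [ih', Multi_sum_cons]
    apply Finset.sum_congr rfl
    intro q' _
    have hcont : ∀ q0 : Fin 9, Continuous (fun z : Fin m → ℂ => (P 0 q0).int (fun w =>
        F (fun j => clp y1 y2 η ((Fin.cons w z : Fin (m + 1) → ℂ) j)))) := by
      intro q0
      apply Piece_int_continuous (P 0 q0) (hP 0 q0).cw (hP 0 q0).cz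
        (fun z w => F (fun j => clp y1 y2 η ((Fin.cons w z : Fin (m + 1) → ℂ) j)))
      exact (Multi_cont F y1 y2 η h12 hη (fun z hz => (hF z hz).1)).comp Multi_cons_cont
    have e2 : ∀ q0 : Fin 9, itP (fun j => P j ((Fin.cons q0 q' : Fin (m + 1) → Fin 9) j))
        (fun z => F (fun j => clp y1 y2 η (z j))) =
        itP (fun j => P j.succ (q' j)) (fun z => (P 0 q0).int (fun w =>
          F (fun j => clp y1 y2 η ((Fin.cons w z : Fin (m + 1) → ℂ) j)))) := fun q0 => rfl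
    simp only [e2]
    rw [← itP_sum Finset.univ (fun j => P j.succ (q' j))
      (fun j => ⟨(hP j.succ (q' j)).cw, (hP j.succ (q' j)).cz⟩) _ (fun q0 _ => hcont q0)]
    apply itP_congr (fun j => P j.succ (q' j)) (fun j => S j.succ (q' j)) (fun j => c j.succ (q' j))
      (fun j => hP j.succ (q' j))
    intro z _
    have hz' : ∀ i, Multi_R y1 y2 η (clp y1 y2 η (z i)) := fun i => Multi_R_clp y1 y2 η h12 hη (z i)
    have h2 := hsum 0 (fun w => F (Fin.cons w (fun j => clp y1 y2 η (z j)))) (by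
      intro w hw1 hw2 hw3
      have h3 := (hdiff w _ ⟨hw1, hw2, hw3⟩ hz').2 0
      simp only [Fin.update_cons_zero, Fin.cons_zero] at h3
      exact h3)
    show ∑ t0 ∈ Finset.Icc k1 k2, F (Fin.cons ((yk n M t0 : ℝ) : ℂ)
      (fun j => clp y1 y2 η (z j))) = _
    rw [h2]
    apply Finset.sum_congr rfl
    intro q0 _
    apply Multi_int_congr (P 0 q0) (S 0 q0) (c 0 q0) (hP 0 q0)
    intro w hw
    rw [Multi_cons_clp y1 y2 η w z (hS 0 q0 w hw)]

/-- The estimates of a multiple sum. -/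
theorem prodpath {m : ℕ} (F : (Fin m → ℂ) → ℂ) (n M k1 k2 : ℕ) (η : ℝ) (Y : Fin m → ℝ)
    (hM : 0 < M) (hk : k1 ≤ k2) (hη : 0 < η) (hη' : η ≤ 1) (hY : ∀ j, |Y j| ≤ η)
    (hM' : 1 ≤ 2 * Real.pi * η * M) (y1 y2 : ℝ) (hy1 : y1 = (k1 + bt n) / M - 1 / 2)
    (hy2 : y2 = (k2 + 1 + bt n) / M - 1 / 2) (hy : y2 - y1 ≤ 1) (A B : ℝ) (hA0 : 0 ≤ A)
    (hB0 : 0 ≤ B)
    (hF : ∀ z : Fin m → ℂ, (∀ i, y1 ≤ (z i).re ∧ (z i).re ≤ y2 ∧ |(z i).im| ≤ η) →
      ContinuousAt F z ∧ ∀ j, DifferentiableAt ℂ (fun w => F (Function.update z j w)) (z j))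
    (hA : ∀ (σ : Fin m → Fin 3) (z : Fin m → ℂ), (∀ j, Stt y1 y2 η (Y j) (σ j) (z j)) →
      ‖F z‖ ≤ A * ∏ j, dmp η M (σ j))
    (hB : ∀ (σ : Fin m → Fin 3) (z : Fin m → ℂ), (∃ j, σ j ≠ 0) →
      (∀ j, Stt y1 y2 η (Y j) (σ j) (z j)) → ‖F z‖ ≤ B * ∏ j, dmp η M (σ j)) :
    ‖∑ t ∈ Fintype.piFinset (fun _ : Fin m => Finset.Icc k1 k2), F (fun j => yk n M (t j))‖ ≤
      (18 * (M : ℝ)) ^ m * A ∧
    ‖∑ t ∈ Fintype.piFinset (fun _ : Fin m => Finset.Icc k1 k2), F (fun j => yk n M (t j)) -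
      (M : ℂ) ^ m * ∫ x in Set.pi Set.univ (fun _ : Fin m => Set.Ioc y1 y2),
        F (fun j => x j + Y j * I)‖ ≤ (18 * (M : ℝ)) ^ m * B := by
  have hM0 : (0 : ℝ) < M := by exact_mod_cast hM
  have hkk : (k1 : ℝ) ≤ k2 := by exact_mod_cast hk
  have h12 : y1 ≤ y2 := by
    rw [hy1, hy2]
    have : (k1 + bt n) / M ≤ (k2 + 1 + bt n) / M :=
      div_le_div_of_nonneg_right (by linarith) hM0.le
    linarith
  have hyk : ∀ k ∈ Finset.Icc k1 k2, y1 ≤ yk n M k ∧ yk n M k ≤ y2 := by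
    intro k hk'
    rw [Finset.mem_Icc] at hk'
    have h1 : (k1 : ℝ) ≤ k := by exact_mod_cast hk'.1
    have h2 : (k : ℝ) ≤ k2 := by exact_mod_cast hk'.2
    rw [hy1, hy2]
    unfold yk
    have h3 : (k1 + bt n) / M ≤ (k + bt n + 1 / 2) / M :=
      div_le_div_of_nonneg_right (by linarith) hM0.le
    have h4 : (k + bt n + 1 / 2) / M ≤ (k2 + 1 + bt n) / M :=
      div_le_div_of_nonneg_right (by linarith) hM0.le
    exact ⟨by linarith, by linarith⟩
  have hex := fun j => sum_pieces n M k1 k2 η (Y j) hM hk hη hη' (hY j) hM' y1 y2 hy1 hy2 hy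
  choose P hP0 hPok hPsum using hex
  have key := sum_multi F n M k1 k2 η y1 y2 h12 hη.le P
    (fun j q => Stt y1 y2 η (Y j) (knd q)) (fun _ q => 2 * M / dmp η M (knd q)) hPok
    (fun j q z hz => ⟨hz.1, hz.2.1, hz.2.2.1⟩) hyk hPsum hF
  have hdmp : ∀ σ : Fin 3, 0 < dmp η M σ := by
    intro σ
    unfold dmp
    split_ifs
    · exact Real.exp_pos _
    · exact one_pos
  have hclp : ∀ (q : Fin m → Fin 9) (z : Fin m → ℂ),
      (∀ j, Stt y1 y2 η (Y j) (knd (q j)) (z j)) → (fun j => clp y1 y2 η (z j)) = z := by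
    intro q z hz
    funext j
    exact clp_eq y1 y2 η (z j) (hz j).1 (hz j).2.1 (hz j).2.2.1
  have hprod : ∀ (q : Fin m → Fin 9) (A : ℝ),
      (∏ j, 2 * (M : ℝ) / dmp η M (knd (q j))) * (A * ∏ j, dmp η M (knd (q j))) =
        (2 * (M : ℝ)) ^ m * A := by
    intro q A
    rw [Finset.prod_div_distrib, Finset.prod_const, Finset.card_univ, Fintype.card_fin]
    have : ∏ j, dmp η M (knd (q j)) ≠ 0 := Finset.prod_ne_zero_iff.2 fun j _ => (hdmp _).ne'
    field_simp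
  have hbd : ∀ (q : Fin m → Fin 9) (A : ℝ), 0 ≤ A →
      (∀ z : Fin m → ℂ, (∀ j, Stt y1 y2 η (Y j) (knd (q j)) (z j)) →
        ‖F z‖ ≤ A * ∏ j, dmp η M (knd (q j))) →
      ‖itP (fun j => P j (q j)) (fun z => F (fun j => clp y1 y2 η (z j)))‖ ≤
        (2 * (M : ℝ)) ^ m * A := by
    intro q A hA h
    have h1 := itP_bound (fun j => P j (q j)) (fun j => Stt y1 y2 η (Y j) (knd (q j)))
      (fun j => 2 * (M : ℝ) / dmp η M (knd (q j))) (fun j => hPok j (q j))
      (fun z => F (fun j => clp y1 y2 η (z j))) (A * ∏ j, dmp η M (knd (q j)))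
      (mul_nonneg hA (Finset.prod_nonneg fun j _ => (hdmp _).le)) (by
        intro z hz
        show ‖F (fun j => clp y1 y2 η (z j))‖ ≤ _
        rw [hclp q z hz]
        exact h z hz)
    rw [hprod] at h1
    exact h1
  have hcard : ∀ A : ℝ, ∑ _q : Fin m → Fin 9, (2 * (M : ℝ)) ^ m * A = (18 * (M : ℝ)) ^ m * A := by
    intro A
    rw [Finset.sum_const, Finset.card_univ, Fintype.card_fun, Fintype.card_fin, Fintype.card_fin,
      nsmul_eq_mul]
    push_cast
    rw [← mul_assoc, ← mul_pow]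
    norm_num [← mul_assoc]
  refine ⟨?_, ?_⟩
  · rw [key]
    refine (norm_sum_le _ _).trans ?_
    rw [← hcard A]
    apply Finset.sum_le_sum
    intro q _
    exact hbd q A hA0 (fun z hz => hA (fun j => knd (q j)) z hz)
  · have hflat : itP (fun j => P j ((0 : Fin m → Fin 9) j))
        (fun z => F (fun j => clp y1 y2 η (z j))) =
        (M : ℂ) ^ m * ∫ x in Set.pi Set.univ (fun _ : Fin m => Set.Ioc y1 y2),
          F (fun j => x j + Y j * I) := by
      have e1 : (fun j => P j ((0 : Fin m → Fin 9) j)) = fun j => flatP M y1 y2 (Y j) := by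
        funext j
        exact hP0 j
      rw [e1, itP_flat M y1 y2 h12 Y _ (Multi_cont F y1 y2 η h12 hη.le (fun z hz => (hF z hz).1))]
      congr 1
      apply MeasureTheory.setIntegral_congr_fun
        (MeasurableSet.univ_pi fun _ => measurableSet_Ioc)
      intro x hx
      rw [Set.mem_univ_pi] at hx
      show F (fun j => clp y1 y2 η (x j + Y j * I)) = F (fun j => x j + Y j * I)
      congr 1
      funext j
      apply clp_eq
      · simpa using (hx j).1.le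
      · simpa using (hx j).2
      · simpa using hY j
    rw [key, ← Finset.add_sum_erase Finset.univ _ (Finset.mem_univ (0 : Fin m → Fin 9)), hflat,
      add_sub_cancel_left]
    refine (norm_sum_le _ _).trans ?_
    rw [← hcard B]
    have h1 : ∑ q ∈ Finset.univ.erase (0 : Fin m → Fin 9), (2 * (M : ℝ)) ^ m * B ≤
        ∑ _q : Fin m → Fin 9, (2 * (M : ℝ)) ^ m * B :=
      Finset.sum_le_sum_of_subset_of_nonneg (Finset.erase_subset _ _)
        (fun _ _ _ => by positivity)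
    refine le_trans (Finset.sum_le_sum fun q hq => ?_) h1
    have hq0 : q ≠ 0 := Finset.ne_of_mem_erase hq
    obtain ⟨j, hj⟩ : ∃ j, q j ≠ 0 := by
      by_contra hcon
      push Not at hcon
      exact hq0 (funext hcon)
    have hkj : knd (q j) ≠ 0 := by
      unfold knd
      rw [if_neg hj]
      split_ifs <;> decide
    exact hbd q B hB0 (fun z hz => hB (fun j => knd (q j)) z ⟨j, hkj⟩ hz)

end Pool.Agent.H63.VC6
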