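import Pool.Agent.H63.VC6.Defs
import Pool.Agent.H63.VC4.Hybrid

/-! # Chains as multiple sums -/

namespace Pool.Agent.H63.VC6

open Pool.Agent.H63.VC hiding ext
open Pool.Agent.H63.VC3 Pool.Agent.H63.VC4 Complex
open scoped BigOperators

theorem ChainRec_extb_cons {α : Type*} {p : ℕ} (u u' : Option α) (t0 : α) (t : Fin p → α)
    (k : Fin (p + 2)) :
    extb u u' (Fin.cons t0 t : Fin (p + 1) → α) k.succ = extb (some t0) u' t k := by
  refine Fin.cases ?_ (fun k => ?_) k
  · have h := extb_mid u u' (Fin.cons t0 t : Fin (p + 1) → α) (0 : Fin (p + 1))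
    rw [Fin.castSucc_zero] at h
    rw [h]
    rfl
  · refine Fin.lastCases ?_ (fun j => ?_) k
    · have h := extb_last u u' (Fin.cons t0 t : Fin (p + 1) → α)
      rw [← Fin.succ_last] at h
      rw [h, extb_last]
    · have h := extb_mid u u' (Fin.cons t0 t : Fin (p + 1) → α) j.succ
      rw [← Fin.succ_castSucc] at h
      rw [h, extb_mid, Fin.cons_succ]

theorem chn_eq (K : ℕ → Option ℕ → Option ℕ → ℂ) (c : ℕ → ℂ) (s : Finset ℕ) (i p : ℕ)
    (u u' : Option ℕ) :
    chn K c s i p u u' = ∑ t ∈ Fintype.piFinset (fun _ : Fin p => s),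
      (∏ j, c (t j)) * ∏ k : Fin (p + 1), K (i + k) (extb u u' t k.castSucc)
        (extb u u' t k.succ) := by
  induction p generalizing i u with
  | zero =>
    rw [show Fintype.piFinset (fun _ : Fin 0 => s) = {Fin.elim0} from ?_]
    · rw [Finset.sum_singleton, Fin.prod_univ_zero, one_mul, Fin.prod_univ_one]
      rw [extb_zero]
      have h := extb_last u u' (Fin.elim0 : Fin 0 → ℕ)
      rw [show (0 : Fin (0 + 1)).succ = (Fin.last 0).succ from rfl, h]
      rfl
    · ext t
      rw [Fintype.mem_piFinset, Finset.mem_singleton]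
      exact ⟨fun _ => Subsingleton.elim _ _, fun _ j => j.elim0⟩
  | succ p ih =>
    rw [Hybrid_sum]
    show ∑ t ∈ s, K i u (some t) * c t * chn K c s (i + 1) p (some t) u' = _
    refine Finset.sum_congr rfl fun t0 _ => ?_
    rw [ih, Finset.mul_sum]
    refine Finset.sum_congr rfl fun t _ => ?_
    have h1 : ∀ k : Fin (p + 1), K (i + ((k.succ : Fin (p + 2)) : ℕ))
        (extb u u' (Fin.cons t0 t : Fin (p + 1) → ℕ) k.succ.castSucc)
        (extb u u' (Fin.cons t0 t : Fin (p + 1) → ℕ) k.succ.succ) =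
        K (i + 1 + k) (extb (some t0) u' t k.castSucc) (extb (some t0) u' t k.succ) := by
      intro k
      rw [← Fin.succ_castSucc, ChainRec_extb_cons, ChainRec_extb_cons]
      congr 1
      rw [Fin.val_succ]
      ring
    have e1 : ∏ j : Fin (p + 1), c ((Fin.cons t0 t : Fin (p + 1) → ℕ) j) =
        c t0 * ∏ j, c (t j) := by
      rw [Fin.prod_univ_succ]
      rfl
    have e2 : ∏ k : Fin (p + 1 + 1), K (i + k)
        (extb u u' (Fin.cons t0 t : Fin (p + 1) → ℕ) k.castSucc)
        (extb u u' (Fin.cons t0 t : Fin (p + 1) → ℕ) k.succ) =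
        K i u (some t0) * ∏ k : Fin (p + 1),
          K (i + 1 + k) (extb (some t0) u' t k.castSucc) (extb (some t0) u' t k.succ) := by
      rw [Fin.prod_univ_succ, ChainRec_extb_cons, extb_zero, Finset.prod_congr rfl fun k _ => h1 k]
      rfl
    rw [e1, e2]
    ring

end Pool.Agent.H63.VC6
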