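import Pool.Agent.H63.VC6.SegCore
import Pool.Agent.H63.VC6.SegIdx
import Pool.Agent.H63.VC4.FLmainN

/-! # The sums over the vertices -/

namespace Pool.Agent.H63.VC6

open Pool.Agent.H63.VC hiding ext
open Pool.Agent.H63.VC3 Pool.Agent.H63.VC4 Complex
open scoped BigOperators

theorem FL_mainU {m : ℕ} (r : Fin (m + 1) → ℤ) (y : Fin m → ℂ) (v : Fin (m + 1) → ℂ)
    (hc : CritU r y v) (n g : ℕ) (hn : 2 ≤ n) (hg : 1 ≤ g) (hgn : g ≤ n - 1) :
    ∃ C : ℝ, 0 < C ∧ ∃ D M0 : ℕ, ∀ M k1 k2 l1 l2 : ℕ, M0 ≤ M → Win n M k1 k2 l1 l2 →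
    ‖∑ t ∈ Fintype.piFinset (fun _ : Fin m => Finset.Icc k1 k2),
        (∏ j, Cc n g M (yk n M (t j))) *
        ∏ i, FLo (r i) n M (ext (fun j => ((yk n M (t j) : ℝ) : ℂ)) i.castSucc)
          (ext (fun j => ((yk n M (t j) : ℝ) : ℂ)) i.succ) (rho n M l2) (v i).im -
      (M : ℂ) ^ m * MI r n g M (fun j => (y j).im) (fun i => (v i).im)
      ((k1 + bt n) / M - 1 / 2) ((k2 + 1 + bt n) / M - 1 / 2) (rho n M l2)‖ ≤
      C * (M : ℝ) ^ D * Real.exp (M * ((VN r y v).re - 1 / 500)) := by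
  obtain ⟨C, hC, M0, hB⟩ := seg_core r none none y v (CritU_all r y v hc) n g hn hg hgn
  have hTot := (Tot_all r y v).1
  refine ⟨C, hC, 3 * m, M0 + 100, ?_⟩
  intro M k1 k2 l1 l2 hM0 hw
  have hMpos : 0 < M := by omega
  obtain ⟨-, -, hkk, -, -, hρ1, hρ2⟩ := win_facts n M k1 k2 l1 l2 hn hw
  have hcore := hB M k1 k2 l1 l2 (by omega) hw none none
    ⟨⟨fun _ => rfl, fun _ => rfl⟩, fun x hx => absurd hx (by simp)⟩
    ⟨⟨fun _ => rfl, fun _ => rfl⟩, fun x hx => absurd hx (by simp)⟩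
  obtain ⟨ρ, hρ⟩ : ∃ ρ, ρ = rho n M l2 := ⟨_, rfl⟩
  obtain ⟨y1, hy1⟩ : ∃ y1 : ℝ, y1 = (k1 + bt n) / M - 1 / 2 := ⟨_, rfl⟩
  obtain ⟨y2, hy2⟩ : ∃ y2 : ℝ, y2 = (k2 + 1 + bt n) / M - 1 / 2 := ⟨_, rfl⟩
  have a1 : 1 / 4 - 55 / 1000 ≤ y1 := by rw [hy1]; exact hw.a1
  have a2 : y1 ≤ 1 / 4 - 54 / 1000 := by rw [hy1]; exact hw.a2
  have a3 : 1 / 4 + 54 / 1000 ≤ y2 := by rw [hy2]; exact hw.a3
  have a4 : y2 ≤ 1 / 4 + 55 / 1000 := by rw [hy2]; exact hw.a4
  rw [← hy1, ← hy2, ← hρ]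
  rw [← hy1, ← hy2] at hcore
  rw [← hρ] at hρ1 hρ2
  have hykm : ∀ t ∈ Fintype.piFinset (fun _ : Fin m => Finset.Icc k1 k2), ∀ j,
      195 / 1000 ≤ yk n M (t j) ∧ yk n M (t j) ≤ 305 / 1000 := by
    intro t ht j
    have h0 := Fintype.mem_piFinset.1 ht j
    rw [Finset.mem_Icc] at h0
    have h1 := (hkk (t j) h0.1 h0.2).1
    rw [abs_le] at h1
    constructor <;> linarith [h1.1, h1.2]
  refine FLmainN_diff y1 y2 ρ (by linarith) (by linarith)
    (Fintype.piFinset (fun _ : Fin m => Finset.Icc k1 k2))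
    (fun t => ∏ j, Cc n g M (yk n M (t j)))
    (fun t i a => KR (r i) n M (ext (fun j => ((yk n M (t j) : ℝ) : ℂ)) i.castSucc)
      (ext (fun j => ((yk n M (t j) : ℝ) : ℂ)) i.succ) (a + (v i).im * I) *
      om n M (a + (v i).im * I)) ?_
    (fun q => GI r n g M (fun j => q.1 j + (y j).im * I) (fun i => q.2 i + (v i).im * I)) ?_
    ((M : ℂ) ^ m) _ (by positivity) ?_
  · intro t ht i a ha
    have hare : |((a : ℂ) + (v i).im * I).re| ≤ 15 / 100 := by
      rw [FLmainN_re, abs_le]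
      constructor <;> linarith [ha.1, ha.2]
    have h1 := KR_continuousAt (r i) n M hMpos
      (ext (fun j => ((yk n M (t j) : ℝ) : ℂ)) i.castSucc)
      (ext (fun j => ((yk n M (t j) : ℝ) : ℂ)) i.succ) (a + (v i).im * I)
      (FLmainN_okS _ _ (fun j => by rw [ofReal_re]; exact hykm t ht j) hare _)
      (FLmainN_okS _ _ (fun j => by rw [ofReal_re]; exact hykm t ht j) hare _)
    have h2 := om_continuousAt n M (a + (v i).im * I) (FLmainN_ww_ne n M hMpos _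
      (by rw [FLmainN_im]; exact hc.imv i))
    have h3 : ContinuousAt (fun a : ℝ => (a : ℂ) + (v i).im * I) a := by fun_prop
    exact ((ContinuousAt.comp (f := fun a : ℝ => (a : ℂ) + (v i).im * I) h1 h3).mul
      (ContinuousAt.comp (f := fun a : ℝ => (a : ℂ) + (v i).im * I) h2 h3)).continuousWithinAt
  · intro q hq
    have hq1 : ∀ j, 195 / 1000 ≤ ((q.1 j : ℂ) + (y j).im * I).re ∧
        ((q.1 j : ℂ) + (y j).im * I).re ≤ 305 / 1000 := by
      intro j
      have := Set.mem_univ_pi.1 hq.1 j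
      rw [FLmainN_re]
      constructor <;> linarith [this.1, this.2]
    have hq2 : ∀ i, |((q.2 i : ℂ) + (v i).im * I).re| ≤ 15 / 100 := by
      intro i
      have := Set.mem_univ_pi.1 hq.2 i
      rw [FLmainN_re, abs_le]
      constructor <;> linarith [this.1, this.2]
    have e1 := GI_continuousAt r n g M hg hgn hw.big (fun j => q.1 j + (y j).im * I)
      (fun i => q.2 i + (v i).im * I)
      (fun j => by
        have := hq1 j
        constructor <;> linarith)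
      (fun i => ⟨FLmainN_okS _ _ hq1 (hq2 i) _, FLmainN_okS _ _ hq1 (hq2 i) _⟩)
      (fun i => FLmainN_ww_ne n M hMpos _ (by rw [FLmainN_im]; exact hc.imv i))
    refine ContinuousAt.continuousWithinAt ?_
    refine ContinuousAt.comp (f := fun q : (Fin m → ℝ) × (Fin (m + 1) → ℝ) =>
      ((fun j => q.1 j + (y j).im * I, fun i => q.2 i + (v i).im * I) :
        (Fin m → ℂ) × (Fin (m + 1) → ℂ)))
      (g := fun z : (Fin m → ℂ) × (Fin (m + 1) → ℂ) => GI r n g M z.1 z.2) e1 ?_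
    fun_prop
  · intro a ha
    have h1 := (hcore a (fun i => by
        have := ha i
        rw [abs_le]
        constructor <;> linarith [this.1, this.2])).2
    have h2 : Real.exp (M * (vs ((none : Option ℝ).map fun x => (x : ℂ)) +
        vs ((none : Option ℝ).map fun x => (x : ℂ)))) = 1 := by
      show Real.exp (M * ((0 : ℝ) + 0)) = 1
      rw [add_zero, mul_zero, Real.exp_zero]
    have h3 : (ns (none : Option ℂ) : ℝ) = 0 := rfl
    rw [h2, one_mul, hTot, h3, add_zero, mul_zero, add_zero] at h1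
    exact h1

end Pool.Agent.H63.VC6
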