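import Pool.Agent.H63.VC6.SlotU

/-! # A lower bound of the contribution of a region -/

namespace Pool.Agent.H63.VC6

open Pool.Agent.H63.VC hiding ext
open Pool.Agent.H63.VC3 Pool.Agent.H63.VC4 Complex
open scoped BigOperators

/-- The lower bound of a slot. -/
theorem LstLow_slot (r : ℤ) (u : Option ℂ) (v : ℂ) (hr : 10 ≤ |(r : ℝ)|) (hv : vloc v)
    (hu : ∀ z ∈ u, yloc z ∧ |kap z v| ≤ 72 / 1000) :
    ns u * (4 * Fr (3 / 4) - 53 / 200 * Real.pi * (1 / (r : ℝ) ^ 2) - 432 / 1000000) ≤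
      (po u v).re + vs u + (-(1 / (2 * (r : ℝ))) - v.re) * (dpo u v).re := by
  cases u with
  | none => simp [po, dpo, ns, vs]
  | some y =>
    obtain ⟨hy, hk⟩ := hu y rfl
    obtain ⟨b, hb⟩ : ∃ b, b = -(1 / (2 * (r : ℝ))) := ⟨_, rfl⟩
    have hne : (r : ℝ) ≠ 0 := by
      intro h0
      rw [h0, abs_zero] at hr
      norm_num at hr
    have s1 : |b| ≤ 1 / 20 := by
      rw [hb, abs_neg, abs_div, abs_one, abs_mul, abs_two]
      apply one_div_le_one_div_of_le (by norm_num)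
      linarith
    have hb2 : b ^ 2 = 1 / 4 * (1 / (r : ℝ) ^ 2) := by rw [hb]; field_simp; norm_num
    rw [← hb]
    obtain ⟨a1, a2⟩ := abs_le.1 s1
    have h0 := slot_horiz y v (1 / 4) b hy hv (by norm_num) (s1.trans (by norm_num))
    have g0 := (ff_vert_right (3 / 4) y.im (by norm_num) (by norm_num)).1
    have e0 : (((3 / 4 : ℝ)) : ℂ) + y.im * I = ((1 / 4 : ℝ) : ℂ) + y.im * I + 1 / 2 := by
      push_cast; ring
    rw [e0] at g0
    have g1 := (ff_vert_left (1 / 4 - b) (y.im - v.im) (by linarith) (by linarith)).2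
    have g2 := (ff_vert_left (1 / 4 + b) (y.im + v.im) (by linarith) (by linarith)).2
    have f1 := Fr_quarter b s1
    have e1 : ((1 / 4 - b : ℝ) : ℂ) + (y.im - v.im : ℝ) * I =
        ((1 / 4 : ℝ) : ℂ) + y.im * I - (b + v.im * I) := by
      push_cast; ring
    have e2 : ((1 / 4 + b : ℝ) : ℂ) + (y.im + v.im : ℝ) * I =
        ((1 / 4 : ℝ) : ℂ) + y.im * I + (b + v.im * I) := by
      push_cast; ring
    rw [e1] at g1
    rw [e2] at g2
    rw [hb2] at f1
    have r2 : ∀ z : ℂ, (2 * z).re = 2 * z.re := fun z => by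
      simp only [mul_re, re_ofNat, im_ofNat, zero_mul, sub_zero]
    have hkx : kap y v * (1 / 4 - y.re) ≤ 432 / 1000000 := by
      have h1 : |kap y v * (1 / 4 - y.re)| ≤ 72 / 1000 * (6 / 1000) := by
        rw [abs_mul]
        apply mul_le_mul hk _ (abs_nonneg _) (by norm_num)
        rw [abs_sub_comm]
        exact hy.1
      have h2 := le_abs_self (kap y v * (1 / 4 - y.re))
      linarith
    have hsq : 0 ≤ (1 / 4 - y.re) ^ 2 := sq_nonneg _
    simp only [ns, one_mul, po, dpo, vs, sub_re, neg_re, r2] at h0 ⊢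
    linarith

theorem lst_low (r : ℤ) (u u' : Option ℂ) (v : ℂ) (c : ℝ) (hc : c = 1 ∨ c = 2)
    (hn : ns u + ns u' = c) (hr : 10 * c ≤ |(r : ℝ)|) (hv : vloc v)
    (hu : ∀ z ∈ u, yloc z ∧ |kap z v| ≤ 72 / 1000) (hu' : ∀ z ∈ u', yloc z ∧ |kap z v| ≤ 72 / 1000)
    (ev : 2 * Real.pi * I * (2 * r * v + 1) + dpo u v + dpo u' v = 0) :
    4 * c * Fr (3 / 4) - 88 / 10000 ≤ Lst r u u' v := by
  have hc1 : 1 ≤ c := by rcases hc with h | h <;> rw [h] <;> norm_num
  have hr10 : 10 ≤ |(r : ℝ)| := by linarith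
  have h1 := LstLow_slot r u v hr10 hv hu
  have h2 := LstLow_slot r u' v hr10 hv hu'
  have hne : (r : ℝ) ≠ 0 := by
    intro h0
    rw [h0, abs_zero] at hr10
    norm_num at hr10
  have k2 := congrArg Complex.re ev
  rw [add_re, add_re, Conc_lin, zero_re] at k2
  have k3 : (-(1 / (2 * (r : ℝ))) - v.re) * (dpo u v).re +
      (-(1 / (2 * (r : ℝ))) - v.re) * (dpo u' v).re =
      -(2 * Real.pi * (2 * r * v.re * v.im + v.im)) := by
    have h3 : (dpo u v).re + (dpo u' v).re = 2 * Real.pi * (2 * r * v.im) := by linarith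
    rw [← mul_add, h3]
    field_simp
    ring
  have hrr : 1 / (r : ℝ) ^ 2 ≤ 1 / (10 * c) ^ 2 := by
    apply one_div_le_one_div_of_le (by positivity)
    rw [← sq_abs (r : ℝ)]
    exact pow_le_pow_left₀ (by linarith) hr 2
  have hpi := Real.pi_lt_d4
  have hpi0 := Real.pi_pos
  have hrr0 : 0 ≤ 1 / (r : ℝ) ^ 2 := by positivity
  have hpp : Real.pi * (1 / (r : ℝ) ^ 2) ≤ 3.1416 * (1 / (10 * c) ^ 2) :=
    mul_le_mul (by linarith) hrr hrr0 (by norm_num)
  have hfin : c * (53 / 200 * (3.1416 * (1 / (10 * c) ^ 2)) + 432 / 1000000) ≤ 88 / 10000 := by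
    rcases hc with h | h <;> rw [h] <;> norm_num
  have hsum : c * (4 * Fr (3 / 4) - 53 / 200 * Real.pi * (1 / (r : ℝ) ^ 2) - 432 / 1000000) =
      ns u * (4 * Fr (3 / 4) - 53 / 200 * Real.pi * (1 / (r : ℝ) ^ 2) - 432 / 1000000) +
      ns u' * (4 * Fr (3 / 4) - 53 / 200 * Real.pi * (1 / (r : ℝ) ^ 2) - 432 / 1000000) := by
    rw [← hn]; ring
  have hmul : c * (53 / 200 * (Real.pi * (1 / (r : ℝ) ^ 2)) + 432 / 1000000) ≤
      c * (53 / 200 * (3.1416 * (1 / (10 * c) ^ 2)) + 432 / 1000000) := by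
    apply mul_le_mul_of_nonneg_left _ (by linarith)
    linarith
  unfold Lst WN
  rw [add_re, add_re, Conc_phase]
  linarith

end Pool.Agent.H63.VC6
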