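import Pool.Agent.H63.VC3.AbelPlana
import Pool.Agent.H63.VC6.Defs

/-! # A sum as a sum of integrals -/

namespace Pool.Agent.H63.VC6

open Pool.Agent.H63.VC hiding ext
open Pool.Agent.H63.VC3 Pool.Agent.H63.VC4 Complex
open scoped BigOperators

theorem Piece1D_exp (x t : ℝ) :
    exp (2 * Real.pi * I * ((x : ℂ) + t * I)) =
      exp (2 * Real.pi * I * x) * ((Real.exp (-(2 * Real.pi * t)) : ℝ) : ℂ) := by
  rw [Complex.ofReal_exp, ← Complex.exp_add]
  congr 1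
  push_cast
  linear_combination (2 * Real.pi * t) * Complex.I_sq

theorem Piece1D_norm_exp (z : ℂ) :
    ‖exp (2 * Real.pi * I * z)‖ = Real.exp (-(2 * Real.pi * z.im)) := by
  rw [Complex.norm_exp]
  congr 1
  simp

theorem Piece1D_neg_half : exp (2 * Real.pi * I * ((-(1 / 2) : ℝ) : ℂ)) = -1 := by
  have : (2 * Real.pi * I * ((-(1 / 2) : ℝ) : ℂ)) = -(Real.pi * I) := by
    push_cast; ring
  rw [this, Complex.exp_neg, Complex.exp_pi_mul_I]
  norm_num

theorem Piece1D_pos_half (m : ℕ) :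
    exp (2 * Real.pi * I * ((m + 1 / 2 : ℝ) : ℂ)) = -1 := by
  have : (2 * Real.pi * I * ((m + 1 / 2 : ℝ) : ℂ)) = Real.pi * I + m * (2 * Real.pi * I) := by
    push_cast; ring
  rw [this, Complex.exp_add, Complex.exp_pi_mul_I, Complex.exp_nat_mul,
    Complex.exp_two_pi_mul_I, one_pow, mul_one]

theorem Piece1D_alg {g e : ℂ} (h : 1 - e ≠ 0) : g / (1 - e) - g = e / (1 - e) * g := by
  field_simp
  ring

/-- The kernel on the sides. -/
noncomputable def Piece1D_ker (c t : ℝ) : ℂ := I / (1 + (Real.exp (c * t) : ℝ))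

theorem Piece1D_ker_ne (c t : ℝ) : (1 + (Real.exp (c * t) : ℝ) : ℂ) ≠ 0 := by
  have : (1 + (Real.exp (c * t) : ℝ) : ℂ) = ((1 + Real.exp (c * t) : ℝ) : ℂ) := by
    push_cast; rfl
  rw [this]
  exact_mod_cast (by positivity : (1 + Real.exp (c * t)) ≠ 0)

theorem Piece1D_ker_cont (c : ℝ) : Continuous (Piece1D_ker c) := by
  unfold Piece1D_ker
  exact Continuous.div (by fun_prop) (by fun_prop) (Piece1D_ker_ne c)

theorem Piece1D_ker_norm (c t : ℝ) : ‖Piece1D_ker c t‖ ≤ 1 := by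
  unfold Piece1D_ker
  have h1 : (1 + (Real.exp (c * t) : ℝ) : ℂ) = ((1 + Real.exp (c * t) : ℝ) : ℂ) := by
    push_cast; rfl
  have h2 := Real.exp_pos (c * t)
  rw [h1, norm_div, Complex.norm_I, Complex.norm_real, Real.norm_eq_abs,
    abs_of_pos (by linarith), div_le_one (by linarith)]
  linarith

/-- The kernels on the lines. -/
noncomputable def Piece1D_kp (a H x : ℝ) : ℂ :=
  exp (2 * Real.pi * I * (x + H * I - a)) / (1 - exp (2 * Real.pi * I * (x + H * I - a)))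

noncomputable def Piece1D_km (a H x : ℝ) : ℂ :=
  1 / (exp (2 * Real.pi * I * (x - H * I - a)) - 1)

theorem Piece1D_eps {H : ℝ} (hH : 1 ≤ 2 * Real.pi * H) : Real.exp (-(2 * Real.pi * H)) ≤ 1 / 2 := by
  have h1 : Real.exp (-(2 * Real.pi * H)) ≤ Real.exp (-1) := Real.exp_le_exp.2 (by linarith)
  have h2 : Real.exp (-1) * Real.exp 1 = 1 := by rw [← Real.exp_add]; simp
  have h3 : (2 : ℝ) ≤ Real.exp 1 := by
    have := Real.add_one_le_exp (1 : ℝ)
    linarith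
  have h4 : 0 < Real.exp (-1) := Real.exp_pos _
  nlinarith

theorem Piece1D_np (a H x : ℝ) : ‖exp (2 * Real.pi * I * (x + H * I - a))‖ =
    Real.exp (-(2 * Real.pi * H)) := by
  rw [Piece1D_norm_exp]
  have : (x + H * I - a : ℂ).im = H := by simp
  rw [this]

theorem Piece1D_nm (a H x : ℝ) : ‖exp (2 * Real.pi * I * (x - H * I - a))‖ =
    1 / Real.exp (-(2 * Real.pi * H)) := by
  rw [Piece1D_norm_exp]
  have : (x - H * I - a : ℂ).im = -H := by simp
  rw [this, one_div, ← Real.exp_neg]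
  congr 1
  ring

theorem Piece1D_dp {a H : ℝ} (hH : 1 ≤ 2 * Real.pi * H) (x : ℝ) :
    1 / 2 ≤ ‖1 - exp (2 * Real.pi * I * (x + H * I - a))‖ := by
  have h3 := norm_sub_norm_le 1 (exp (2 * Real.pi * I * (x + H * I - a)))
  rw [Piece1D_np, norm_one] at h3
  have := Piece1D_eps hH
  linarith

theorem Piece1D_dp_ne {a H : ℝ} (hH : 1 ≤ 2 * Real.pi * H) (x : ℝ) :
    1 - exp (2 * Real.pi * I * (x + H * I - a)) ≠ 0 := by
  intro h0
  have := Piece1D_dp (a := a) hH x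
  rw [h0, norm_zero] at this
  norm_num at this

theorem Piece1D_dm {a H : ℝ} (hH : 1 ≤ 2 * Real.pi * H) (x : ℝ) :
    1 / (2 * Real.exp (-(2 * Real.pi * H))) ≤
      ‖exp (2 * Real.pi * I * (x - H * I - a)) - 1‖ := by
  have h3 := norm_sub_norm_le (exp (2 * Real.pi * I * (x - H * I - a))) 1
  rw [Piece1D_nm, norm_one] at h3
  refine le_trans ?_ h3
  have hε := Piece1D_eps hH
  have hε0 := Real.exp_pos (-(2 * Real.pi * H))
  generalize Real.exp (-(2 * Real.pi * H)) = ε at hε hε0 ⊢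
  have h4 : 1 / ε = 1 / (2 * ε) + 1 / (2 * ε) := by field_simp; norm_num
  have h5 : 1 ≤ 1 / (2 * ε) := by
    rw [le_div_iff₀ (by positivity)]
    linarith
  linarith

theorem Piece1D_dm_ne {a H : ℝ} (hH : 1 ≤ 2 * Real.pi * H) (x : ℝ) :
    exp (2 * Real.pi * I * (x - H * I - a)) - 1 ≠ 0 := by
  intro h0
  have := Piece1D_dm (a := a) hH x
  rw [h0, norm_zero] at this
  have h1 : 0 < 1 / (2 * Real.exp (-(2 * Real.pi * H))) := by positivity
  linarith

theorem Piece1D_kp_cont {a H : ℝ} (hH : 1 ≤ 2 * Real.pi * H) : Continuous (Piece1D_kp a H) := by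
  unfold Piece1D_kp
  exact Continuous.div (by fun_prop) (by fun_prop) (Piece1D_dp_ne hH)

theorem Piece1D_km_cont {a H : ℝ} (hH : 1 ≤ 2 * Real.pi * H) : Continuous (Piece1D_km a H) := by
  unfold Piece1D_km
  exact Continuous.div (by fun_prop) (by fun_prop) (Piece1D_dm_ne hH)

theorem Piece1D_kp_norm {a H : ℝ} (hH : 1 ≤ 2 * Real.pi * H) (x : ℝ) :
    ‖Piece1D_kp a H x‖ ≤ 2 * Real.exp (-(2 * Real.pi * H)) := by
  unfold Piece1D_kp
  have h1 := Piece1D_dp (a := a) hH x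
  rw [norm_div, Piece1D_np, div_le_iff₀ (by linarith)]
  have := Real.exp_pos (-(2 * Real.pi * H))
  nlinarith

theorem Piece1D_km_norm {a H : ℝ} (hH : 1 ≤ 2 * Real.pi * H) (x : ℝ) :
    ‖Piece1D_km a H x‖ ≤ 2 * Real.exp (-(2 * Real.pi * H)) := by
  unfold Piece1D_km
  have h1 := Piece1D_dm (a := a) hH x
  have hε0 := Real.exp_pos (-(2 * Real.pi * H))
  have h2 : 0 < 1 / (2 * Real.exp (-(2 * Real.pi * H))) := by positivity
  rw [norm_div, norm_one]
  calc 1 / ‖exp (2 * Real.pi * I * (x - H * I - a)) - 1‖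
      ≤ 1 / (1 / (2 * Real.exp (-(2 * Real.pi * H)))) := one_div_le_one_div_of_le h2 h1
    _ = 2 * Real.exp (-(2 * Real.pi * H)) := by rw [one_div_one_div]

/-- The nine pieces. -/
noncomputable def Piece1D_P (n M : ℕ) (a b η Y y1 y2 : ℝ) : Fin 9 → Piece :=
  ![flatP M y1 y2 Y,
    ⟨0, η * M, Piece1D_ker (-(2 * Real.pi)), fun t => y1 + ((t / M : ℝ) : ℂ) * I⟩,
    ⟨0, η * M, fun t => -Piece1D_ker (-(2 * Real.pi)) t, fun t => y2 + ((t / M : ℝ) : ℂ) * I⟩,
    ⟨0, η * M, Piece1D_ker (2 * Real.pi), fun t => y1 + ((-(t / M) : ℝ) : ℂ) * I⟩,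
    ⟨0, η * M, fun t => -Piece1D_ker (2 * Real.pi) t, fun t => y2 + ((-(t / M) : ℝ) : ℂ) * I⟩,
    ⟨Y, η, fun _ => M * I, fun t => y2 + t * I⟩,
    ⟨Y, η, fun _ => -(M * I), fun t => y1 + t * I⟩,
    ⟨a, b, Piece1D_kp (a + 1 / 2) (η * M), fun x =>
      (((x + bt n + 1 / 2) / M - 1 / 2 : ℝ) : ℂ) + η * I⟩,
    ⟨a, b, Piece1D_km (a + 1 / 2) (η * M), fun x =>
      (((x + bt n + 1 / 2) / M - 1 / 2 : ℝ) : ℂ) + ((-η : ℝ) : ℂ) * I⟩]

theorem Piece1D_side {α β y1 y2 η Y c : ℝ} {M : ℕ} {w z : ℝ → ℂ} (hle : α ≤ β)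
    (cw : Continuous w) (cz : Continuous z) (hy : y1 ≤ y2)
    (hm : ∀ s, α ≤ s → s ≤ β → ((z s).re = y1 ∨ (z s).re = y2) ∧ |(z s).im| ≤ η)
    (hw : ∀ s, ‖w s‖ ≤ c) (hb : c * (β - α) ≤ 2 * M) :
    (Piece.mk α β w z).ok (Stt y1 y2 η Y 1) (2 * M / dmp η M 1) := by
  refine ⟨hle, cw, cz, ?_, ?_⟩
  · intro s hs
    obtain ⟨h1, h2⟩ := hm s hs.1 hs.2
    refine ⟨?_, ?_, h2, ?_, fun _ => h1, ?_⟩
    · rcases h1 with h1 | h1 <;> rw [h1]
      exact hy
    · rcases h1 with h1 | h1 <;> rw [h1]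
      exact hy
    · intro h; exact absurd h (by decide)
    · intro h; exact absurd h (by decide)
  · intro s _
    have h1 : dmp η M 1 = 1 := if_neg (by decide)
    rw [h1, div_one]
    exact (mul_le_mul_of_nonneg_right (hw s) (by simpa using hle)).trans hb

theorem Piece1D_line {α β y1 y2 η Y : ℝ} {M : ℕ} {w z : ℝ → ℂ} (hle : α ≤ β)
    (cw : Continuous w) (cz : Continuous z) (hη : 0 < η)
    (hm : ∀ s, α ≤ s → s ≤ β → y1 ≤ (z s).re ∧ (z s).re ≤ y2 ∧ |(z s).im| = η)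
    (hw : ∀ s, ‖w s‖ ≤ 2 * Real.exp (-(2 * Real.pi * (η * M)))) (hb : β - α ≤ M) :
    (Piece.mk α β w z).ok (Stt y1 y2 η Y 2) (2 * M / dmp η M 2) := by
  refine ⟨hle, cw, cz, ?_, ?_⟩
  · intro s hs
    obtain ⟨h1, h2, h3⟩ := hm s hs.1 hs.2
    refine ⟨h1, h2, h3.le, ?_, ?_, fun _ => h3⟩
    · intro h; exact absurd h (by decide)
    · intro h; exact absurd h (by decide)
  · intro s _
    have h1 : dmp η M 2 = Real.exp (2 * Real.pi * η * M) := if_pos rfl
    rw [h1, div_eq_mul_inv, ← Real.exp_neg]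
    have h2 : -(2 * Real.pi * η * M) = -(2 * Real.pi * (η * M)) := by ring
    rw [h2]
    calc ‖w s‖ * (β - α) ≤ 2 * Real.exp (-(2 * Real.pi * (η * M))) * (β - α) :=
          mul_le_mul_of_nonneg_right (hw s) (by linarith)
      _ ≤ 2 * Real.exp (-(2 * Real.pi * (η * M))) * M :=
          mul_le_mul_of_nonneg_left hb (by positivity)
      _ = 2 * M * Real.exp (-(2 * Real.pi * (η * M))) := by ring

theorem Piece1D_ok (n M : ℕ) (a b η Y y1 y2 : ℝ) (hM : 0 < M) (hη : 0 < η)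
    (hη' : η ≤ 1) (hY : |Y| ≤ η) (hM' : 1 ≤ 2 * Real.pi * η * M)
    (hy1 : y1 = (a + 1 / 2 + bt n) / M - 1 / 2) (hy2 : y2 = (b + 1 / 2 + bt n) / M - 1 / 2)
    (hab : a ≤ b) (hy : y2 - y1 ≤ 1) :
    ∀ q, (Piece1D_P n M a b η Y y1 y2 q).ok (Stt y1 y2 η Y (knd q)) (2 * M / dmp η M (knd q)) := by
  have hM0 : (0 : ℝ) < M := by exact_mod_cast hM
  have hH0 : 0 < η * M := by positivity
  have hHM : η * M / M = η := by field_simp
  have hH1 : 1 ≤ 2 * Real.pi * (η * M) := by rw [← mul_assoc]; exact hM'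
  have hd12 : y2 - y1 = (b - a) / M := by
    rw [hy1, hy2]; ring
  have hy12 : y1 ≤ y2 := by
    have : 0 ≤ (b - a) / M := div_nonneg (by linarith) hM0.le
    linarith
  have hba : b - a ≤ M := by
    rw [hd12, div_le_one hM0] at hy
    exact hy
  obtain ⟨hY1, hY2⟩ := abs_le.1 hY
  have hside : (1 : ℝ) * (η * M - 0) ≤ 2 * M := by nlinarith
  have him : ∀ s : ℝ, 0 ≤ s → s ≤ η * M → |s / M| ≤ η := by
    intro s h1 h2
    rw [abs_of_nonneg (div_nonneg h1 hM0.le), div_le_iff₀ hM0]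
    exact h2
  have hx : ∀ x : ℝ, a ≤ x → x ≤ b → y1 ≤ (x + bt n + 1 / 2) / M - 1 / 2 ∧
      (x + bt n + 1 / 2) / M - 1 / 2 ≤ y2 := by
    intro x h1 h2
    constructor
    · rw [hy1]
      have : (a + 1 / 2 + bt n) / M ≤ (x + bt n + 1 / 2) / M :=
        div_le_div_of_nonneg_right (by linarith) hM0.le
      linarith
    · rw [hy2]
      have : (x + bt n + 1 / 2) / M ≤ (b + 1 / 2 + bt n) / M :=
        div_le_div_of_nonneg_right (by linarith) hM0.le
      linarith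
  intro q
  fin_cases q
  · -- the flat piece
    refine ⟨hy12, ?_, ?_, ?_, ?_⟩
    · exact continuous_const
    · show Continuous fun x : ℝ => (x : ℂ) + Y * I
      fun_prop
    · intro s hs
      have h1 : ((s : ℂ) + Y * I).re = s := by simp
      have h2 : ((s : ℂ) + Y * I).im = Y := by simp
      show Stt y1 y2 η Y 0 ((s : ℂ) + Y * I)
      refine ⟨?_, ?_, ?_, fun _ => h2, ?_, ?_⟩
      · rw [h1]; exact hs.1
      · rw [h1]; exact hs.2
      · rw [h2]; exact hY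
      · intro h; exact absurd h (by decide)
      · intro h; exact absurd h (by decide)
    · intro s _
      have h1 : dmp η M 0 = 1 := if_neg (by decide)
      show ‖(M : ℂ)‖ * (y2 - y1) ≤ 2 * M / dmp η M 0
      rw [h1, div_one, Complex.norm_natCast]
      nlinarith
  · refine Piece1D_side (c := 1) hH0.le (Piece1D_ker_cont _) (by fun_prop) hy12 ?_
      (Piece1D_ker_norm _) hside
    intro s h1 h2
    refine ⟨Or.inl (by simp), ?_⟩
    simpa using him s h1 h2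
  · refine Piece1D_side (c := 1) hH0.le (Piece1D_ker_cont _).neg (by fun_prop) hy12 ?_
      (fun s => by rw [norm_neg]; exact Piece1D_ker_norm _ s) hside
    intro s h1 h2
    refine ⟨Or.inr (by simp), ?_⟩
    simpa using him s h1 h2
  · refine Piece1D_side (c := 1) hH0.le (Piece1D_ker_cont _) (by fun_prop) hy12 ?_
      (Piece1D_ker_norm _) hside
    intro s h1 h2
    refine ⟨Or.inl (by simp), ?_⟩
    simpa using him s h1 h2
  · refine Piece1D_side (c := 1) hH0.le (Piece1D_ker_cont _).neg (by fun_prop) hy12 ?_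
      (fun s => by rw [norm_neg]; exact Piece1D_ker_norm _ s) hside
    intro s h1 h2
    refine ⟨Or.inr (by simp), ?_⟩
    simpa using him s h1 h2
  · refine Piece1D_side (c := M) hY2 continuous_const (by fun_prop) hy12 ?_
      (fun s => by simp) (by nlinarith)
    intro s h1 h2
    refine ⟨Or.inr (by simp), ?_⟩
    simp only [add_im, ofReal_im, mul_im, ofReal_re, I_im, mul_one, I_re, mul_zero, add_zero,
      zero_add]
    exact abs_le.2 ⟨by linarith, h2⟩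
  · refine Piece1D_side (c := M) hY2 continuous_const (by fun_prop) hy12 ?_
      (fun s => by simp) (by nlinarith)
    intro s h1 h2
    refine ⟨Or.inl (by simp), ?_⟩
    simp only [add_im, ofReal_im, mul_im, ofReal_re, I_im, mul_one, I_re, mul_zero, add_zero,
      zero_add]
    exact abs_le.2 ⟨by linarith, h2⟩
  · refine Piece1D_line hab (Piece1D_kp_cont hH1) (by fun_prop) hη ?_ (Piece1D_kp_norm hH1) hba
    intro s h1 h2
    obtain ⟨g1, g2⟩ := hx s h1 h2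
    have e1 : ((((s + bt n + 1 / 2) / M - 1 / 2 : ℝ) : ℂ) + η * I).re =
        (s + bt n + 1 / 2) / M - 1 / 2 := by
      rw [add_re, ofReal_re]; simp
    have e2 : ((((s + bt n + 1 / 2) / M - 1 / 2 : ℝ) : ℂ) + η * I).im = η := by
      rw [add_im, ofReal_im]; simp
    rw [e1, e2, abs_of_pos hη]
    exact ⟨g1, g2, rfl⟩
  · refine Piece1D_line hab (Piece1D_km_cont hH1) (by fun_prop) hη ?_ (Piece1D_km_norm hH1) hba
    intro s h1 h2
    obtain ⟨g1, g2⟩ := hx s h1 h2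
    have e1 : ((((s + bt n + 1 / 2) / M - 1 / 2 : ℝ) : ℂ) + ((-η : ℝ) : ℂ) * I).re =
        (s + bt n + 1 / 2) / M - 1 / 2 := by
      rw [add_re, ofReal_re]; simp
    have e2 : ((((s + bt n + 1 / 2) / M - 1 / 2 : ℝ) : ℂ) + ((-η : ℝ) : ℂ) * I).im = -η := by
      rw [add_im, ofReal_im]; simp
    rw [e1, e2, abs_neg, abs_of_pos hη]
    exact ⟨g1, g2, rfl⟩

theorem Piece1D_sum (g : Fin 9 → ℂ) : ∑ q, g q =
    g 0 + g 1 + g 2 + g 3 + g 4 + g 5 + g 6 + g 7 + g 8 := by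
  rw [Fin.sum_univ_castSucc, Fin.sum_univ_eight]
  rfl

/-- The sum as an exact sum of nine integrals. -/
theorem sum_pieces (n M k1 k2 : ℕ) (η Y : ℝ) (hM : 0 < M) (hk : k1 ≤ k2) (hη : 0 < η)
    (hη' : η ≤ 1) (hY : |Y| ≤ η) (hM' : 1 ≤ 2 * Real.pi * η * M) (y1 y2 : ℝ)
    (hy1 : y1 = (k1 + bt n) / M - 1 / 2) (hy2 : y2 = (k2 + 1 + bt n) / M - 1 / 2)
    (hy : y2 - y1 ≤ 1) :
    ∃ P : Fin 9 → Piece, P 0 = flatP M y1 y2 Y ∧
      (∀ q, (P q).ok (Stt y1 y2 η Y (knd q)) (2 * M / dmp η M (knd q))) ∧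
      ∀ f : ℂ → ℂ, (∀ z : ℂ, y1 ≤ z.re → z.re ≤ y2 → |z.im| ≤ η → DifferentiableAt ℂ f z) →
        ∑ k ∈ Finset.Icc k1 k2, f (yk n M k) = ∑ q, (P q).int f := by
  obtain ⟨m, rfl⟩ : ∃ m, k2 = k1 + m := ⟨k2 - k1, by omega⟩
  have hM0 : (0 : ℝ) < M := by exact_mod_cast hM
  have hMc : (M : ℂ) ≠ 0 := by exact_mod_cast hM.ne'
  set a : ℝ := (k1 : ℝ) with ha
  refine ⟨Piece1D_P n M (a - 1 / 2) (a + m + 1 / 2) η Y y1 y2, rfl, ?_, ?_⟩
  · refine Piece1D_ok n M (a - 1 / 2) (a + m + 1 / 2) η Y y1 y2 hM hη hη' hY hM' ?_ ?_ ?_ hy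
    · rw [hy1]; ring
    · rw [hy2]; push_cast; ring
    · have : (0 : ℝ) ≤ m := Nat.cast_nonneg m
      linarith
  intro G hG
  have hd12 : y2 - y1 = (m + 1) / M := by
    rw [hy1, hy2]; push_cast; ring
  have hy12 : y1 ≤ y2 := by
    have : 0 ≤ ((m : ℝ) + 1) / M := by positivity
    linarith
  -- the scaled function
  set sc : ℂ → ℂ := fun s => (s + bt n + 1 / 2) / M - 1 / 2 with hsc
  have hre : ∀ s : ℂ, (sc s).re = (s.re + bt n + 1 / 2) / M - 1 / 2 := by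
    intro s
    simp [hsc]
  have him : ∀ s : ℂ, (sc s).im = s.im / M := by
    intro s
    simp [hsc]
  have hscd : ∀ s : ℂ, DifferentiableAt ℂ sc s := by
    intro s
    rw [hsc]
    fun_prop
  set H : ℝ := η * M with hH
  have hH0 : 0 < H := by positivity
  have hH1 : 1 ≤ 2 * Real.pi * H := by rw [hH, ← mul_assoc]; exact hM'
  have hHM : H / M = η := by rw [hH]; field_simp
  have hdiff : ∀ z : ℂ, a - 1 / 2 ≤ z.re → z.re ≤ a + m + 1 / 2 → |z.im| ≤ H →
      DifferentiableAt ℂ (fun s => G (sc s)) z := by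
    intro z h1 h2 h3
    refine DifferentiableAt.comp z (hG (sc z) ?_ ?_ ?_) (hscd z)
    · rw [hre, hy1]
      have : (k1 + bt n) / M ≤ (z.re + bt n + 1 / 2) / M := by
        apply div_le_div_of_nonneg_right _ hM0.le
        linarith
      linarith
    · rw [hre, hy2]
      have : (z.re + bt n + 1 / 2) / M ≤ (((k1 + m : ℕ) : ℝ) + 1 + bt n) / M := by
        apply div_le_div_of_nonneg_right _ hM0.le
        push_cast
        linarith
      linarith
    · rw [him, abs_div, abs_of_pos hM0, div_le_iff₀ hM0]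
      exact h3
  have key := abel_plana (fun s => G (sc s)) a m H hH0 hdiff
  have hsum : ∑ k ∈ Finset.Icc k1 (k1 + m), G (yk n M k) =
      ∑ k ∈ Finset.range (m + 1), G (sc (a + k)) := by
    rw [← Finset.Ico_succ_right_eq_Icc, Finset.sum_Ico_eq_sum_range]
    have h1 : Order.succ (k1 + m) - k1 = m + 1 := by
      rw [Nat.succ_eq_succ]
      omega
    rw [h1]
    refine Finset.sum_congr rfl fun j _ => ?_
    congr 1
    have hac : (a : ℂ) = (k1 : ℂ) := by rw [ha]; simp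
    rw [hsc, yk, hac]
    push_cast
    ring
  have hscl : ∀ t : ℝ, sc ((a - 1 / 2 : ℝ) + t * I) = y1 + ((t / M : ℝ) : ℂ) * I := by
    intro t
    rw [hsc, hy1, ha]
    push_cast
    field_simp
    ring
  have hscr : ∀ t : ℝ, sc ((a + m + 1 / 2 : ℝ) + t * I) = y2 + ((t / M : ℝ) : ℂ) * I := by
    intro t
    rw [hsc, hy2, ha]
    push_cast
    field_simp
    ring
  have hsch : ∀ x h : ℝ, sc (x + h * I) =
      (((x + bt n + 1 / 2) / M - 1 / 2 : ℝ) : ℂ) + ((h / M : ℝ) : ℂ) * I := by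
    intro x h
    rw [hsc]
    push_cast
    field_simp
    ring
  have c1 : (∫ t in (0 : ℝ)..H, G (sc ((a - 1 / 2 : ℝ) + t * I)) /
      (1 - exp (2 * Real.pi * I * ((a - 1 / 2 : ℝ) + t * I - a))) * I) =
      ∫ t in (0 : ℝ)..H, Piece1D_ker (-(2 * Real.pi)) t * G (y1 + ((t / M : ℝ) : ℂ) * I) := by
    refine intervalIntegral.integral_congr fun t _ => ?_
    have e1 : ((a - 1 / 2 : ℝ) + t * I - a : ℂ) = ((-(1 / 2) : ℝ) : ℂ) + t * I := by
      push_cast; ring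
    show G (sc ((a - 1 / 2 : ℝ) + t * I)) /
      (1 - exp (2 * Real.pi * I * ((a - 1 / 2 : ℝ) + t * I - a))) * I = _
    rw [e1, Piece1D_exp, Piece1D_neg_half, hscl, Piece1D_ker]
    have e2 : -(2 * Real.pi * t) = -(2 * Real.pi) * t := by ring
    rw [e2]
    have := Piece1D_ker_ne (-(2 * Real.pi)) t
    have e3 : (1 - -1 * ((Real.exp (-(2 * Real.pi) * t) : ℝ) : ℂ)) =
      1 + ((Real.exp (-(2 * Real.pi) * t) : ℝ) : ℂ) := by ring
    rw [e3]
    field_simp
  have c3 : (∫ t in (0 : ℝ)..H, G (sc ((a + m + 1 / 2 : ℝ) + t * I)) /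
      (1 - exp (2 * Real.pi * I * ((a + m + 1 / 2 : ℝ) + t * I - a))) * I) =
      -∫ t in (0 : ℝ)..H, -Piece1D_ker (-(2 * Real.pi)) t *
        G (y2 + ((t / M : ℝ) : ℂ) * I) := by
    rw [← intervalIntegral.integral_neg]
    refine intervalIntegral.integral_congr fun t _ => ?_
    have e1 : ((a + m + 1 / 2 : ℝ) + t * I - a : ℂ) = ((m + 1 / 2 : ℝ) : ℂ) + t * I := by
      push_cast; ring
    show G (sc ((a + m + 1 / 2 : ℝ) + t * I)) /
      (1 - exp (2 * Real.pi * I * ((a + m + 1 / 2 : ℝ) + t * I - a))) * I = _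
    rw [e1, Piece1D_exp, Piece1D_pos_half, hscr, Piece1D_ker]
    have e2 : -(2 * Real.pi * t) = -(2 * Real.pi) * t := by ring
    rw [e2]
    have := Piece1D_ker_ne (-(2 * Real.pi)) t
    have e3 : (1 - -1 * ((Real.exp (-(2 * Real.pi) * t) : ℝ) : ℂ)) =
      1 + ((Real.exp (-(2 * Real.pi) * t) : ℝ) : ℂ) := by ring
    rw [e3]
    field_simp
  have c4 : (∫ t in (0 : ℝ)..H, G (sc ((a - 1 / 2 : ℝ) - t * I)) /
      (exp (2 * Real.pi * I * ((a - 1 / 2 : ℝ) - t * I - a)) - 1) * I) =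
      -∫ t in (0 : ℝ)..H, Piece1D_ker (2 * Real.pi) t *
        G (y1 + ((-(t / M) : ℝ) : ℂ) * I) := by
    rw [← intervalIntegral.integral_neg]
    refine intervalIntegral.integral_congr fun t _ => ?_
    have e1 : ((a - 1 / 2 : ℝ) - t * I - a : ℂ) = ((-(1 / 2) : ℝ) : ℂ) + ((-t : ℝ) : ℂ) * I := by
      push_cast; ring
    have e2 : ((a - 1 / 2 : ℝ) - t * I : ℂ) = ((a - 1 / 2 : ℝ) + ((-t : ℝ) : ℂ) * I : ℂ) := by
      push_cast; ring
    show G (sc ((a - 1 / 2 : ℝ) - t * I)) /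
      (exp (2 * Real.pi * I * ((a - 1 / 2 : ℝ) - t * I - a)) - 1) * I = _
    rw [e1, Piece1D_exp, Piece1D_neg_half, e2, hscl, Piece1D_ker, neg_div]
    have e2 : -(2 * Real.pi * -t) = (2 * Real.pi) * t := by ring
    rw [e2]
    have := Piece1D_ker_ne (2 * Real.pi) t
    have e3 : (-1 * ((Real.exp (2 * Real.pi * t) : ℝ) : ℂ) - 1) =
      -(1 + ((Real.exp (2 * Real.pi * t) : ℝ) : ℂ)) := by ring
    rw [e3]
    field_simp
  have c6 : (∫ t in (0 : ℝ)..H, G (sc ((a + m + 1 / 2 : ℝ) - t * I)) /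
      (exp (2 * Real.pi * I * ((a + m + 1 / 2 : ℝ) - t * I - a)) - 1) * I) =
      ∫ t in (0 : ℝ)..H, -Piece1D_ker (2 * Real.pi) t *
        G (y2 + ((-(t / M) : ℝ) : ℂ) * I) := by
    refine intervalIntegral.integral_congr fun t _ => ?_
    have e1 : ((a + m + 1 / 2 : ℝ) - t * I - a : ℂ) =
        ((m + 1 / 2 : ℝ) : ℂ) + ((-t : ℝ) : ℂ) * I := by
      push_cast; ring
    have e2 : ((a + m + 1 / 2 : ℝ) - t * I : ℂ) =
        ((a + m + 1 / 2 : ℝ) + ((-t : ℝ) : ℂ) * I : ℂ) := by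
      push_cast; ring
    show G (sc ((a + m + 1 / 2 : ℝ) - t * I)) /
      (exp (2 * Real.pi * I * ((a + m + 1 / 2 : ℝ) - t * I - a)) - 1) * I = _
    rw [e1, Piece1D_exp, Piece1D_pos_half, e2, hscr, Piece1D_ker, neg_div]
    have e2 : -(2 * Real.pi * -t) = (2 * Real.pi) * t := by ring
    rw [e2]
    have := Piece1D_ker_ne (2 * Real.pi) t
    have e3 : (-1 * ((Real.exp (2 * Real.pi * t) : ℝ) : ℂ) - 1) =
      -(1 + ((Real.exp (2 * Real.pi * t) : ℝ) : ℂ)) := by ring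
    rw [e3]
    field_simp
  have c5 : (∫ x in (a - 1 / 2)..(a + m + 1 / 2), G (sc (x - H * I)) /
      (exp (2 * Real.pi * I * (x - H * I - a)) - 1)) =
      ∫ x in (a - 1 / 2)..(a + m + 1 / 2), Piece1D_km (a - 1 / 2 + 1 / 2) H x *
        G ((((x + bt n + 1 / 2) / M - 1 / 2 : ℝ) : ℂ) + ((-η : ℝ) : ℂ) * I) := by
    refine intervalIntegral.integral_congr fun x _ => ?_
    have e2 : (x - H * I : ℂ) = (x + ((-H : ℝ) : ℂ) * I : ℂ) := by push_cast; ring
    have e3 : a - 1 / 2 + 1 / 2 = a := by ring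
    show G (sc (x - H * I)) / (exp (2 * Real.pi * I * (x - H * I - a)) - 1) = _
    rw [Piece1D_km, e3]
    have e4 : sc (x - H * I) =
        (((x + bt n + 1 / 2) / M - 1 / 2 : ℝ) : ℂ) + ((-η : ℝ) : ℂ) * I := by
      rw [e2, hsch, neg_div, hHM]
    rw [e4]
    ring
  -- continuity of the integrands
  have hle : a - 1 / 2 ≤ a + m + 1 / 2 := by
    have : (0 : ℝ) ≤ m := Nat.cast_nonneg m
    linarith
  have hcont : ContinuousOn (fun x : ℝ => G (sc (x + H * I)))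
      (Set.uIcc (a - 1 / 2) (a + m + 1 / 2)) := by
    intro x hx
    rw [Set.uIcc_of_le hle] at hx
    apply ContinuousAt.continuousWithinAt
    have hd := hdiff (x + H * I) (by simpa using hx.1) (by simpa using hx.2)
      (by simp [abs_of_pos hH0])
    have hc := hd.continuousAt
    exact ContinuousAt.comp (g := fun s : ℂ => G (sc s)) (f := fun x : ℝ => (x : ℂ) + H * I)
      hc (by fun_prop)
  have hcont2 : ContinuousOn (fun x : ℝ => G (sc (x + H * I)) /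
      (1 - exp (2 * Real.pi * I * (x + H * I - a)))) (Set.uIcc (a - 1 / 2) (a + m + 1 / 2)) := by
    refine hcont.div (by fun_prop) ?_
    intro x _
    exact Piece1D_dp_ne hH1 x
  have c2 : (∫ x in (a - 1 / 2)..(a + m + 1 / 2), G (sc (x + H * I)) /
      (1 - exp (2 * Real.pi * I * (x + H * I - a)))) -
      (∫ x in (a - 1 / 2)..(a + m + 1 / 2), G (sc (x + H * I))) =
      ∫ x in (a - 1 / 2)..(a + m + 1 / 2), Piece1D_kp (a - 1 / 2 + 1 / 2) H x *
        G ((((x + bt n + 1 / 2) / M - 1 / 2 : ℝ) : ℂ) + η * I) := by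
    rw [← intervalIntegral.integral_sub hcont2.intervalIntegrable hcont.intervalIntegrable]
    refine intervalIntegral.integral_congr fun x _ => ?_
    have e3 : a - 1 / 2 + 1 / 2 = a := by ring
    show G (sc (x + H * I)) / (1 - exp (2 * Real.pi * I * (x + H * I - a))) -
      G (sc (x + H * I)) = _
    rw [Piece1D_alg (Piece1D_dp_ne hH1 x), Piece1D_kp, e3, hsch, hHM]
  -- the change of variables
  have hcv : ∫ x in (a - 1 / 2)..(a + m + 1 / 2), G (sc (x + H * I)) =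
      M * ∫ u in y1..y2, G (u + η * I) := by
    have h1 := intervalIntegral.integral_comp_div_add (a := a - 1 / 2) (b := a + m + 1 / 2)
      (fun u : ℝ => G (u + η * I)) hM0.ne' ((bt n + 1 / 2) / M - 1 / 2)
    have h2 : (fun x : ℝ => G (((x / M + ((bt n + 1 / 2) / M - 1 / 2) : ℝ) : ℂ) + η * I)) =
        fun x : ℝ => G (sc (x + H * I)) := by
      funext x
      congr 1
      rw [hsc, hH]
      push_cast
      field_simp
      ring
    rw [h2] at h1
    rw [h1]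
    have h3 : (a - 1 / 2) / M + ((bt n + 1 / 2) / M - 1 / 2) = y1 := by
      rw [hy1, ha]; ring
    have h4 : (a + m + 1 / 2) / M + ((bt n + 1 / 2) / M - 1 / 2) = y2 := by
      rw [hy2, ha]; push_cast; ring
    rw [h3, h4]
    simp
  -- Cauchy
  have hcau := Complex.integral_boundary_rect_eq_zero_of_differentiableOn G
    (y1 + Y * I) (y2 + η * I) (by
      intro z hz
      rw [Complex.mem_reProdIm] at hz
      obtain ⟨h1, h2⟩ := hz
      have r1 : (y1 + Y * I : ℂ).re = y1 := by simp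
      have r2 : (y2 + η * I : ℂ).re = y2 := by simp
      have i1 : (y1 + Y * I : ℂ).im = Y := by simp
      have i2 : (y2 + η * I : ℂ).im = η := by simp
      rw [r1, r2, Set.uIcc_of_le hy12] at h1
      have hYη : Y ≤ η := (le_abs_self Y).trans hY
      rw [i1, i2, Set.uIcc_of_le hYη] at h2
      refine (hG z h1.1 h1.2 ?_).differentiableWithinAt
      rw [abs_le]
      have := neg_le_of_abs_le hY
      exact ⟨this.trans h2.1, h2.2⟩)
  have r1 : (y1 + Y * I : ℂ).re = y1 := by simp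
  have r2 : (y2 + η * I : ℂ).re = y2 := by simp
  have i1 : (y1 + Y * I : ℂ).im = Y := by simp
  have i2 : (y2 + η * I : ℂ).im = η := by simp
  rw [r1, r2, i1, i2] at hcau
  -- assembly
  rw [hsum, key, Piece1D_sum]
  rw [c1, c3, c4, c5, c6]
  have g0 : (Piece1D_P n M (a - 1 / 2) (a + m + 1 / 2) η Y y1 y2 0).int G =
      M * ∫ x in y1..y2, G (x + Y * I) := by
    rw [← intervalIntegral.integral_const_mul]
    rfl
  have g5 : (Piece1D_P n M (a - 1 / 2) (a + m + 1 / 2) η Y y1 y2 5).int G =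
      M * I * ∫ t in Y..η, G (y2 + t * I) := by
    rw [← intervalIntegral.integral_const_mul]
    rfl
  have g6 : (Piece1D_P n M (a - 1 / 2) (a + m + 1 / 2) η Y y1 y2 6).int G =
      -(M * I) * ∫ t in Y..η, G (y1 + t * I) := by
    rw [← intervalIntegral.integral_const_mul]
    rfl
  have g1 : (Piece1D_P n M (a - 1 / 2) (a + m + 1 / 2) η Y y1 y2 1).int G =
    ∫ t in (0 : ℝ)..H, Piece1D_ker (-(2 * Real.pi)) t * G (y1 + ((t / M : ℝ) : ℂ) * I) := rfl
  have g2 : (Piece1D_P n M (a - 1 / 2) (a + m + 1 / 2) η Y y1 y2 2).int G =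
    ∫ t in (0 : ℝ)..H, -Piece1D_ker (-(2 * Real.pi)) t * G (y2 + ((t / M : ℝ) : ℂ) * I) := rfl
  have g3 : (Piece1D_P n M (a - 1 / 2) (a + m + 1 / 2) η Y y1 y2 3).int G =
    ∫ t in (0 : ℝ)..H, Piece1D_ker (2 * Real.pi) t * G (y1 + ((-(t / M) : ℝ) : ℂ) * I) := rfl
  have g4 : (Piece1D_P n M (a - 1 / 2) (a + m + 1 / 2) η Y y1 y2 4).int G =
    ∫ t in (0 : ℝ)..H, -Piece1D_ker (2 * Real.pi) t * G (y2 + ((-(t / M) : ℝ) : ℂ) * I) := rfl
  have g7 : (Piece1D_P n M (a - 1 / 2) (a + m + 1 / 2) η Y y1 y2 7).int G =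
    ∫ x in (a - 1 / 2)..(a + m + 1 / 2), Piece1D_kp (a - 1 / 2 + 1 / 2) H x *
        G ((((x + bt n + 1 / 2) / M - 1 / 2 : ℝ) : ℂ) + η * I) := rfl
  have g8 : (Piece1D_P n M (a - 1 / 2) (a + m + 1 / 2) η Y y1 y2 8).int G =
    ∫ x in (a - 1 / 2)..(a + m + 1 / 2), Piece1D_km (a - 1 / 2 + 1 / 2) H x *
        G ((((x + bt n + 1 / 2) / M - 1 / 2 : ℝ) : ℂ) + ((-η : ℝ) : ℂ) * I) := rfl
  rw [g0, g1, g2, g3, g4, g5, g6, g7, g8]
  rw [hcv] at c2
  simp only [smul_eq_mul] at hcau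
  linear_combination c2 - (M : ℂ) * hcau

end Pool.Agent.H63.VC6
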