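import Pool.Agent.H63.VC4.KBN
import Pool.Agent.H63.VC6.Defs

/-! # Analyticity and bounds of the integrand for consecutive regions -/

namespace Pool.Agent.H63.VC6

open Pool.Agent.H63.VC hiding ext
open Pool.Agent.H63.VC3 Pool.Agent.H63.VC4 Complex
open scoped BigOperators

/-- The dependence of the slots on one of the variables. -/
theorem SegAn_ext_update {p : ℕ} (u u' : Option ℂ) (y : Fin p → ℂ) (j : Fin p) (k : Fin (p + 2)) :
    (∀ w, extb u u' (Function.update y j w) k = extb u u' y k) ∨
      (k = j.castSucc.succ ∧ ∀ w, extb u u' (Function.update y j w) k = some w) := by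
  refine Fin.cases ?_ (fun i => ?_) k
  · left; intro w; rfl
  · refine Fin.lastCases ?_ (fun i => ?_) i
    · left; intro w; rw [extb_last, extb_last]
    · by_cases hij : i = j
      · right
        subst hij
        refine ⟨rfl, fun w => ?_⟩
        rw [extb_mid, Function.update_self]
      · left
        intro w
        rw [extb_mid, extb_mid, Function.update_of_ne hij]

theorem SegAn_Qo_update {p : ℕ} (n M : ℕ) (hM : 0 < M) (u u' : Option ℂ) (y : Fin p → ℂ)
    (j : Fin p) (k : Fin (p + 2)) (v : ℂ) (h : k = j.castSucc.succ → okS v (some (y j))) :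
    DifferentiableAt ℂ (fun w => Qo n M (extb u u' (Function.update y j w) k) v) (y j) := by
  rcases SegAn_ext_update u u' y j k with h1 | ⟨h1, h2⟩
  · simp only [h1]
    exact differentiableAt_const _
  · simp only [h2]
    exact KAnN_Qo_differentiable_y n M hM (y j) v (h h1)

theorem GIb_update_differentiable {p : ℕ} (r : Fin (p + 1) → ℤ) (n g M : ℕ) (hg : 1 ≤ g)
    (hgn : g ≤ n - 1) (hM : 1000 * (n + 1) ≤ M) (u u' : Option ℂ) (y : Fin p → ℂ)
    (v : Fin (p + 1) → ℂ) (j : Fin p) (hy : 1 / 10 ≤ (y j).re ∧ (y j).re ≤ 4 / 10)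
    (h1 : okS (v j.castSucc) (some (y j))) (h2 : okS (v j.succ) (some (y j))) :
    DifferentiableAt ℂ (fun w => GIb r n g M u u' (Function.update y j w) v) (y j) := by
  have hM0 : 0 < M := by omega
  unfold GIb
  refine DifferentiableAt.mul ?_ ?_
  · refine DifferentiableAt.fun_finsetProd fun i _ => ?_
    by_cases hij : i = j
    · subst hij
      simp only [Function.update_self]
      exact Cc_differentiableAt n g M hg hgn hM _ hy.1 hy.2
    · simp only [Function.update_of_ne hij]
      exact differentiableAt_const _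
  · refine DifferentiableAt.fun_finsetProd fun i _ => ?_
    have a1 : DifferentiableAt ℂ
        (fun w => Qo n M (extb u u' (Function.update y j w) i.castSucc) (v i)) (y j) := by
      refine SegAn_Qo_update n M hM0 u u' y j _ _ fun h => ?_
      have hi : i = j.succ := by
        apply Fin.castSucc_injective
        rw [h, Fin.succ_castSucc]
      rw [hi]; exact h2
    have a2 : DifferentiableAt ℂ
        (fun w => Qo n M (extb u u' (Function.update y j w) i.succ) (v i)) (y j) := by
      refine SegAn_Qo_update n M hM0 u u' y j _ _ fun h => ?_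
      have hi : i = j.castSucc := Fin.succ_injective _ h
      rw [hi]; exact h1
    unfold KR
    fun_prop

theorem SegAn_Qo_ext_continuousAt {p : ℕ} (n M : ℕ) (hM : 0 < M) (u u' : Option ℂ)
    (y : Fin p → ℂ) (v : ℂ) (k : Fin (p + 2)) (h : okS v (extb u u' y k)) :
    ContinuousAt (fun z : Fin p → ℂ => Qo n M (extb u u' z k) v) y := by
  revert h
  refine Fin.cases ?_ (fun a => ?_) k
  · intro _
    exact continuousAt_const
  · refine Fin.lastCases ?_ (fun a => ?_) a
    · intro _
      simp only [extb_last]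
      exact continuousAt_const
    · intro h
      rw [extb_mid] at h
      simp only [extb_mid]
      have h1 := (KAnN_Qo_differentiable_y n M hM (y a) v h).continuousAt
      have h2 : ContinuousAt (fun z : Fin p → ℂ => z a) y := (continuous_apply a).continuousAt
      exact ContinuousAt.comp (f := fun z : Fin p → ℂ => z a)
        (g := fun z : ℂ => Qo n M (some z) v) (x := y) h1 h2

theorem GIb_continuousAt {p : ℕ} (r : Fin (p + 1) → ℤ) (n g M : ℕ) (hg : 1 ≤ g)
    (hgn : g ≤ n - 1) (hM : 1000 * (n + 1) ≤ M) (u u' : Option ℂ) (y : Fin p → ℂ)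
    (v : Fin (p + 1) → ℂ) (hy : ∀ j, 1 / 10 ≤ (y j).re ∧ (y j).re ≤ 4 / 10)
    (hok : ∀ i : Fin (p + 1), okS (v i) (extb u u' y i.castSucc) ∧
      okS (v i) (extb u u' y i.succ)) :
    ContinuousAt (fun z : Fin p → ℂ => GIb r n g M u u' z v) y := by
  have hM0 : 0 < M := by omega
  unfold GIb
  refine ContinuousAt.mul ?_ ?_
  · refine tendsto_finsetProd _ fun i _ => ?_
    have h1 := (Cc_differentiableAt n g M hg hgn hM (y i) (hy i).1 (hy i).2).continuousAt
    have h2 : ContinuousAt (fun z : Fin p → ℂ => z i) y := (continuous_apply i).continuousAt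
    exact ContinuousAt.comp (f := fun z : Fin p → ℂ => z i)
      (g := Cc n g M) (x := y) h1 h2
  · refine tendsto_finsetProd _ fun i _ => ?_
    have h1 := SegAn_Qo_ext_continuousAt n M hM0 u u' y (v i) i.castSucc (hok i).1
    have h2 := SegAn_Qo_ext_continuousAt n M hM0 u u' y (v i) i.succ (hok i).2
    have h4 : ContinuousAt (fun z : Fin p → ℂ =>
        KR (r i) n M (extb u u' z i.castSucc) (extb u u' z i.succ) (v i) * om n M (v i)) y := by
      unfold KR
      fun_prop
    exact h4

theorem SegAn_mem {p : ℕ} {u u' : Option ℂ} {y : Fin p → ℂ} {k : Fin (p + 2)} {z : ℂ}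
    (h : z ∈ extb u u' y k) : z ∈ u ∨ z ∈ u' ∨ ∃ j, z = y j := by
  revert h
  refine Fin.cases ?_ (fun i => ?_) k
  · intro h
    exact Or.inl h
  · refine Fin.lastCases ?_ (fun i => ?_) i
    · intro h
      rw [extb_last] at h
      exact Or.inr (Or.inl h)
    · intro h
      rw [extb_mid] at h
      exact Or.inr (Or.inr ⟨i, (Option.some.inj h).symm⟩)

theorem SegAn_sum_Lst {p : ℕ} (r : Fin (p + 1) → ℤ) (u u' : Option ℂ) (y : Fin p → ℂ)
    (v : Fin (p + 1) → ℂ) :
    ∑ i, Lst (r i) (extb u u' y i.castSucc) (extb u u' y i.succ) (v i) =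
      (vs u + vs u') + (∑ j : Fin p, (4 * ff (y j + 1 / 2)).re) +
        ∑ i, (WN (r i) (extb u u' y i.castSucc) (extb u u' y i.succ) (v i)).re := by
  have h := sum_slotsb u u' y (fun _ => vs)
  have e : ∀ i : Fin (p + 1), Lst (r i) (extb u u' y i.castSucc) (extb u u' y i.succ) (v i) =
      (WN (r i) (extb u u' y i.castSucc) (extb u u' y i.succ) (v i)).re +
      (vs (extb u u' y i.castSucc) + vs (extb u u' y i.succ)) := by
    intro i
    unfold Lst
    ring
  rw [Finset.sum_congr rfl fun i _ => e i, Finset.sum_add_distrib, h]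
  have e2 : ∀ j : Fin p, vs (some (y j)) + vs (some (y j)) = (4 * ff (y j + 1 / 2)).re := by
    intro j
    simp only [vs]
    rw [← Complex.add_re]
    congr 1
    ring
  rw [Finset.sum_congr rfl fun j _ => e2 j]
  ring

theorem GIb_bound {p : ℕ} (r : Fin (p + 1) → ℤ) (n g : ℕ) (hg : 1 ≤ g) (hgn : g ≤ n - 1)
    (Y1 : Fin (p + 1) → ℝ) (hY1 : ∀ i, 0 < Y1 i ∧ Y1 i ≤ 1 / 50) :
    ∃ C : ℝ, 0 < C ∧ ∃ M0 : ℕ, ∀ M : ℕ, M0 ≤ M → ∀ (u u' : Option ℂ) (y : Fin p → ℂ)
      (a : Fin (p + 1) → ℝ), (∀ z ∈ u, |z.re - 1 / 4| ≤ 55 / 1000 ∧ |z.im| ≤ 1 / 50) →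
      (∀ z ∈ u', |z.re - 1 / 4| ≤ 55 / 1000 ∧ |z.im| ≤ 1 / 50) →
      (∀ j, |(y j).re - 1 / 4| ≤ 55 / 1000 ∧ |(y j).im| ≤ 1 / 50) → (∀ i, |a i| ≤ 15 / 100) →
      Real.exp (M * (vs u + vs u')) * ‖GIb r n g M u u' y (fun i => a i + Y1 i * I)‖ ≤
        C * (M : ℝ) ^ (2 * p) *
        Real.exp (M * ∑ i, Lst (r i) (extb u u' y i.castSucc) (extb u u' y i.succ)
          (a i + Y1 i * I)) := by
  obtain ⟨C, hC, hCc⟩ := Cc_bound n g hg hgn
  choose D hD hDb using fun i : Fin (p + 1) => KR_bound (r i) n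
  -- the size of `M`
  have hM0 : ∃ M0 : ℕ, 1000 * (n + 1) ≤ M0 ∧ ∀ M : ℕ, M0 ≤ M → ∀ i, 1 ≤ 2 * Real.pi * M * Y1 i := by
    have hev : ∀ᶠ M : ℕ in Filter.atTop, ∀ i, 1 ≤ 2 * Real.pi * M * Y1 i := by
      rw [Filter.eventually_all]
      intro i
      have h1 : Filter.Tendsto (fun M : ℕ => (2 * Real.pi * Y1 i) * (M : ℝ)) Filter.atTop
          Filter.atTop :=
        tendsto_natCast_atTop_atTop.const_mul_atTop (by have := (hY1 i).1; positivity)
      filter_upwards [h1.eventually_ge_atTop 1] with M hM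
      linarith
    obtain ⟨M1, hM1⟩ := Filter.eventually_atTop.1 hev
    exact ⟨max M1 (1000 * (n + 1)), le_max_right _ _, fun M hM => hM1 M ((le_max_left _ _).trans hM)⟩
  obtain ⟨M0, hM0a, hM0b⟩ := hM0
  refine ⟨C ^ p * ∏ i, (4 * D i), by
    have : 0 < ∏ i, (4 * D i) := Finset.prod_pos fun i _ => by have := hD i; positivity
    positivity, M0, ?_⟩
  intro M hM u u' y a hu hu' hy ha
  have hMn : 1000 * (n + 1) ≤ M := hM0a.trans hM
  have hM1 : 1 ≤ M := by omega
  have hMp : (0 : ℝ) < M := by exact_mod_cast hM1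
  have hM1r : (1 : ℝ) ≤ M := by exact_mod_cast hM1
  set v : Fin (p + 1) → ℂ := fun i => a i + Y1 i * I with hv
  have hvre : ∀ i, (v i).re = a i := by intro i; simp [hv]
  have hvim : ∀ i, (v i).im = Y1 i := by intro i; simp [hv]
  have h1 : ∀ j : Fin p, ‖Cc n g M (y j)‖ ≤ C * (M : ℝ) ^ 2 *
      Real.exp (M * (4 * ff (y j + 1 / 2)).re) := by
    intro j
    obtain ⟨h1, h2⟩ := hy j
    rw [abs_le] at h1
    exact hCc M hMn (y j) (by linarith) (by linarith) (h2.trans (by norm_num))
  have h2 : ∀ i : Fin (p + 1), ‖KR (r i) n M (extb u u' y i.castSucc) (extb u u' y i.succ) (v i) *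
      om n M (v i)‖ ≤ (4 * D i) *
        Real.exp (M * (WN (r i) (extb u u' y i.castSucc) (extb u u' y i.succ) (v i)).re) := by
    intro i
    have hb := hDb i M hM1 (extb u u' y i.castSucc) (extb u u' y i.succ) (v i) (by
      intro z hz
      have hz' : |z.re - 1 / 4| ≤ 55 / 1000 ∧ |z.im| ≤ 1 / 50 := by
        have h := hz.elim SegAn_mem SegAn_mem
        rcases h with h | h | ⟨j, h⟩
        · exact hu z h
        · exact hu' z h
        · rw [h]; exact hy j
      obtain ⟨h1, h2⟩ := hz'
      have h3 := ha i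
      rw [abs_le] at h1 h3
      rw [Complex.sub_re, Complex.add_re z, hvre]
      refine ⟨by linarith, by linarith, by linarith, by linarith, h2.trans (by norm_num)⟩)
      (by rw [hvre]; exact (ha i).trans (by norm_num))
      (by rw [hvim, abs_of_pos (hY1 i).1]; exact (hY1 i).2.trans (by norm_num))
    have ho := om_flat n M (v i) (by rw [hvim]; exact hM0b M hM i)
    rw [norm_mul]
    have e : WN (r i) (extb u u' y i.castSucc) (extb u u' y i.succ) (v i) =
        (2 * Real.pi * I * r i * (v i) ^ 2 + po (extb u u' y i.castSucc) (v i) +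
          po (extb u u' y i.succ) (v i)) + 2 * Real.pi * I * v i := by
      unfold WN; ring
    have e2 : (2 * Real.pi * I * v i).re = -(2 * Real.pi * (v i).im) := by
      have : 2 * Real.pi * I * v i = ((2 * Real.pi : ℝ) : ℂ) * (I * v i) := by push_cast; ring
      rw [this, Complex.re_ofReal_mul, Complex.I_mul_re]
      ring
    rw [e, Complex.add_re, e2, mul_add, Real.exp_add]
    have e3 : (M : ℝ) * -(2 * Real.pi * (v i).im) = -(2 * Real.pi * M * (v i).im) := by ring
    rw [e3]
    calc ‖KR (r i) n M (extb u u' y i.castSucc) (extb u u' y i.succ) (v i)‖ * ‖om n M (v i)‖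
        ≤ (D i / M * Real.exp (M * (2 * Real.pi * I * r i * (v i) ^ 2 +
          po (extb u u' y i.castSucc) (v i) + po (extb u u' y i.succ) (v i)).re)) *
          (4 * Real.exp (-(2 * Real.pi * M * (v i).im))) := by
          refine mul_le_mul hb ho (norm_nonneg _) ?_
          have := hD i
          positivity
      _ ≤ (D i * Real.exp (M * (2 * Real.pi * I * r i * (v i) ^ 2 +
          po (extb u u' y i.castSucc) (v i) + po (extb u u' y i.succ) (v i)).re)) *
          (4 * Real.exp (-(2 * Real.pi * M * (v i).im))) := by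
          refine mul_le_mul_of_nonneg_right (mul_le_mul_of_nonneg_right ?_ (Real.exp_pos _).le)
            (by positivity)
          exact div_le_self (hD i).le hM1r
      _ = _ := by ring
  have h3 : ‖GIb r n g M u u' y v‖ ≤ C ^ p * (∏ i, (4 * D i)) * (M : ℝ) ^ (2 * p) *
      Real.exp ((∑ j : Fin p, M * (4 * ff (y j + 1 / 2)).re) +
        ∑ i, M * (WN (r i) (extb u u' y i.castSucc) (extb u u' y i.succ) (v i)).re) := by
    unfold GIb
    rw [norm_mul, _root_.norm_prod, _root_.norm_prod]
    calc (∏ j, ‖Cc n g M (y j)‖) * ∏ i, ‖KR (r i) n M (extb u u' y i.castSucc)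
          (extb u u' y i.succ) (v i) * om n M (v i)‖
        ≤ (∏ j : Fin p, (C * (M : ℝ) ^ 2 * Real.exp (M * (4 * ff (y j + 1 / 2)).re))) *
          ∏ i, ((4 * D i) *
            Real.exp (M * (WN (r i) (extb u u' y i.castSucc) (extb u u' y i.succ) (v i)).re)) := by
          refine mul_le_mul (Finset.prod_le_prod (fun _ _ => norm_nonneg _) fun j _ => h1 j)
            (Finset.prod_le_prod (fun _ _ => norm_nonneg _) fun i _ => h2 i)
            (Finset.prod_nonneg fun _ _ => norm_nonneg _)
            (Finset.prod_nonneg fun _ _ => by positivity)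
      _ = _ := by
          have hP1 : (∏ j : Fin p, (C * (M : ℝ) ^ 2 * Real.exp (M * (4 * ff (y j + 1 / 2)).re))) =
              C ^ p * (M : ℝ) ^ (2 * p) * ∏ j : Fin p, Real.exp (M * (4 * ff (y j + 1 / 2)).re) := by
            rw [Finset.prod_mul_distrib, Finset.prod_const, Finset.card_univ, Fintype.card_fin,
              mul_pow, ← pow_mul]
          have hP2 : (∏ i, ((4 * D i) *
              Real.exp (M * (WN (r i) (extb u u' y i.castSucc) (extb u u' y i.succ) (v i)).re))) =
              (∏ i, (4 * D i)) * ∏ i,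
                Real.exp (M * (WN (r i) (extb u u' y i.castSucc) (extb u u' y i.succ) (v i)).re) := by
            rw [Finset.prod_mul_distrib]
          rw [hP1, hP2, Real.exp_add, Real.exp_sum, Real.exp_sum]
          ring
  have hS := SegAn_sum_Lst r u u' y v
  have e : M * ∑ i, Lst (r i) (extb u u' y i.castSucc) (extb u u' y i.succ) (v i) =
      M * (vs u + vs u') + ((∑ j : Fin p, M * (4 * ff (y j + 1 / 2)).re) +
        ∑ i, M * (WN (r i) (extb u u' y i.castSucc) (extb u u' y i.succ) (v i)).re) := by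
    rw [hS, mul_add, mul_add, Finset.mul_sum, Finset.mul_sum]
    ring
  calc Real.exp (M * (vs u + vs u')) * ‖GIb r n g M u u' y v‖
      ≤ Real.exp (M * (vs u + vs u')) * (C ^ p * (∏ i, (4 * D i)) * (M : ℝ) ^ (2 * p) *
      Real.exp ((∑ j : Fin p, M * (4 * ff (y j + 1 / 2)).re) +
        ∑ i, M * (WN (r i) (extb u u' y i.castSucc) (extb u u' y i.succ) (v i)).re)) :=
        mul_le_mul_of_nonneg_left h3 (Real.exp_pos _).le
    _ = _ := by
        rw [e, Real.exp_add (M * (vs u + vs u'))]
        ring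

end Pool.Agent.H63.VC6
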