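import Pool.Agent.H63.VC6.SlotU

/-! # The potential function of consecutive regions -/

namespace Pool.Agent.H63.VC6

open Pool.Agent.H63.VC hiding ext
open Pool.Agent.H63.VC3 Pool.Agent.H63.VC4 Complex
open scoped BigOperators

/-- The boundary values are real and close to `1/4`. -/
def bdr (u : Option ℂ) (w : Option ℝ) : Prop :=
  (u = none ↔ w = none) ∧ ∀ x ∈ w, |x - 1 / 4| ≤ 55 / 1000

theorem SegPot_phase (r : ℤ) (s t : ℝ) :
    (2 * Real.pi * I * (r * ((s : ℂ) + t * I) ^ 2 + ((s : ℂ) + t * I))).re =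
      -(2 * Real.pi * (2 * r * s * t + t)) := by
  rw [Conc_phase]
  simp

theorem SegPot_Lst (r : ℤ) (u u' : Option ℂ) (V : ℂ) :
    Lst r u u' V = (2 * Real.pi * I * (r * V ^ 2 + V)).re +
      ((vs u + (po u V).re) + (vs u' + (po u' V).re)) := by
  unfold Lst WN
  rw [add_re, add_re]
  ring

theorem SegPot_kap {p : ℕ} {r : Fin (p + 1) → ℤ} {u u' : Option ℂ} {y : Fin p → ℂ}
    {v : Fin (p + 1) → ℂ} (hc : SegC r u u' y v) (j : Fin p) :
    kap (y j) (v j.castSucc) + kap (y j) (v j.succ) = 0 := by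
  have h := congrArg Complex.re (hc.ey j)
  have r4 : ∀ z : ℂ, (4 * z).re = 4 * z.re := fun z => by
    simp only [mul_re, re_ofNat, im_ofNat, zero_mul, sub_zero]
  have r2 : ∀ z : ℂ, (2 * z).re = 2 * z.re := fun z => by
    simp only [mul_re, re_ofNat, im_ofNat, zero_mul, sub_zero]
  unfold kap
  simp only [sub_re, add_re, r4, r2] at h ⊢
  linarith

/-- A slot at the boundary. -/
theorem SegPot_bd (u : Option ℂ) (w : Option ℝ) (hw : bdr u w) (v : ℂ) (hv : vloc v)
    (hu : ∀ z ∈ u, yloc z ∧ |kap z v| ≤ 72 / 1000) (a : ℝ) (ha : |a| ≤ 15 / 100) :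
    vs (w.map fun x => (x : ℂ)) + (po (w.map fun x => (x : ℂ)) (a + v.im * I)).re ≤
      vs u + (po u v).re + (a - v.re) * (dpo u v).re + 1 / 1000 * ns u := by
  obtain ⟨h1, h2⟩ := hw
  cases u with
  | none =>
    have hw0 : w = none := h1.1 rfl
    subst hw0
    simp [vs, po, dpo, ns]
  | some y =>
    cases w with
    | none => exact absurd (h1.2 rfl) (by simp)
    | some x =>
      have h3 := hu y rfl
      have h := slot_bd y v x a h3.1 hv h3.2 (h2 x rfl) ha
      change (2 * ff ((x : ℂ) + 1 / 2)).re + (po (some (x : ℂ)) (a + v.im * I)).re ≤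
        (2 * ff (y + 1 / 2)).re + (po (some y) v).re + (a - v.re) * (dpo (some y) v).re +
          1 / 1000 * 1
      linarith

/-- The potential function on the product paths. -/
theorem seg_pot {p : ℕ} (r : Fin (p + 1) → ℤ) (u u' : Option ℂ) (y : Fin p → ℂ)
    (v : Fin (p + 1) → ℂ) (hc : SegC r u u' y v) (w w' : Option ℝ) (hw : bdr u w)
    (hw' : bdr u' w') (y1 y2 : ℝ) (h1 : 1 / 4 - 55 / 1000 ≤ y1) (h1' : y1 ≤ 1 / 4 - 54 / 1000)
    (h2 : 1 / 4 + 54 / 1000 ≤ y2) (h2' : y2 ≤ 1 / 4 + 55 / 1000) (a : Fin (p + 1) → ℝ)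
    (ha : ∀ i, |a i| ≤ 15 / 100) (σ : Fin p → Fin 3) (z : Fin p → ℂ)
    (hz : ∀ j, Stt y1 y2 (1 / 100) (y j).im (σ j) (z j)) :
    ∑ i, Lst (r i) (extb (w.map fun x => (x : ℂ)) (w'.map fun x => (x : ℂ)) z i.castSucc)
        (extb (w.map fun x => (x : ℂ)) (w'.map fun x => (x : ℂ)) z i.succ) (a i + (v i).im * I) ≤
      Tot r u u' y v + 2 * ∑ j, exc (σ j) + 1 / 1000 * (ns u + ns u') := by
  -- the slot functions
  let hL : Fin (p + 1) → Option ℂ → ℝ := fun i s => vs s + (po s (a i + (v i).im * I)).re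
  let hR : Fin (p + 1) → Option ℂ → ℝ := fun i s =>
    vs s + (po s (v i)).re + (a i - (v i).re) * (dpo s (v i)).re
  have eL : ∑ i, Lst (r i) (extb (w.map fun x => (x : ℂ)) (w'.map fun x => (x : ℂ)) z i.castSucc)
        (extb (w.map fun x => (x : ℂ)) (w'.map fun x => (x : ℂ)) z i.succ) (a i + (v i).im * I) =
      ∑ i, (-(2 * Real.pi * (2 * r i * a i * (v i).im + (v i).im))) +
      ∑ i, (hL i (extb (w.map fun x => (x : ℂ)) (w'.map fun x => (x : ℂ)) z i.castSucc) +
        hL i (extb (w.map fun x => (x : ℂ)) (w'.map fun x => (x : ℂ)) z i.succ)) := by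
    rw [← Finset.sum_add_distrib]
    refine Finset.sum_congr rfl fun i _ => ?_
    rw [SegPot_Lst, SegPot_phase]
  have eR : Tot r u u' y v =
      ∑ i, (-(2 * Real.pi * (2 * r i * a i * (v i).im + (v i).im))) +
      ∑ i, (hR i (extb u u' y i.castSucc) + hR i (extb u u' y i.succ)) := by
    unfold Tot
    rw [← Finset.sum_add_distrib]
    refine Finset.sum_congr rfl fun i _ => ?_
    rw [SegPot_Lst, Conc_phase]
    have k2 := congrArg Complex.re (hc.ev i)
    rw [add_re, add_re, Conc_lin, zero_re] at k2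
    have k2' := congrArg (fun s => (a i - (v i).re) * s) k2
    simp only [hR]
    linarith
  rw [eL, eR, sum_slotsb, sum_slotsb]
  have b0 := SegPot_bd u w hw (v 0) (hc.vb 0) hc.ub (a 0) (ha 0)
  have b1 := SegPot_bd u' w' hw' (v (Fin.last p)) (hc.vb _) hc.ub' (a (Fin.last p)) (ha _)
  have hj : ∀ j : Fin p, hL j.castSucc (some (z j)) + hL j.succ (some (z j)) ≤
      hR j.castSucc (some (y j)) + hR j.succ (some (y j)) + 2 * exc (σ j) := by
    intro j
    have s1 := slot_int (y j) (v j.castSucc) (z j) (a j.castSucc) y1 y2 (σ j) (hc.yb j) (hc.vb _)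
      h1 h1' h2 h2' (ha _) (hz j)
    have s2 := slot_int (y j) (v j.succ) (z j) (a j.succ) y1 y2 (σ j) (hc.yb j) (hc.vb _)
      h1 h1' h2 h2' (ha _) (hz j)
    have s3 := SegPot_kap hc j
    have s4 := congrArg (fun s => s * ((z j).re - (y j).re)) s3
    simp only [hL, hR, vs]
    linarith
  have hs := Finset.sum_le_sum fun j (_ : j ∈ (Finset.univ : Finset (Fin p))) => hj j
  rw [Finset.sum_add_distrib (g := fun j => 2 * exc (σ j)), ← Finset.mul_sum] at hs
  simp only [hL, hR] at hs ⊢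
  linarith

end Pool.Agent.H63.VC6
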