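import Pool.Agent.H63.VC6.Multi
import Pool.Agent.H63.VC6.SegAn
import Pool.Agent.H63.VC6.SegPot

/-! # The sum over the vertices for fixed values of the regions -/

namespace Pool.Agent.H63.VC6

open Pool.Agent.H63.VC hiding ext
open Pool.Agent.H63.VC3 Pool.Agent.H63.VC4 Complex
open scoped BigOperators

/-! ### Slots -/

lemma SegCore_extb_mem {α : Type*} {p : ℕ} (u u' : Option α) (f : Fin p → α) (i : Fin (p + 2))
    (y : α) (h : y ∈ extb u u' f i) : y ∈ u ∨ y ∈ u' ∨ ∃ j, y = f j := by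
  revert h
  refine Fin.cases ?_ (fun i => ?_) i
  · intro h
    exact Or.inl h
  · refine Fin.lastCases ?_ (fun i => ?_) i
    · rw [extb_last]
      intro h
      exact Or.inr (Or.inl h)
    · rw [extb_mid]
      intro h
      exact Or.inr (Or.inr ⟨i, (Option.some.inj h).symm⟩)

lemma SegCore_okS1 (y v : ℂ) (hy : 195 / 1000 ≤ y.re ∧ y.re ≤ 305 / 1000)
    (hv : |v.re| ≤ 15 / 100) : 0 < (y - v).re ∧ (y - v).re < 1 ∧ 0 < (y + v).re ∧
      (y + v).re < 1 := by
  rw [abs_le] at hv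
  rw [sub_re, add_re]
  refine ⟨by linarith, by linarith, by linarith, by linarith⟩

lemma SegCore_okS {p : ℕ} (u u' : Option ℂ) (y : Fin p → ℂ) (v : ℂ)
    (hu : ∀ z ∈ u, 195 / 1000 ≤ z.re ∧ z.re ≤ 305 / 1000)
    (hu' : ∀ z ∈ u', 195 / 1000 ≤ z.re ∧ z.re ≤ 305 / 1000)
    (hy : ∀ j, 195 / 1000 ≤ (y j).re ∧ (y j).re ≤ 305 / 1000) (hv : |v.re| ≤ 15 / 100)
    (i : Fin (p + 2)) : okS v (extb u u' y i) := by
  intro y' hy'
  rcases SegCore_extb_mem u u' y i y' hy' with h | h | ⟨j, rfl⟩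
  · exact SegCore_okS1 _ _ (hu _ h) hv
  · exact SegCore_okS1 _ _ (hu' _ h) hv
  · exact SegCore_okS1 _ _ (hy j) hv

lemma SegCore_bdr {u : Option ℂ} {w : Option ℝ} (h : bdr u w) :
    ∀ z ∈ w.map (fun x => (x : ℂ)), |z.re - 1 / 4| ≤ 55 / 1000 ∧ |z.im| ≤ 1 / 50 := by
  intro z hz
  cases w with
  | none => cases hz
  | some x =>
    have hz' : (x : ℂ) = z := Option.some.inj hz
    rw [← hz', ofReal_re, ofReal_im, abs_zero]
    exact ⟨h.2 x rfl, by norm_num⟩

/-! ### The excess and the damping factor -/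

lemma SegCore_exc (M : ℕ) (σ : Fin 3) :
    Real.exp (M * (2 * exc σ)) ≤ dmp (1 / 100) M σ ∧
      (σ ≠ 0 → Real.exp (M * (2 * exc σ)) ≤ Real.exp (-(M / 500)) * dmp (1 / 100) M σ) := by
  have hM : (0 : ℝ) ≤ M := Nat.cast_nonneg M
  have hπ := Real.pi_gt_three
  unfold exc dmp
  fin_cases σ
  · simp
  · refine ⟨?_, fun _ => ?_⟩
    · simp only [Fin.mk_one, Fin.isValue, one_ne_zero, if_false, if_true]
      rw [if_neg (by decide)]
      rw [Real.exp_le_one_iff]
      nlinarith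
    · simp only [Fin.mk_one, Fin.isValue, one_ne_zero, if_false, if_true]
      rw [if_neg (by decide), mul_one]
      apply Real.exp_le_exp.mpr
      nlinarith
  · refine ⟨?_, fun _ => ?_⟩
    · rw [if_neg (by decide), if_neg (by decide), if_pos (by rfl)]
      apply Real.exp_le_exp.mpr
      nlinarith
    · rw [if_neg (by decide), if_neg (by decide), if_pos (by rfl), ← Real.exp_add]
      apply Real.exp_le_exp.mpr
      nlinarith

lemma SegCore_prod {p : ℕ} (M : ℕ) (σ : Fin p → Fin 3) :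
    Real.exp (M * (2 * ∑ j, exc (σ j))) ≤ ∏ j, dmp (1 / 100) M (σ j) := by
  rw [Finset.mul_sum, Finset.mul_sum, Real.exp_sum]
  exact Finset.prod_le_prod (fun j _ => (Real.exp_pos _).le) fun j _ => (SegCore_exc M (σ j)).1

lemma SegCore_prod' {p : ℕ} (M : ℕ) (σ : Fin p → Fin 3) (h : ∃ j, σ j ≠ 0) :
    Real.exp (M * (2 * ∑ j, exc (σ j))) ≤
      Real.exp (-(M / 500)) * ∏ j, dmp (1 / 100) M (σ j) := by
  obtain ⟨j0, hj0⟩ := h
  have e1 : Real.exp (M * (2 * ∑ j, exc (σ j))) = Real.exp (M * (2 * exc (σ j0))) *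
      ∏ j ∈ Finset.univ.erase j0, Real.exp (M * (2 * exc (σ j))) := by
    rw [Finset.mul_sum, Finset.mul_sum, Real.exp_sum]
    exact (Finset.mul_prod_erase Finset.univ (fun j => Real.exp (M * (2 * exc (σ j))))
      (Finset.mem_univ j0)).symm
  have e2 : Real.exp (-(M / 500)) * ∏ j, dmp (1 / 100) M (σ j) =
      (Real.exp (-(M / 500)) * dmp (1 / 100) M (σ j0)) *
        ∏ j ∈ Finset.univ.erase j0, dmp (1 / 100) M (σ j) := by
    rw [mul_assoc]
    congr 1
    exact (Finset.mul_prod_erase Finset.univ (fun j => dmp (1 / 100) M (σ j))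
      (Finset.mem_univ j0)).symm
  rw [e1, e2]
  refine mul_le_mul ((SegCore_exc M (σ j0)).2 hj0) ?_ ?_ ?_
  · exact Finset.prod_le_prod (fun j _ => (Real.exp_pos _).le) fun j _ => (SegCore_exc M (σ j)).1
  · exact Finset.prod_nonneg fun j _ => (Real.exp_pos _).le
  · exact (Real.exp_pos _).le.trans ((SegCore_exc M (σ j0)).2 hj0)

theorem seg_core {p : ℕ} (r : Fin (p + 1) → ℤ) (u u' : Option ℂ) (y : Fin p → ℂ)
    (v : Fin (p + 1) → ℂ) (hc : SegC r u u' y v) (n g : ℕ) (hn : 2 ≤ n) (hg : 1 ≤ g)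
    (hgn : g ≤ n - 1) :
    ∃ C : ℝ, 0 < C ∧ ∃ M0 : ℕ, ∀ M k1 k2 l1 l2 : ℕ, M0 ≤ M → Win n M k1 k2 l1 l2 →
    ∀ w w' : Option ℝ, bdr u w → bdr u' w' → ∀ a : Fin (p + 1) → ℝ, (∀ i, |a i| ≤ 15 / 100) →
    Real.exp (M * (vs (w.map fun x => (x : ℂ)) + vs (w'.map fun x => (x : ℂ)))) *
      ‖∑ t ∈ Fintype.piFinset (fun _ : Fin p => Finset.Icc k1 k2),
        GIb r n g M (w.map fun x => (x : ℂ)) (w'.map fun x => (x : ℂ)) (fun j => yk n M (t j))
          (fun i => a i + (v i).im * I)‖ ≤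
      C * (M : ℝ) ^ (3 * p) * Real.exp (M * (Tot r u u' y v + 1 / 1000 * (ns u + ns u'))) ∧
    Real.exp (M * (vs (w.map fun x => (x : ℂ)) + vs (w'.map fun x => (x : ℂ)))) *
      ‖∑ t ∈ Fintype.piFinset (fun _ : Fin p => Finset.Icc k1 k2),
        GIb r n g M (w.map fun x => (x : ℂ)) (w'.map fun x => (x : ℂ)) (fun j => yk n M (t j))
          (fun i => a i + (v i).im * I) -
        (M : ℂ) ^ p * ∫ x in Set.pi Set.univ (fun _ : Fin p =>
          Set.Ioc ((k1 + bt n) / M - 1 / 2) ((k2 + 1 + bt n) / M - 1 / 2)),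
          GIb r n g M (w.map fun x => (x : ℂ)) (w'.map fun x => (x : ℂ))
            (fun j => x j + (y j).im * I) (fun i => a i + (v i).im * I)‖ ≤
      C * (M : ℝ) ^ (3 * p) *
        Real.exp (M * (Tot r u u' y v + 1 / 1000 * (ns u + ns u') - 1 / 500)) := by
  obtain ⟨C0, hC0, M0, hB⟩ := GIb_bound r n g hg hgn (fun i => (v i).im) (fun i => by
    have := hc.vb i
    exact ⟨this.2.1, this.2.2.trans (by norm_num)⟩)
  refine ⟨18 ^ p * C0, by positivity, M0 + 100, ?_⟩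
  intro M k1 k2 l1 l2 hM0 hw w w' hbw hbw' a ha
  have hM100 : 100 ≤ M := by omega
  have hMpos : 0 < M := by omega
  have hMr : (100 : ℝ) ≤ M := by exact_mod_cast hM100
  have hMr0 : (0 : ℝ) < M := by linarith
  have hπ3 : 3.14 < Real.pi := Real.pi_gt_d2
  obtain ⟨y1, hy1⟩ : ∃ y1 : ℝ, y1 = (k1 + bt n) / M - 1 / 2 := ⟨_, rfl⟩
  obtain ⟨y2, hy2⟩ : ∃ y2 : ℝ, y2 = (k2 + 1 + bt n) / M - 1 / 2 := ⟨_, rfl⟩
  have a1 : 1 / 4 - 55 / 1000 ≤ y1 := by rw [hy1]; exact hw.a1
  have a2 : y1 ≤ 1 / 4 - 54 / 1000 := by rw [hy1]; exact hw.a2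
  have a3 : 1 / 4 + 54 / 1000 ≤ y2 := by rw [hy2]; exact hw.a3
  have a4 : y2 ≤ 1 / 4 + 55 / 1000 := by rw [hy2]; exact hw.a4
  rw [← hy1, ← hy2]
  obtain ⟨T, hT⟩ : ∃ T : ℝ, T = Tot r u u' y v + 1 / 1000 * (ns u + ns u') := ⟨_, rfl⟩
  rw [← hT]
  obtain ⟨wc, hwc⟩ : ∃ wc : Option ℂ, wc = w.map fun x => (x : ℂ) := ⟨_, rfl⟩
  obtain ⟨wc', hwc'⟩ : ∃ wc' : Option ℂ, wc' = w'.map fun x => (x : ℂ) := ⟨_, rfl⟩
  have hb1 := SegCore_bdr hbw
  have hb2 := SegCore_bdr hbw'
  have hpot := seg_pot r u u' y v hc w w' hbw hbw' y1 y2 a1 a2 a3 a4 a ha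
  rw [← hwc] at hb1 hpot ⊢
  rw [← hwc'] at hb2 hpot ⊢
  obtain ⟨ev, hev⟩ : ∃ ev : ℝ, ev = Real.exp (M * (vs wc + vs wc')) := ⟨_, rfl⟩
  have hev0 : 0 < ev := by rw [hev]; exact Real.exp_pos _
  rw [← hev]
  obtain ⟨A, hA⟩ : ∃ A : ℝ, A = C0 * (M : ℝ) ^ (2 * p) * Real.exp (M * T) / ev := ⟨_, rfl⟩
  have hA0 : 0 ≤ A := by rw [hA]; positivity
  -- the bound on the paths
  have hbd : ∀ (σ : Fin p → Fin 3) (z : Fin p → ℂ),
      (∀ j, Stt y1 y2 (1 / 100) (y j).im (σ j) (z j)) →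
      ‖GIb r n g M wc wc' z (fun i => a i + (v i).im * I)‖ ≤
        A * Real.exp (M * (2 * ∑ j, exc (σ j))) := by
    intro σ z hz
    have h1 := hB M (by omega) wc wc' z a hb1 hb2 (fun j => by
      obtain ⟨h1, h2, h3, -⟩ := hz j
      refine ⟨?_, by linarith⟩
      rw [abs_le]
      constructor <;> linarith) ha
    have h2 := hpot σ z hz
    rw [← hev] at h1
    have h3 : ev * ‖GIb r n g M wc wc' z (fun i => a i + (v i).im * I)‖ ≤
        C0 * (M : ℝ) ^ (2 * p) * (Real.exp (M * T) * Real.exp (M * (2 * ∑ j, exc (σ j)))) := by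
      refine h1.trans ?_
      rw [← Real.exp_add]
      gcongr
      rw [← mul_add]
      gcongr
      linarith
    rw [hA, div_mul_eq_mul_div, le_div_iff₀ hev0, mul_comm]
    refine h3.trans (le_of_eq ?_)
    ring
  have hre : ∀ z : Fin p → ℂ, (∀ i, y1 ≤ (z i).re ∧ (z i).re ≤ y2 ∧ |(z i).im| ≤ 1 / 100) →
      ∀ i, 195 / 1000 ≤ (z i).re ∧ (z i).re ≤ 305 / 1000 := by
    intro z hz i
    have := hz i
    constructor <;> linarith [this.1, this.2.1]
  have hwre : ∀ z ∈ wc, 195 / 1000 ≤ z.re ∧ z.re ≤ 305 / 1000 := by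
    intro z hz
    have := (hb1 z hz).1
    rw [abs_le] at this
    constructor <;> linarith [this.1, this.2]
  have hwre' : ∀ z ∈ wc', 195 / 1000 ≤ z.re ∧ z.re ≤ 305 / 1000 := by
    intro z hz
    have := (hb2 z hz).1
    rw [abs_le] at this
    constructor <;> linarith [this.1, this.2]
  have hv : ∀ i, |((a i : ℂ) + (v i).im * I).re| ≤ 15 / 100 := by
    intro i
    have e : ((a i : ℂ) + (v i).im * I).re = a i := by simp
    rw [e]
    exact ha i
  have hpp := prodpath (fun z => GIb r n g M wc wc' z (fun i => a i + (v i).im * I)) n M k1 k2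
    (1 / 100) (fun j => (y j).im) hMpos hw.hk (by norm_num) (by norm_num)
    (fun j => (hc.yb j).2.trans (by norm_num)) (by
      have : 2 * 3.14 * (1 / 100) * 100 ≤ 2 * Real.pi * (1 / 100) * M := by gcongr
      linarith) y1 y2 hy1 hy2 (by linarith) A (A * Real.exp (-(M / 500))) hA0 (by positivity)
    (by
      intro z hz
      refine ⟨?_, fun j => ?_⟩
      · exact GIb_continuousAt r n g M hg hgn hw.big wc wc' z (fun i => a i + (v i).im * I)
          (fun j => by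
            have := hre z hz j
            constructor <;> linarith [this.1, this.2])
          (fun i => ⟨SegCore_okS wc wc' z _ hwre hwre' (hre z hz) (hv i) _,
            SegCore_okS wc wc' z _ hwre hwre' (hre z hz) (hv i) _⟩)
      · refine GIb_update_differentiable r n g M hg hgn hw.big wc wc' z
          (fun i => a i + (v i).im * I) j ?_ ?_ ?_
        · have := hre z hz j
          constructor <;> linarith [this.1, this.2]
        · intro y' hy'
          rw [Option.mem_some_iff] at hy'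
          rw [← hy']
          exact SegCore_okS1 _ _ (hre z hz j) (hv _)
        · intro y' hy'
          rw [Option.mem_some_iff] at hy'
          rw [← hy']
          exact SegCore_okS1 _ _ (hre z hz j) (hv _))
    (fun σ z hz => (hbd σ z hz).trans (mul_le_mul_of_nonneg_left (SegCore_prod M σ) hA0))
    (fun σ z hσ hz => by
      refine (hbd σ z hz).trans ?_
      rw [mul_assoc]
      exact mul_le_mul_of_nonneg_left (SegCore_prod' M σ hσ) hA0)
  obtain ⟨h1, h2⟩ := hpp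
  constructor
  · calc ev * _ ≤ ev * ((18 * (M : ℝ)) ^ p * A) := mul_le_mul_of_nonneg_left h1 hev0.le
      _ = 18 ^ p * C0 * (M : ℝ) ^ (3 * p) * Real.exp (M * T) := by
        rw [hA, mul_pow]
        field_simp
        ring
  · calc ev * _ ≤ ev * ((18 * (M : ℝ)) ^ p * (A * Real.exp (-(M / 500)))) :=
          mul_le_mul_of_nonneg_left h2 hev0.le
      _ = 18 ^ p * C0 * (M : ℝ) ^ (3 * p) * (Real.exp (M * T) * Real.exp (-(M / 500))) := by
        rw [hA, mul_pow]
        field_simp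
        ring
      _ = _ := by
        rw [← Real.exp_add]
        congr 2
        ring

end Pool.Agent.H63.VC6
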